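import Pool.Agent.Lib.MP_b07157_agQV.Chg
import Pool.Agent.Lib.MP_b07157_agQV.Nd

/-!
# Newton non-degenerate polynomials with a remainder, and inverse changes of coordinates
-/

noncomputable section

namespace MPb07157

open MvPolynomial

namespace QV

variable {n : ℕ}

theorem smcLoc_of_aeval {p : Fin n → MvPolynomial (Fin n) ℂ} (hc0 : ∀ i, coeff 0 (p i) = 0)
    (hdet : (Matrix.of fun i j => coeff (Finsupp.single j 1) (p i)).det ≠ 0)
    {G : MvPolynomial (Fin n) ℂ} (hG : SmcLoc (aeval p G)) : SmcLoc G := by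
  classical
  obtain ⟨E, hE⟩ := IFT.exists_equiv (a := fun i => (p i : MvPowerSeries (Fin n) ℂ))
    (fun i => by
      rw [← MvPowerSeries.coeff_zero_eq_constantCoeff_apply, MvPolynomial.coeff_coe, hc0])
    (by
      have : (Matrix.of fun i j => MvPowerSeries.coeff (Finsupp.single j 1)
          (p i : MvPowerSeries (Fin n) ℂ)) =
          (Matrix.of fun i j => coeff (Finsupp.single j 1) (p i)) := by
        ext i j
        rw [Matrix.of_apply, Matrix.of_apply, MvPolynomial.coeff_coe]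
      rw [this]
      exact hdet)
  have h : (aeval (fun i => (p i : MvPowerSeries (Fin n) ℂ)) :
      MvPolynomial (Fin n) ℂ →ₐ[ℂ] MvPowerSeries (Fin n) ℂ) =
      (MvPolynomial.coeToMvPowerSeries.algHom ℂ).comp (aeval p) := by
    apply MvPolynomial.algHom_ext
    intro i
    rw [AlgHom.comp_apply, aeval_X, aeval_X, MvPolynomial.coeToMvPowerSeries.algHom_apply]
    rfl
  have h1 : E (G : MvPowerSeries (Fin n) ℂ) = ((aeval p G : MvPolynomial (Fin n) ℂ) :
      MvPowerSeries (Fin n) ℂ) := by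
    rw [hE, h, AlgHom.comp_apply, MvPolynomial.coeToMvPowerSeries.algHom_apply]
    rfl
  refine SmcLoc.of_formEquivPow one_pos ⟨E.symm, 1, ?_⟩ hG
  rw [pow_one, Units.val_one, one_mul, ← h1, AlgEquiv.symm_apply_apply]

theorem Sus.aeval' {p : Fin n → MvPolynomial (Fin n) ℂ} (hp : Chg p) {g : MvPolynomial (Fin n) ℂ}
    {m : ℕ} {h : MvPolynomial (Fin m) ℂ} (hs : Sus g h) :
    ∃ p' : Fin m → MvPolynomial (Fin m) ℂ, Chg p' ∧
      Sus (MvPolynomial.aeval p g) (MvPolynomial.aeval p' h) := by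
  induction hs with
  | refl => exact ⟨p, hp, Sus.refl⟩
  | @step m h e he _ ih =>
    obtain ⟨p', hp', hs'⟩ := ih
    refine ⟨QV.ext0 p', hp'.ext0, ?_⟩
    rw [← sus0_aeval]
    exact hs'.step he

theorem SuLoc.of_aeval {p : Fin n → MvPolynomial (Fin n) ℂ} (hp : Chg p)
    {g : MvPolynomial (Fin n) ℂ} (hg : SuLoc (MvPolynomial.aeval p g)) : SuLoc g := by
  intro m h hs
  obtain ⟨p', hp', hs'⟩ := hs.aeval' hp
  exact smcLoc_of_aeval hp'.1 hp'.2 (hg m _ hs')

/-- A polynomial with an explicit support up to a remainder is non-degenerate. -/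
theorem nd_famR {K : ℕ} {F R : MvPolynomial (Fin n) ℂ} (E : Fin K → Fin n → ℕ)
    (hE : Function.Injective E) (c : Fin K → ℂ) (hF : F = ∑ k, C (c k) * ∏ i, X i ^ E k i + R)
    (hc : ∃ k, c k ≠ 0) (h0 : ∀ k, E k ≠ 0)
    (hR : ∀ v ∈ R.support, ∀ w : Fin n → ℕ, (∀ i, 0 < w i) →
      ∃ k, c k ≠ 0 ∧ ∑ i, w i * E k i < ∑ i, w i * v i)
    (H : ∀ (w : Fin n → ℕ) (m : ℕ) (u : Fin n → ℂ) (T : Fin K → ℂ), (∀ i, 0 < w i) →
      (∀ i, u i ≠ 0) → (∀ k, c k ≠ 0 → m ≤ ∑ i, w i * E k i) →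
      (∀ k, T k = if ∑ i, w i * E k i = m then c k * ∏ i, u i ^ E k i else 0) →
      (∃ k, T k ≠ 0) → (∀ i, ∑ k, (E k i : ℂ) * T k = 0) → False) : ND F := by
  classical
  let e : Fin K → (Fin n →₀ ℕ) := fun k => Finsupp.equivFunOnFinite.symm (E k)
  have he : Function.Injective e := fun a b hab =>
    hE (Finsupp.equivFunOnFinite.symm.injective hab)
  have hea : ∀ k i, e k i = E k i := fun k i => rfl
  have hmon : ∀ k, C (c k) * ∏ i, (X i : MvPolynomial (Fin n) ℂ) ^ E k i =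
      monomial (e k) (c k) := by
    intro k
    rw [monomial_eq, Finsupp.prod_fintype _ _ (fun i => pow_zero _)]
    rfl
  have hFm : F = ∑ k, monomial (e k) (c k) + R := by
    rw [hF]
    exact congrArg₂ _ (Finset.sum_congr rfl fun k _ => hmon k) rfl
  have hco' : ∀ k, coeff (e k) (∑ k, monomial (e k) (c k)) = c k := by
    intro k
    rw [coeff_sum, Finset.sum_eq_single k, coeff_monomial, if_pos rfl]
    · intro l _ hl
      rw [coeff_monomial, if_neg fun h => hl (he h)]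
    · intro h
      exact absurd (Finset.mem_univ k) h
  have hsup : ∀ v ∈ F.support, (∃ k, e k = v ∧ c k ≠ 0) ∨ v ∈ R.support := by
    intro v hv
    by_cases hvR : v ∈ R.support
    · exact Or.inr hvR
    left
    rw [mem_support_iff, hFm, coeff_add, notMem_support_iff.1 hvR, add_zero, coeff_sum] at hv
    obtain ⟨k, _, hk⟩ := Finset.exists_ne_zero_of_sum_ne_zero hv
    rw [coeff_monomial] at hk
    split_ifs at hk with h1
    · exact ⟨k, h1, hk⟩
    · exact absurd rfl hk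
  have hmin : ∀ w : Fin n → ℕ, (∀ i, 0 < w i) → ∃ k, c k ≠ 0 ∧ e k ∈ F.support ∧
      ∀ l, c l ≠ 0 → ∑ i, w i * E k i ≤ ∑ i, w i * E l i := by
    intro w hw
    obtain ⟨k0, hk0⟩ := hc
    obtain ⟨k, hk, hkm⟩ := Finset.exists_min_image (Finset.univ.filter fun k => c k ≠ 0)
      (fun k => ∑ i, w i * E k i) ⟨k0, Finset.mem_filter.2 ⟨Finset.mem_univ _, hk0⟩⟩
    have hck := (Finset.mem_filter.1 hk).2
    have hkm' : ∀ l, c l ≠ 0 → ∑ i, w i * E k i ≤ ∑ i, w i * E l i := fun l hl =>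
      hkm l (Finset.mem_filter.2 ⟨Finset.mem_univ _, hl⟩)
    refine ⟨k, hck, ?_, hkm'⟩
    have hkR : e k ∉ R.support := by
      intro hkR
      obtain ⟨l, hl, hlt⟩ := hR _ hkR w hw
      have h2 := hkm' l hl
      simp only [hea] at hlt
      omega
    rw [mem_support_iff, hFm, coeff_add, hco', notMem_support_iff.1 hkR, add_zero]
    exact hck
  obtain ⟨k1, hk1, hk1F, _⟩ := hmin (fun _ => 1) fun _ => one_pos
  have hF0 : F ≠ 0 := by
    rintro h
    rw [h, support_zero] at hk1F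
    exact absurd hk1F (Finset.notMem_empty _)
  have hRpos : ∀ v ∈ R.support, v ≠ 0 := by
    rintro v hv rfl
    obtain ⟨k, _, hlt⟩ := hR 0 hv (fun _ => 1) fun _ => one_pos
    simp at hlt
  have hc0 : coeff 0 F = 0 := by
    by_contra h
    rcases hsup 0 (mem_support_iff.2 h) with ⟨k, hk, _⟩ | h1
    · apply h0 k
      funext i
      rw [← hea, hk]
      rfl
    · exact hRpos 0 h1 rfl
  refine ⟨hF0, hc0, fun w m u hw hu hm hex => ?_⟩
  by_contra hcon
  push Not at hcon
  obtain ⟨k2, hk2, hk2F, hk2m⟩ := hmin w hw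
  have hmk : ∀ k, c k ≠ 0 → m ≤ ∑ i, w i * E k i := fun k hk =>
    (hm _ hk2F).trans (hk2m k hk)
  have hRm : ∀ v ∈ R.support, ∑ i, w i * v i ≠ m := by
    intro v hv
    obtain ⟨k, hk, hlt⟩ := hR v hv w hw
    have := hmk k hk
    omega
  refine H w m u (fun k => if ∑ i, w i * E k i = m then c k * ∏ i, u i ^ E k i else 0) hw hu
    hmk (fun k => rfl) ?_ fun i => ?_
  · obtain ⟨v, hv, hvm⟩ := hex
    rcases hsup v hv with ⟨k, rfl, hck⟩ | h1
    · refine ⟨k, ?_⟩
      have h1 : ∑ i, w i * E k i = m := hvm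
      simp only [if_pos h1]
      exact mul_ne_zero hck (Finset.prod_ne_zero_iff.2 fun i _ => pow_ne_zero _ (hu i))
    · exact absurd hvm (hRm v h1)
  · have h1 := hcon i
    have h2 : Lf (ph w m u i) R = 0 := by
      unfold Lf
      refine Finset.sum_eq_zero fun v hv => ?_
      unfold ph
      rw [if_neg (hRm v hv), mul_zero]
    rw [hFm, Lf_add, h2, add_zero, Lf_sum] at h1
    refine Eq.trans (Finset.sum_congr rfl fun k _ => ?_) h1
    rw [Lf_monomial]
    unfold ph
    simp only [hea]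
    split_ifs with h6
    · ring
    · rw [mul_zero, mul_zero]

end QV

end MPb07157
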