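import Pool.Agent.Lib.MP_b07157_agSG3.Sum
import Pool.Agent.Lib.MP_b07157_agQV.Susp3

/-!
# Sums of quartic polynomials in three variables and polynomials in one variable, II
-/

noncomputable section

namespace MPb07157

open MvPolynomial QH

namespace SG3

theorem translate_add_C {n : ℕ} (p : Fin n → ℂ) (g : MvPolynomial (Fin n) ℂ) (c : ℂ) :
    translate p (g + C c) = translate p g + C c := by
  refine MvPolynomial.funext fun x => ?_
  rw [D5.eval_translate', map_add, map_add, D5.eval_translate', eval_C, eval_C]

theorem homogeneousComponent_add_C {n : ℕ} (g : MvPolynomial (Fin n) ℂ) (c : ℂ) {j : ℕ}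
    (hj : 0 < j) : homogeneousComponent j (g + C c) = homogeneousComponent j g := by
  rw [map_add, homogeneousComponent_of_mem (isHomogeneous_C (Fin n) c), if_neg hj.ne', add_zero]

end SG3

/-- **The strong monodromy conjecture, global version**, for `f = g(x, y, z) + ∑ h_i(u_i)`, `h_i`
nonconstant polynomials in one variable, `g` of degree at most four such that, at the critical zeros
`(p, z)` of `f` for which `g - g(p)` has multiplicity at least three at `p`, this multiplicity is three
and the tangent cone is not reduced or has no singular point outside the vertex. -/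
theorem SmcGlob.of_sum3 {r : ℕ} {g : MvPolynomial (Fin 3) ℂ} {h : Fin r → Polynomial ℂ}
    (hh : ∀ i, 0 < (h i).natDegree) (hne : SS.sh g h ≠ 0) (hd : g.totalDegree ≤ 4)
    (h3 : ∀ (p : Fin 3 → ℂ) (z : Fin r → ℂ), eval p g + ∑ i, (h i).eval (z i) = 0 →
      (∀ i, (Polynomial.derivative (h i)).eval (z i) = 0) →
      homogeneousComponent 1 (translate p g) = 0 → homogeneousComponent 2 (translate p g) = 0 →
      homogeneousComponent 3 (translate p g) ≠ 0 ∧
        (¬ Squarefree (homogeneousComponent 3 (translate p g)) ∨
          ∀ x : Fin 3 → ℂ, x ≠ 0 → ∃ i, eval x (pderiv i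
            (homogeneousComponent 3 (translate p g))) ≠ 0)) : SmcGlob (SS.sh g h) := by
  have key : ∀ z : Fin r → ℂ, (∀ i, (Polynomial.derivative (h i)).eval (z i) = 0) →
      ∀ p ∈ QG.Tr (g + C (∑ i, (h i).eval (z i))),
        homogeneousComponent 3 (translate p (g + C (∑ i, (h i).eval (z i)))) ≠ 0 ∧
        (¬ Squarefree (homogeneousComponent 3 (translate p (g + C (∑ i, (h i).eval (z i))))) ∨
          ∀ x : Fin 3 → ℂ, x ≠ 0 → ∃ i, eval x (pderiv i
            (homogeneousComponent 3 (translate p (g + C (∑ i, (h i).eval (z i)))))) ≠ 0) := by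
    intro z hz p hp
    have h1 := t3_iff.1 hp
    rw [SG3.translate_add_C, SG3.homogeneousComponent_add_C _ _ (by norm_num)]
    refine h3 p z ?_ hz ?_ ?_
    · have h2 := hp.1
      rw [map_add, eval_C] at h2
      exact h2
    · rw [← SG3.homogeneousComponent_add_C _ (∑ i, (h i).eval (z i)) (by norm_num),
        ← SG3.translate_add_C]
      exact h1 1 (by norm_num)
    · rw [← SG3.homogeneousComponent_add_C _ (∑ i, (h i).eval (z i)) (by norm_num),
        ← SG3.translate_add_C]
      exact h1 2 (by norm_num)
  refine SmcGlob.of_sumQ hh hne hd (fun z hz p hp => ?_) fun z hz p hp m hm => ?_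
  · rw [third_iff]
    exact (key z hz p hp).1
  · refine SmcLoc.of_susp3 ?_ (Or.inr (key z hz p hp)) fun i => by have := hm i; omega
    exact (D5.totalDegree_translate_le p _).trans
      ((totalDegree_add _ _).trans (max_le hd (by rw [totalDegree_C]; omega)))

end MPb07157
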