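import Pool.Agent.Lib.MP_b07157_agSG3.TriDef2

/-!
# A condition on germs of multiplicity three in three variables, III
-/

noncomputable section

namespace MPb07157

open MvPolynomial

/-- The cubic form `c` is `x (x z + y^2)` in suitable linear coordinates: a conic and a tangent
line. -/
def TangentCubic (c : MvPolynomial (Fin 3) ℂ) : Prop :=
  ∃ M : Matrix (Fin 3) (Fin 3) ℂ, M.det ≠ 0 ∧
    ∀ w : Fin 3 → ℂ, eval (M.mulVec w) c = w 0 * (w 0 * w 2 + w 1 ^ 2)

/-- The homogeneous parts `c`, `q` of degrees three and four of `g`: `c ≠ 0`, and `g` has degree at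
most four, or `c` is nodal, or `q` does not vanish at the critical points of `c` outside the
origin. -/
def TriGerm3 (g : MvPolynomial (Fin 3) ℂ) : Prop :=
  homogeneousComponent 3 g ≠ 0 ∧ (g.totalDegree ≤ 4 ∨ NodCond (homogeneousComponent 3 g) ∨
    ∀ x : Fin 3 → ℂ, x ≠ 0 → (∃ i, eval x (pderiv i (homogeneousComponent 3 g)) ≠ 0) ∨
      eval x (homogeneousComponent 4 g) ≠ 0)

end MPb07157
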