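import Pool.Agent.Lib.MP_b07157_agSG3.TriS
import Pool.Agent.Lib.MP_b07157_agQV.SFin0
import Pool.Agent.Lib.MP_b07157_agQV.SN3

/-!
# Sums of polynomials in three variables and polynomials in one variable: conclusion
-/

noncomputable section

namespace MPb07157

open MvPolynomial

open CV QV SG3

namespace SG3

/-- The tangent cones `x (x z + y^2)`. -/
theorem tangentThm : TangentThm :=
  tangentThm_of (suLoc_S_of_D3 fun _ _ _ _ _ _ _ _ _ _ hl hR => SZ.suLoc_D3R hl hR)

end SG3

/-- **The strong monodromy conjecture, local version**, for the sums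
`f = g(x_1, x_2, x_3) + ∑ h_i(z_i)`, where the `h_i` are nonconstant polynomials in one variable and
the first or the second derivatives of `g` do not all vanish at the origin, or `g` satisfies
`TriGerm3`. -/
theorem SmcLoc.of_sum3S {r : ℕ} {g : MvPolynomial (Fin 3) ℂ}
    (hc : (∀ i, coeff 0 (pderiv i g) = 0) → YG.hessAt g 0 ≠ 0 ∨ TriGerm3 g)
    {h : Fin r → Polynomial ℂ} (hh : ∀ i, 0 < (h i).natDegree) : SmcLoc (SS.sh g h) :=
  SmcLoc.of_sum3T3 tangentThm hc hh

/-- **The strong monodromy conjecture, global version**, for the sums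
`f = g(x_1, x_2, x_3) + ∑ h_i(z_i)`, where the `h_i` are nonconstant polynomials in one variable and
at each critical zero `(p, z)` of `f` the Hessian matrix of `g` at `p` is not zero or `g(p + x)`
satisfies `TriGerm3`. -/
theorem SmcGlob.of_sum3S {r : ℕ} {g : MvPolynomial (Fin 3) ℂ} {h : Fin r → Polynomial ℂ}
    (hh : ∀ i, 0 < (h i).natDegree) (hne : SS.sh g h ≠ 0)
    (hc : ∀ (p : Fin 3 → ℂ) (z : Fin r → ℂ), eval p g + ∑ i, (h i).eval (z i) = 0 →
      (∀ i, eval p (pderiv i g) = 0) → (∀ i, (Polynomial.derivative (h i)).eval (z i) = 0) →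
      YG.hessAt g p ≠ 0 ∨ TriGerm3 (translate p g)) : SmcGlob (SS.sh g h) :=
  SmcGlob.of_sum3T3 tangentThm hh hne hc

end MPb07157
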