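import Pool.Agent.Lib.MP_b07157_agQV.Chg
import Pool.Agent.Lib.MP_b07157_agSS.Main

/-!
# Suspensions: the new variables first or last
-/

noncomputable section

namespace MPb07157

open MvPolynomial

namespace SG3

variable {n r : ℕ}

/-- A permutation of the variables. -/
theorem smcLoc_rename_equiv (σ : Fin n ≃ Fin n) {h : MvPolynomial (Fin n) ℂ}
    (hh : SmcLoc h) : SmcLoc (rename σ h) := by
  refine CS.LinEq.smcLoc ⟨LinearEquiv.funCongrLeft ℂ ℂ σ.symm, fun w => ?_⟩ hh
  rw [eval_rename]
  congr 1
  refine congrArg (fun v => eval v) ?_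
  funext i
  show w (σ.symm (σ i)) = w i
  rw [Equiv.symm_apply_apply]

theorem exists_sus (g : MvPolynomial (Fin n) ℂ) : ∀ {r : ℕ} (e : Fin r → ℕ),
    (∀ i, 2 ≤ e i) → ∃ (m : ℕ) (h : MvPolynomial (Fin m) ℂ) (σ : Fin m ≃ Fin (n + r)),
      QV.Sus g h ∧ rename σ h = SS.sg g e
  | 0, e, _ => by
    refine ⟨n, g, Equiv.refl _, QV.Sus.refl, ?_⟩
    have h1 : SS.sg g e = rename (Fin.castAdd 0) g := by
      unfold SS.sg
      simp
    exact h1.symm
  | r + 1, e, he => by
    obtain ⟨m, h, σ, hs, hσ⟩ := exists_sus g (fun i : Fin r => e i.castSucc)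
      fun i => he i.castSucc
    have hinj : Function.Bijective (Fin.cons (Fin.last (n + r)) (fun j => (σ j).castSucc) :
        Fin (m + 1) → Fin (n + r + 1)) := by
      constructor
      · intro a b hab
        induction a using Fin.cases with
        | zero =>
          induction b using Fin.cases with
          | zero => rfl
          | succ b =>
            rw [Fin.cons_zero, Fin.cons_succ] at hab
            exact absurd hab.symm (Fin.castSucc_lt_last _).ne
        | succ a =>
          induction b using Fin.cases with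
          | zero =>
            rw [Fin.cons_zero, Fin.cons_succ] at hab
            exact absurd hab (Fin.castSucc_lt_last _).ne
          | succ b =>
            rw [Fin.cons_succ, Fin.cons_succ] at hab
            rw [σ.injective (Fin.castSucc_injective _ hab)]
      · intro b
        induction b using Fin.lastCases with
        | last => exact ⟨0, Fin.cons_zero _ _⟩
        | cast b => exact ⟨(σ.symm b).succ, by rw [Fin.cons_succ, Equiv.apply_symm_apply]⟩
    refine ⟨m + 1, QV.sus0 h (e (Fin.last r)), Equiv.ofBijective _ hinj,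
      QV.Sus.step (he _) hs, ?_⟩
    unfold QV.sus0
    rw [map_add, map_pow, rename_X, rename_rename]
    have h1 : (Equiv.ofBijective _ hinj : Fin (m + 1) ≃ Fin (n + r + 1)) ∘ Fin.succ =
        Fin.castSucc ∘ σ := by
      funext j
      rfl
    have h2 : (Equiv.ofBijective _ hinj : Fin (m + 1) ≃ Fin (n + r + 1)) 0 =
        Fin.last (n + r) := rfl
    rw [h1, h2, ← rename_rename, hσ]
    unfold SS.sg
    rw [Fin.sum_univ_castSucc, map_add, rename_rename, map_sum]
    have h3 : (Fin.castSucc ∘ Fin.castAdd r : Fin n → Fin (n + r + 1)) = Fin.castAdd (r + 1) :=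
      rfl
    have key : ∀ A B D : MvPolynomial (Fin (n + r + 1)) ℂ, A + (B + D) = B + (D + A) := by
      intro A B D
      ring
    rw [h3]
    refine (key _ _ _).trans ?_
    refine congrArg (fun t => rename (Fin.castAdd (r + 1)) g + (t + _)) ?_
    refine Finset.sum_congr rfl fun i _ => ?_
    rw [map_pow, rename_X]
    rfl

end SG3

/-- The suspension with the new variables last. -/
theorem SG3.smcLoc_sg {n r : ℕ} {g : MvPolynomial (Fin n) ℂ} (hg : QV.SuLoc g)
    {e : Fin r → ℕ} (he : ∀ i, 2 ≤ e i) : SmcLoc (SS.sg g e) := by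
  obtain ⟨m, h, σ, hs, hσ⟩ := SG3.exists_sus g e he
  have hm : m = n + r := by simpa using Fintype.card_congr σ
  subst hm
  rw [← hσ]
  exact SG3.smcLoc_rename_equiv σ (hg _ _ hs)

end MPb07157
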