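import Pool.Agent.Lib.MP_b07157_agQH.Main

/-!
# Coverings of the triple points which survive suspension
-/

noncomputable section

namespace MPb07157

open MvPolynomial QH

namespace SG3

/-- The strata whose suspensions are understood. -/
def GoodS (g : MvPolynomial (Fin 3) ℂ) (W : Set (Fin 3 → ℂ)) : Prop :=
  (∃ (k : ℕ) (w : Fin k → ℕ) (N : ℕ), SqhAlong g W w N) ∨ (∃ x, W = {x} ∧ T3 g x) ∨
    ∃ (u : Fin 2 → MvPolynomial (Fin 3) ℂ) (h : MvPolynomial (Fin 2) ℂ), g = aeval u h ∧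
      ∀ p ∈ W, (∀ j, eval p (u j) = 0) ∧
      LinearIndependent ℂ fun (j : Fin 2) (l : Fin 3) => eval p (pderiv l (u j))

/-- The set `S` is covered by such strata. -/
def CovS (g : MvPolynomial (Fin 3) ℂ) (S : Set (Fin 3 → ℂ)) : Prop :=
  ∃ T : Set (Set (Fin 3 → ℂ)), T.Finite ∧ (∀ W ∈ T, IsConstr W ∧ GoodS g W) ∧
    ∀ p ∈ S, ∃ W ∈ T, p ∈ W

theorem CovS.mono {g : MvPolynomial (Fin 3) ℂ} {S S' : Set (Fin 3 → ℂ)} (h : CovS g S)
    (hS : S' ⊆ S) : CovS g S' := by
  obtain ⟨T, h1, h2, h3⟩ := h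
  exact ⟨T, h1, h2, fun p hp => h3 p (hS hp)⟩

theorem CovS.union {g : MvPolynomial (Fin 3) ℂ} {S S' : Set (Fin 3 → ℂ)} (h : CovS g S)
    (h' : CovS g S') : CovS g (S ∪ S') := by
  obtain ⟨T, h1, h2, h3⟩ := h
  obtain ⟨T', h1', h2', h3'⟩ := h'
  refine ⟨T ∪ T', h1.union h1', ?_, ?_⟩
  · rintro W (hW | hW)
    · exact h2 W hW
    · exact h2' W hW
  · rintro p (hp | hp)
    · obtain ⟨W, hW, hpW⟩ := h3 p hp
      exact ⟨W, Or.inl hW, hpW⟩
    · obtain ⟨W, hW, hpW⟩ := h3' p hp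
      exact ⟨W, Or.inr hW, hpW⟩

theorem CovS.finite {g : MvPolynomial (Fin 3) ℂ} {S : Set (Fin 3 → ℂ)}
    (hS : S.Finite) (hS' : S ⊆ QG.Tr g) : CovS g S := by
  refine ⟨(fun p => {p}) '' S, hS.image _, ?_, fun p hp => ⟨{p}, ⟨p, hp, rfl⟩, rfl⟩⟩
  rintro _ ⟨p, hp, rfl⟩
  exact ⟨isConstr_point p, Or.inr (Or.inl ⟨p, rfl, hS' hp⟩)⟩

theorem CovS.one {g : MvPolynomial (Fin 3) ℂ} {W : Set (Fin 3 → ℂ)} (h : IsConstr W)
    (h' : GoodS g W) : CovS g W :=
  ⟨{W}, Set.finite_singleton W, fun V hV => by rw [Set.mem_singleton_iff.1 hV]; exact ⟨h, h'⟩,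
    fun _ hp => ⟨W, rfl, hp⟩⟩

/-- The triple points with reduced tangent cone. -/
theorem covS_sqf {f : MvPolynomial (Fin 3) ℂ} (hf : f ≠ 0) :
    CovS f {p | T3 f p ∧ Squarefree (homogeneousComponent 3 (translate p f))} := by
  classical
  obtain ⟨T₂, hT₂, hcov₂, hT₂W⟩ := exists_cover_ordMult hf
  obtain ⟨P, hP, hP1, hP2⟩ := SE3.triple_cover f
  refine ⟨T₂ ∪ (fun p => ({p} : Set (Fin 3 → ℂ))) '' P, hT₂.union (hP.image _), ?_, ?_⟩
  · rintro W (hW | ⟨p, hp, rfl⟩)
    · obtain ⟨h1, k, m, h2⟩ := hT₂W W hW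
      exact ⟨h1, Or.inl ⟨_, _, _, h2⟩⟩
    · exact ⟨isConstr_point p, Or.inr (Or.inl ⟨p, rfl, t3_iff.2 (hP1 p hp).1⟩)⟩
  · rintro p ⟨⟨h0, h1, h2⟩, hs⟩
    have hlow : ∀ o, constantCoeff (SE3.gen (translate p f) o) = 0 := by
      intro o
      rw [SE3.gen_translate, ← MB.eval_eq_constantCoeff]
      rcases o with _ | i | ⟨i, j⟩
      · exact h0
      · exact h1 i
      · exact h2 i j
    rcases hP2 p hlow hs with h | h
    · exact ⟨{p}, Or.inr ⟨p, h, rfl⟩, rfl⟩
    · obtain ⟨W, hW, hpW⟩ := hcov₂ p h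
      exact ⟨W, Or.inl hW, hpW⟩

theorem covS_of_bad {f : MvPolynomial (Fin 3) ℂ} (hf : f ≠ 0) (h : CovS f (Bad f)) :
    CovS f (QG.Tr f) := by
  refine ((covS_sqf hf).union h).mono fun p hp => ?_
  by_cases hs : Squarefree (homogeneousComponent 3 (translate p f))
  · exact Or.inl ⟨hp, hs⟩
  · exact Or.inr ⟨hp, hs⟩

section

variable {m : Fin 3 → ℂ} {q : Fin 15 → ℂ} {p : Fin 3 → ℂ}

theorem covS_gd (hm : m ≠ 0)
    (h2 : m 2 = 0) (h9 : q 9 = 0) (h10 : q 10 = 0) (h11 : q 11 = 0)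
    (h12 : q 12 = 0) (h13 : q 13 = 0) (h14 : q 14 = 0) (hq : q 7 ≠ 0 ∨ q 8 ≠ 0) :
    CovS (F m q) (Bad (F m q)) := by
  refine CovS.finite (((bad_finite h2 hm hq).image fun z => ![0, 0, z]).subset ?_) bad_subset
  rintro p ⟨hp, hs⟩
  have h := hp.line hm h9 h10 h11 h12 h13 h14 hq
  refine ⟨p 2, ?_, h.symm⟩
  rw [h, comp_F h2 h9 h10 h11 h12 h13 h14] at hs
  exact hs

theorem covS_nf2 (h2 : m 2 = 0) (h7 : q 7 = 0) (h8 : q 8 = 0) (h9 : q 9 = 0) (h10 : q 10 = 0)
    (h11 : q 11 = 0) (h12 : q 12 = 0) (h13 : q 13 = 0) (h14 : q 14 = 0)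
    (hm : m ≠ 0) (hn : QG.NoQ (F m q))
    (hq : q 3 ≠ 0 ∨ q 4 ≠ 0) : CovS (F m q) (Bad (F m q)) := by
  classical
  have hquad : ¬ ∃ z : ℂ, m 0 + q 5 * z = 0 ∧ m 1 + q 6 * z = 0 := by
    rintro ⟨z, hz0, hz1⟩
    refine noQ_false hn (p := ![0, 0, z]) ?_
    rw [translate_F h2 h9 h10 h11 h12 h13 h14]
    have hc : cz m q z = 0 := by
      have e0 : (C (m 0) + C (q 5) * C z : MvPolynomial (Fin 3) ℂ) = 0 := by
        rw [← map_mul, ← map_add, hz0, map_zero]
      have e1 : (C (m 1) + C (q 6) * C z : MvPolynomial (Fin 3) ℂ) = 0 := by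
        rw [← map_mul, ← map_add, hz1, map_zero]
      unfold cz
      rw [h7, h8, map_zero]
      linear_combination X 0 ^ 3 * e0 + X 0 ^ 2 * X 1 * e1
    rw [hc, zero_add]
    exact rz_hom
  have hc01 : IsConstr {p : Fin 3 → ℂ | p 0 = 0 ∧ p 1 = 0} := by
    have h := isConstr_setOf_and (isConstr_eq_zero (X 0 : MvPolynomial (Fin 3) ℂ))
      (isConstr_eq_zero (X 1 : MvPolynomial (Fin 3) ℂ))
    simpa using h
  by_cases hline : m 1 = 0 ∧ q 6 = 0
  · obtain ⟨hm1, h6⟩ := hline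
    have hm0 : m 0 ≠ 0 := by
      intro hm0
      apply hm
      funext i
      fin_cases i
      · exact hm0
      · exact hm1
      · exact h2
    have h5 : q 5 = 0 := by
      by_contra h5
      apply hquad
      refine ⟨- m 0 / q 5, ?_, ?_⟩
      · rw [mul_div_cancel₀ _ h5]
        ring
      · rw [hm1, h6]
        ring
    have hgood : GoodS (F m q) {p | p 0 = 0 ∧ p 1 = 0} := by
      by_cases h4 : q 4 = 0
      · exact Or.inl ⟨_, _, _, sqh4 h2 h7 h8 h9 h10 h11 h12 h13 h14 hm0 hm1 h5 h6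
          (hq.resolve_right fun h => h h4) h4⟩
      · exact Or.inl ⟨_, _, _, sqh3 h2 h7 h8 h9 h10 h11 h12 h13 h14 hm0 hm1 h5 h6 h4⟩
    exact (CovS.one hc01 hgood).mono fun p hp => hp.1.line2 hm h7 h8 h10 h11 h12 h13 hq
  · have hgood : GoodS (F m q) {p | p 0 = 0 ∧ p 1 = 0 ∧ m 1 + q 6 * p 2 ≠ 0} := by
      by_cases h4 : q 4 = 0
      · exact Or.inl ⟨_, _, _, sqh2 h2 h7 h8 h9 h10 h11 h12 h13 h14
          (hq.resolve_right fun h => h h4) h4⟩
      · exact Or.inl ⟨_, _, _, sqh1 h2 h7 h8 h9 h10 h11 h12 h13 h14 h4⟩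
    have hcW : IsConstr {p : Fin 3 → ℂ | p 0 = 0 ∧ p 1 = 0 ∧ m 1 + q 6 * p 2 ≠ 0} := by
      have h := isConstr_setOf_and (isConstr_eq_zero (X 0 : MvPolynomial (Fin 3) ℂ))
        (isConstr_setOf_and (isConstr_eq_zero (X 1 : MvPolynomial (Fin 3) ℂ))
          (isConstr_ne_zero (C (m 1) + C (q 6) * X 2 : MvPolynomial (Fin 3) ℂ)))
      simpa using h
    have hfin : CovS (F m q) (Bad (F m q) ∩ {![0, 0, - m 1 / q 6]}) :=
      CovS.finite ((Set.finite_singleton _).subset Set.inter_subset_right)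
        (Set.inter_subset_left.trans bad_subset)
    refine ((CovS.one hcW hgood).union hfin).mono fun p hp => ?_
    obtain ⟨h0, h1⟩ := hp.1.line2 hm h7 h8 h10 h11 h12 h13 hq
    by_cases hz : m 1 + q 6 * p 2 = 0
    · right
      refine ⟨hp, ?_⟩
      have h6 : q 6 ≠ 0 := by
        intro h6
        rw [h6, zero_mul, add_zero] at hz
        exact hline ⟨hz, h6⟩
      show p = ![0, 0, - m 1 / q 6]
      funext i
      fin_cases i
      · exact h0
      · exact h1
      · show p 2 = - m 1 / q 6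
        rw [eq_div_iff h6]
        linear_combination hz
    · exact Or.inl ⟨h0, h1, hz⟩

/-- Where the quadric is transversal to the plane. -/
theorem goodS_smooth : GoodS (X 0 ^ 2 * Qd m q) {p | p 0 = 0 ∧ eval p (Qd m q) = 0 ∧
    (eval p (pderiv 1 (Qd m q)) ≠ 0 ∨ eval p (pderiv 2 (Qd m q)) ≠ 0)} := by
  refine Or.inr (Or.inr ⟨![X 0, Qd m q], X 0 ^ 2 * X 1, ?_, fun p hp => ⟨fun j => ?_, ?_⟩⟩)
  · rw [map_mul, map_pow, aeval_X, aeval_X]
    rfl
  · fin_cases j
    · simpa using hp.1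
    · exact hp.2.1
  · rw [Fintype.linearIndependent_iff]
    intro g hg j
    have e0 := congrFun hg 0
    have e1 := congrFun hg 1
    have e2 := congrFun hg 2
    simp [Fin.sum_univ_two, pderiv_X] at e0 e1 e2
    have hg1 : g 1 = 0 := by
      rcases hp.2.2 with h | h
      · exact e1.resolve_right h
      · exact e2.resolve_right h
    rw [hg1, zero_mul, add_zero] at e0
    fin_cases j
    · exact e0
    · exact hg1

/-- A triple plane. -/
theorem goodS_cube : GoodS (X 0 ^ 2 * (X 0 * Lf m q)) {p | p 0 = 0 ∧ eval p (Lf m q) ≠ 0} := by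
  classical
  refine Or.inl ⟨1, ![1], 3, by norm_num, fun j => by fin_cases j; decide, 1, ![X 0],
    C (Lf m q) * X 0 ^ 3, ?_, ?_, ?_⟩
  · rw [one_mul, map_mul, eval_C, map_pow, eval_X]
    show _ = Lf m q * X 0 ^ 3
    ring
  · intro v hv
    rw [X_pow_eq_monomial, C_mul_monomial, mul_one] at hv
    have h1 := support_monomial_subset hv
    rw [Finset.mem_singleton] at h1
    rw [h1, Fin.sum_univ_one]
    simp
  · rintro p ⟨hp0, hpL⟩
    refine ⟨by simp, fun j => ?_, ?_, fun y hy => ?_⟩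
    · fin_cases j
      simpa using hp0
    · rw [Fintype.linearIndependent_iff]
      intro g hg j
      have e0 := congrFun hg 0
      simp [pderiv_X] at e0
      fin_cases j
      exact e0
    · refine ⟨0, ?_⟩
      have h6 : IsWeightedHomogeneous (![1] : Fin 1 → ℕ)
          (C (eval p (Lf m q)) * X 0 ^ 3 : MvPolynomial (Fin 1) ℂ) 3 := by
        have h7 := (isWeightedHomogeneous_C (![1] : Fin 1 → ℕ) (eval p (Lf m q))).mul
          ((isWeightedHomogeneous_X ℂ (![1] : Fin 1 → ℕ) 0).pow 3)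
        have h8 : 0 + 3 • (![1] : Fin 1 → ℕ) 0 = 3 := rfl
        rwa [h8] at h7
      have h9 : map (eval p) (C (Lf m q) * X 0 ^ 3 :
          MvPolynomial (Fin 1) (MvPolynomial (Fin 3) ℂ)) = C (eval p (Lf m q)) * X 0 ^ 3 := by
        rw [map_mul, map_C, map_pow, map_X]
      rw [h9, weightedHomogeneousComponent_of_mem
        ((mem_weightedHomogeneousSubmodule ℂ _ _ _).2 h6), if_pos rfl]
      have hy0 : y 0 ≠ 0 := by
        intro h
        apply hy
        funext j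
        fin_cases j
        exact h
      rw [Derivation.leibniz, pderiv_C, smul_zero, add_zero, Derivation.leibniz_pow,
        pderiv_X_self, smul_eq_mul, smul_eq_mul, mul_one, nsmul_eq_mul, map_mul, eval_C,
        map_mul, map_natCast, map_pow, eval_X]
      exact mul_ne_zero hpL (mul_ne_zero (by norm_num) (pow_ne_zero _ hy0))

theorem covS_nf1 (h3 : q 3 = 0) (h4 : q 4 = 0) (h7 : q 7 = 0) (h8 : q 8 = 0) (h10 : q 10 = 0)
    (h11 : q 11 = 0) (h12 : q 12 = 0) (h13 : q 13 = 0) (h14 : q 14 = 0)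
    (hm : m ≠ 0) (hn : QG.NoQ (F m q)) :
    CovS (F m q) (QG.Tr (F m q)) := by
  classical
  have hF := F_eq_Qd h3 h4 h7 h8 h10 h11 h12 h13 h14 (m := m)
  set R : Set (Fin 3 → ℂ) := {p | p 0 = 0 ∧ eval p (Qd m q) = 0 ∧
    eval p (pderiv 1 (Qd m q)) = 0 ∧ eval p (pderiv 2 (Qd m q)) = 0} with hR
  by_cases hfin : R.Finite
  · have c1 : CovS (F m q) (QG.Tr (F m q) ∩ R) :=
      CovS.finite (hfin.subset Set.inter_subset_right) Set.inter_subset_left
    have c2 : CovS (F m q) {p | p 0 = 0 ∧ eval p (Qd m q) = 0 ∧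
        (eval p (pderiv 1 (Qd m q)) ≠ 0 ∨ eval p (pderiv 2 (Qd m q)) ≠ 0)} := by
      refine CovS.one constr_smooth ?_
      rw [hF]
      exact goodS_smooth
    refine (c1.union c2).mono fun p hp => ?_
    obtain ⟨e0, e1⟩ := T3.quadric hm hp
    by_cases e2 : eval p (pderiv 1 (Qd m q)) = 0
    · by_cases e3 : eval p (pderiv 2 (Qd m q)) = 0
      · exact Or.inl ⟨hp, e0, e1, e2, e3⟩
      · exact Or.inr ⟨e0, e1, Or.inr e3⟩
    · exact Or.inr ⟨e0, e1, Or.inl e2⟩
  · obtain ⟨p, hp, p', hp', hne⟩ := (Set.not_finite.1 hfin).nontrivial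
    obtain ⟨hp0, hpQ, hp1, hp2⟩ := hp
    obtain ⟨hp0', -, hp1', hp2'⟩ := hp'
    rw [eval_Qd, hp0] at hpQ
    rw [eval_Qd1, hp0] at hp1
    rw [eval_Qd2, hp0] at hp2
    rw [eval_Qd1, hp0'] at hp1'
    rw [eval_Qd2, hp0'] at hp2'
    have hne' : p 1 ≠ p' 1 ∨ p 2 ≠ p' 2 := by
      by_contra hcon
      push Not at hcon
      apply hne
      funext i
      fin_cases i
      · exact hp0.trans hp0'.symm
      · exact hcon.1
      · exact hcon.2
    obtain ⟨hm1, hm2, hdet⟩ := tangent_two (m := m) (q := q) hne'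
      (by linear_combination hpQ) (by linear_combination hp1) (by linear_combination hp2)
      (by linear_combination hp1') (by linear_combination hp2')
    obtain ⟨a, b, ha, hab, hb⟩ : ∃ a b : ℂ, q 2 = a ^ 2 ∧ q 6 = 2 * a * b ∧ q 9 = b ^ 2 := by
      obtain ⟨a, ha⟩ := IsAlgClosed.exists_pow_nat_eq (q 2) (n := 2) (by norm_num)
      by_cases h : q 2 = 0
      · obtain ⟨b, hb⟩ := IsAlgClosed.exists_pow_nat_eq (q 9) (n := 2) (by norm_num)
        refine ⟨0, b, by rw [h]; ring, ?_, hb.symm⟩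
        rw [h] at hdet
        have : q 6 = 0 := by simpa using hdet
        rw [this]
        ring
      · have ha0 : a ≠ 0 := by
          rintro rfl
          apply h
          rw [← ha]
          norm_num
        refine ⟨a, q 6 / (2 * a), ha.symm, ?_, ?_⟩
        · field_simp
        · rw [← ha] at hdet
          field_simp
          linear_combination -hdet
    have hF2 : F m q = X 0 ^ 2 * ((C a * X 1 + C b * X 2) ^ 2 + X 0 * Lf m q) := by
      rw [hF]
      unfold Qd Lf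
      rw [hm1, hm2, ha, hab, hb]
      simp only [map_zero, map_mul, map_pow, map_ofNat]
      ring
    have hline : ∀ p, T3 (F m q) p → p 0 = 0 ∧ a * p 1 + b * p 2 = 0 ∧
        eval p (Lf m q) ≠ 0 := by
      intro p hp
      obtain ⟨e0, e1⟩ := T3.quadric hm hp
      rw [eval_Qd, e0, hm1, hm2, ha, hab, hb] at e1
      have e2 : (a * p 1 + b * p 2) ^ 2 = 0 := by linear_combination e1
      have e3 : a * p 1 + b * p 2 = 0 := by simpa using e2
      refine ⟨e0, e3, fun e4 => ?_⟩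
      refine noQ_false hn (p := p) ?_
      rw [hF2]
      exact quad_hom e0 e3 e4
    by_cases hab0 : a = 0 ∧ b = 0
    · refine (CovS.one (W := {p | p 0 = 0 ∧ eval p (Lf m q) ≠ 0}) constr_cube ?_).mono
        fun p hp => ?_
      · rw [hF2, hab0.1, hab0.2]
        have : (X 0 ^ 2 * ((C 0 * X 1 + C 0 * X 2) ^ 2 + X 0 * Lf m q) :
            MvPolynomial (Fin 3) ℂ) = X 0 ^ 2 * (X 0 * Lf m q) := by
          simp only [map_zero]
          ring
        rw [this]
        exact goodS_cube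
      · exact ⟨(hline p hp).1, (hline p hp).2.2⟩
    · have hab' : a ≠ 0 ∨ b ≠ 0 := by
        by_contra hcon
        push Not at hcon
        exact hab0 hcon
      have hL : ∀ t : ℂ, m 0 + (q 1 * b - q 5 * a) * t ≠ 0 := by
        intro t h
        refine noQ_false hn (p := ![0, t * b, - (t * a)]) ?_
        rw [hF2]
        refine quad_hom rfl ?_ ?_
        · show a * (t * b) + b * (- (t * a)) = 0
          ring
        · simp only [Lf, map_add, map_mul, eval_C, eval_X]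
          show m 0 + q 0 * 0 + q 1 * (t * b) + q 5 * (- (t * a)) = 0
          linear_combination h
      have hdet2 : q 1 * b = q 5 * a := by
        by_contra hne2
        have hne3 : q 1 * b - q 5 * a ≠ 0 := sub_ne_zero.2 hne2
        apply hL (- m 0 / (q 1 * b - q 5 * a))
        rw [mul_div_cancel₀ _ hne3]
        ring
      obtain ⟨c, hc1, hc2⟩ : ∃ c : ℂ, q 1 = c * a ∧ q 5 = c * b := by
        rcases hab' with h | h
        · refine ⟨q 1 / a, by field_simp, ?_⟩
          field_simp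
          linear_combination -hdet2
        · refine ⟨q 5 / b, ?_, by field_simp⟩
          field_simp
          linear_combination hdet2
      have hW : IsConstr {p : Fin 3 → ℂ | p 0 = 0 ∧ a * p 1 + b * p 2 = 0} := by
        have h := isConstr_setOf_and (isConstr_eq_zero (X 0 : MvPolynomial (Fin 3) ℂ))
          (isConstr_eq_zero (C a * X 1 + C b * X 2 : MvPolynomial (Fin 3) ℂ))
        simpa using h
      refine (CovS.one (W := {p | p 0 = 0 ∧ a * p 1 + b * p 2 = 0}) hW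
        (Or.inr (Or.inr ⟨![X 0, C a * X 1 + C b * X 2],
          X 0 ^ 2 * (X 1 ^ 2 + X 0 * (C (m 0) + C (q 0) * X 0 + C c * X 1)), ?_, ?_⟩))).mono
        fun p hp => ⟨(hline p hp).1, (hline p hp).2.1⟩
      · rw [hF2]
        unfold Lf
        rw [hc1, hc2]
        simp only [map_mul, map_pow, map_add, aeval_X, aeval_C, algebraMap_eq]
        show _ = (X 0 : MvPolynomial (Fin 3) ℂ) ^ 2 * ((C a * X 1 + C b * X 2) ^ 2 +
          X 0 * (C (m 0) + C (q 0) * X 0 + C c * (C a * X 1 + C b * X 2)))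
        ring
      · rintro p ⟨hp0, hp1⟩
        refine ⟨fun j => ?_, ?_⟩
        · fin_cases j
          · show eval p (X 0) = 0
            rw [eval_X, hp0]
          · show eval p (C a * X 1 + C b * X 2) = 0
            simpa using hp1
        · rw [Fintype.linearIndependent_iff]
          intro g hg j
          have e0 := congrFun hg 0
          have e1 := congrFun hg 1
          have e2 := congrFun hg 2
          simp [Fin.sum_univ_two, pderiv_X] at e0 e1 e2
          have hg1 : g 1 = 0 := by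
            rcases hab' with h | h
            · exact e1.resolve_right h
            · exact e2.resolve_right h
          fin_cases j
          · exact e0
          · exact hg1

/-- **The covering**, three triple points on the last axis. -/
theorem covS_line (hm : m ≠ 0) (hf : F m q ≠ 0) (hn : QG.NoQ (F m q))
    {t : ℂ} (ht : t ≠ 0) (ht1 : t ≠ 1) (h1 : T3 (F m q) ![0, 0, 1])
    (h2 : T3 (F m q) ![0, 0, t]) : CovS (F m q) (QG.Tr (F m q)) := by
  obtain ⟨hm2, h9, h10, h11, h12, h13, h14⟩ := case_one ht ht1 h1 h2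
  by_cases hq : q 7 ≠ 0 ∨ q 8 ≠ 0
  · exact covS_of_bad hf (covS_gd hm hm2 h9 h10 h11 h12 h13 h14 hq)
  push Not at hq
  obtain ⟨h7, h8⟩ := hq
  by_cases hq : q 3 ≠ 0 ∨ q 4 ≠ 0
  · exact covS_of_bad hf (covS_nf2 hm2 h7 h8 h9 h10 h11 h12 h13 h14 hm hn hq)
  push Not at hq
  obtain ⟨h3, h4⟩ := hq
  exact covS_nf1 h3 h4 h7 h8 h10 h11 h12 h13 h14 hm hn

end

end SG3

end MPb07157
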