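import Pool.Agent.Lib.MP_b07157_agSG3.Cov

/-!
# Coverings of the triple points which survive suspension: coordinates, and the theorem
-/

noncomputable section

namespace MPb07157

open MvPolynomial QH

namespace SG3

variable {M : Matrix (Fin 3) (Fin 3) ℂ} {p₀ : Fin 3 → ℂ}

theorem goodS_ac (hM : M.det ≠ 0) {g : MvPolynomial (Fin 3) ℂ} {W : Set (Fin 3 → ℂ)}
    (h : GoodS g W) : GoodS (aeval (QG.ac M p₀) g) {x | M.mulVec (x - p₀) ∈ W} := by
  rcases h with ⟨m, w, N, h⟩ | ⟨y, rfl, h⟩ | ⟨u, h, hg, hW⟩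
  · exact Or.inl ⟨m, w, N, sqhAlong_ac hM h⟩
  · obtain ⟨x, rfl⟩ := exists_point hM p₀ y
    refine Or.inr (Or.inl ⟨x, ?_, (mem_Tr_ac hM p₀ g x).2 h⟩)
    ext z
    constructor
    · intro hz
      have hz' : M.mulVec (z - p₀) = M.mulVec (x - p₀) := hz
      have h3 := Matrix.mulVec_injective_of_isUnit
        ((Matrix.isUnit_iff_isUnit_det _).2 (isUnit_iff_ne_zero.2 hM)) hz'
      exact sub_left_inj.1 h3
    · intro hz
      rw [Set.mem_singleton_iff.1 hz]
      rfl
  · refine Or.inr (Or.inr ⟨fun j => aeval (QG.ac M p₀) (u j), h, ?_,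
      fun x hx => ⟨fun j => ?_, ?_⟩⟩)
    · rw [hg, ← AlgHom.comp_apply, comp_aeval]
    · rw [eval_aeval_ac]
      exact (hW _ hx).1 j
    · exact linInd_ac hM (hW _ hx).2

theorem covS_ac (hM : M.det ≠ 0) (p₀ : Fin 3 → ℂ)
    {g : MvPolynomial (Fin 3) ℂ} {S : Set (Fin 3 → ℂ)} (h : CovS g S) :
    CovS (aeval (QG.ac M p₀) g) {x | M.mulVec (x - p₀) ∈ S} := by
  obtain ⟨T, hT, hTW, hc⟩ := h
  refine ⟨(fun W => {x | M.mulVec (x - p₀) ∈ W}) '' T, hT.image _, ?_, fun p hp => ?_⟩
  · rintro _ ⟨W, hW, rfl⟩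
    obtain ⟨h1, h2⟩ := hTW W hW
    refine ⟨?_, goodS_ac hM h2⟩
    have h3 := h1.preimage (QG.ac M p₀)
    have h4 : (fun x : Fin 3 → ℂ => fun t => eval x (QG.ac M p₀ t)) ⁻¹' W =
        {x | M.mulVec (x - p₀) ∈ W} := by
      ext x
      show (fun t => eval x (QG.ac M p₀ t)) ∈ W ↔ _
      rw [show (fun t => eval x (QG.ac M p₀ t)) = M.mulVec (x - p₀) from
        _root_.funext fun t => eval_ac M p₀ x t]
      rfl
    show IsConstr {x | M.mulVec (x - p₀) ∈ W}
    rw [← h4]
    exact h3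
  · obtain ⟨W, hW, hpW⟩ := hc _ hp
    exact ⟨_, ⟨W, hW, rfl⟩, hpW⟩

variable {m : Fin 3 → ℂ} {q : Fin 15 → ℂ} {p : Fin 3 → ℂ}

/-- **The covering**, if there is a triple point with non-reduced tangent cone at the origin. -/
theorem covS_F (hm : m ≠ 0) (hf : F m q ≠ 0) (hd : (F m q).totalDegree ≤ 4)
    (hn : QG.NoQ (F m q)) : CovS (F m q) (QG.Tr (F m q)) := by
  classical
  by_cases hfin : (QG.Tr (F m q)).Finite
  · exact CovS.finite hfin subset_rfl
  by_cases hpair : ∃ e, T3 (F m q) e ∧ e ≠ 0 ∧ ∃ t : ℂ, t ≠ 0 ∧ t ≠ 1 ∧ T3 (F m q) (t • e)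
  · obtain ⟨e, he, he0, t, ht, ht1, hte⟩ := hpair
    obtain ⟨M, hM, hM0, hMe⟩ := exists_matrix he0 (he.x0 hm)
    set g := aeval (LC.subM M) (F m q) with hg
    have hac : F m q = aeval (QG.ac M⁻¹ 0) g := by
      have h := ac_subM hM 0 (F m q)
      rwa [QH.translate_zero] at h
    have hgd : g.totalDegree ≤ 4 := totalDegree_subM M hd
    have hg0 : g ≠ 0 := subM_ne_zero M hM hf
    have hgn : QG.NoQ g := by
      refine noQ_ac (inv_det hM) (p₀ := 0) ?_
      rw [← hac]
      exact hn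
    have hT1 : T3 g ![0, 0, 1] := by
      refine T3.subM M ?_
      rw [hMe, one_smul]
      exact he
    have hT2 : T3 g ![0, 0, t] := by
      refine T3.subM M ?_
      rw [hMe]
      exact hte
    have hlow : ∀ j < 3, homogeneousComponent j g = 0 := fun j hj => by
      rw [hg, homogeneousComponent_subM, comps_F.1 j hj, map_zero]
    have h3 : homogeneousComponent 3 g = X 0 ^ 2 * aeval (LC.subM M) (lin m) := by
      rw [hg, homogeneousComponent_subM, comps_F.2, map_mul, map_pow, aeval_X, hM0]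
    have hcov : CovS g (QG.Tr g) := by
      clear_value g
      obtain ⟨m', q', hm', rfl⟩ := exists_F hgd hlow (isHomogeneous_subM M lin_hom)
        (subM_ne_zero M hM (lin_ne_zero hm)) h3
      exact covS_line hm' hg0 hgn ht ht1 hT1 hT2
    have h4 := covS_ac (inv_det hM) 0 hcov
    rw [← hac] at h4
    refine h4.mono fun x hx => ?_
    rw [hac] at hx
    exact (mem_Tr_ac (inv_det hM) 0 g x).1 hx
  · push Not at hpair
    obtain ⟨h3, h4, h7, h8, h10, h11, h12, h13, h14⟩ := case_two hm hfin hpair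
    exact covS_nf1 h3 h4 h7 h8 h10 h11 h12 h13 h14 hm hn

/-- **The covering of the triple points of a quartic surface.** -/
theorem exists_coverS {g : MvPolynomial (Fin 3) ℂ} (hg : g ≠ 0) (hd : g.totalDegree ≤ 4)
    (hn : QG.NoQ g) : CovS g (QG.Tr g) := by
  classical
  by_cases hbad : ∃ p, p ∈ Bad g
  swap
  · exact covS_of_bad hg (CovS.finite (Set.finite_empty.subset fun p hp =>
      hbad ⟨p, hp⟩) bad_subset)
  obtain ⟨p, hp, hs⟩ := hbad
  have hlow := t3_iff.1 hp
  rcases LC.exists_square (homogeneousComponent_isHomogeneous 3 (translate p g)) hs with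
    h | ⟨l, k, hl1, hl0, hk, hlk⟩
  · exfalso
    refine noQ_false hn (p := p) (SE4.isHomogeneous_four
      ((D5.totalDegree_translate_le p g).trans hd) fun j hj => ?_)
    rcases Nat.lt_or_ge j 3 with h' | h'
    · exact hlow j h'
    · have : j = 3 := by omega
      rw [this, h]
  · have hk0 : k ≠ 0 := by
      rintro rfl
      rw [mul_zero] at hlk
      refine noQ_false hn (p := p) (SE4.isHomogeneous_four
        ((D5.totalDegree_translate_le p g).trans hd) fun j hj => ?_)
      rcases Nat.lt_or_ge j 3 with h' | h'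
      · exact hlow j h'
      · have : j = 3 := by omega
        rw [this, hlk]
    obtain ⟨M, hM, hMl⟩ := LC.exists_coordM hl1 hl0
    have hac := ac_subM hM p g
    set g' := aeval (LC.subM M) (translate p g) with hg'
    have hgd : g'.totalDegree ≤ 4 :=
      totalDegree_subM M ((D5.totalDegree_translate_le p g).trans hd)
    have hg0 : g' ≠ 0 := subM_ne_zero M hM (translate_ne_zero hg p)
    have hgn : QG.NoQ g' := by
      refine noQ_ac (inv_det hM) (p₀ := p) ?_
      rw [← hac]
      exact hn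
    have hlow' : ∀ j < 3, homogeneousComponent j g' = 0 := fun j hj => by
      rw [hg', homogeneousComponent_subM, hlow j hj, map_zero]
    have h3 : homogeneousComponent 3 g' = X 0 ^ 2 * aeval (LC.subM M) k := by
      rw [hg', homogeneousComponent_subM, hlk, map_mul, map_pow, hMl]
    have hcov : CovS g' (QG.Tr g') := by
      clear_value g'
      obtain ⟨m', q', hm', rfl⟩ := exists_F hgd hlow' (isHomogeneous_subM M hk)
        (subM_ne_zero M hM hk0) h3
      exact covS_F hm' hg0 hgd hgn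
    have h4 := covS_ac (inv_det hM) p hcov
    rw [← hac] at h4
    refine h4.mono fun x hx => ?_
    rw [hac] at hx
    exact (mem_Tr_ac (inv_det hM) p g' x).1 hx

end SG3

end MPb07157
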