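import Pool.Agent.Lib.MP_b07157_agSG3.NodeC

/-!
# Nodal cubic cones: the normal form modulo powers of the maximal ideal
-/

noncomputable section

namespace MPb07157

open MvPolynomial

namespace QV

open CR (cT)

theorem aeval_sub_mem' {p : Fin 3 → MvPolynomial (Fin 3) ℂ} {s : ℕ} (hs : 1 ≤ s)
    (hp : ∀ i, p i - X i ∈ mI ^ (s + 1))
    (k : ℕ) (F : MvPolynomial (Fin 3) ℂ) (hF : F ∈ mI ^ k) :
    aeval p F - F ∈ mI ^ (k + s) := by
  have hp2 : ∀ i, p i - X i ∈ mI ^ 2 := fun i =>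
    Ideal.pow_le_pow_right (by omega) (hp i)
  have h1 : ∀ F : MvPolynomial (Fin 3) ℂ, aeval p F - F ∈ mI ^ s := by
    intro F
    induction F using MvPolynomial.induction_on with
    | C a =>
      rw [algHom_C, algebraMap_eq, sub_self]
      exact zero_mem _
    | add f g hf hg =>
      rw [map_add, show aeval p f + aeval p g - (f + g) = (aeval p f - f) + (aeval p g - g) by ring]
      exact add_mem hf hg
    | mul_X f i hf =>
      rw [map_mul, aeval_X, show aeval p f * p i - f * X i =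
        (aeval p f - f) * p i + f * (p i - X i) by ring]
      exact add_mem (Ideal.mul_mem_right _ _ hf) (Ideal.mul_mem_left _ _
        (Ideal.pow_le_pow_right (by omega) (hp i)))
  have hp1 : ∀ i, p i ∈ mI := fun i => by
    have := (aeval_sub_mem hp2 1 (X i) (by rw [pow_one]; exact X_mem i)).2
    rwa [aeval_X, pow_one] at this
  have h2 : ∀ F ∈ (mI : Ideal (MvPolynomial (Fin 3) ℂ)), aeval p F - F ∈ mI ^ (s + 1) ∧
      aeval p F ∈ mI := by
    intro F hF
    refine Submodule.span_induction ?_ ?_ ?_ ?_ hF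
    · rintro _ ⟨i, rfl⟩
      rw [aeval_X]
      exact ⟨hp i, hp1 i⟩
    · rw [map_zero, sub_zero]
      exact ⟨zero_mem _, zero_mem _⟩
    · intro x y _ _ hx hy
      rw [map_add, show aeval p x + aeval p y - (x + y) = (aeval p x - x) + (aeval p y - y) by ring]
      exact ⟨add_mem hx.1 hy.1, add_mem hx.2 hy.2⟩
    · intro a x _ hx
      rw [smul_eq_mul, map_mul, show aeval p a * aeval p x - a * x =
        (aeval p a - a) * aeval p x + a * (aeval p x - x) by ring]
      refine ⟨add_mem ?_ (Ideal.mul_mem_left _ _ hx.1), Ideal.mul_mem_left _ _ hx.2⟩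
      rw [pow_succ]
      exact Ideal.mul_mem_mul (h1 a) hx.2
  induction k generalizing F with
  | zero => rw [zero_add]; exact h1 F
  | succ k ih =>
    rw [pow_succ] at hF
    refine Submodule.mul_induction_on hF (fun x hx y hy => ?_) fun x y hx hy => ?_
    · have h3 := ih x hx
      obtain ⟨h5, h6⟩ := h2 y hy
      rw [map_mul, show aeval p x * aeval p y - x * y =
        (aeval p x - x) * aeval p y + x * (aeval p y - y) by ring]
      refine add_mem ?_ ?_
      · rw [show k + 1 + s = (k + s) + 1 by ring, pow_succ]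
        exact Ideal.mul_mem_mul h3 h6
      · rw [show k + 1 + s = k + (s + 1) by ring, pow_add]
        exact Ideal.mul_mem_mul hx h5
    · rw [map_add, show aeval p x + aeval p y - (x + y) = (aeval p x - x) + (aeval p y - y) by ring]
      exact add_mem hx hy

/-- The decomposition of the elements of `𝔪^k`. -/
theorem exists_dec {k : ℕ} (hk : 4 ≤ k) {R : MvPolynomial (Fin 3) ℂ} (hR : R ∈ mI ^ k) :
    ∃ (α β γ μ ν : ℂ) (N1 N2 M3 R' : MvPolynomial (Fin 3) ℂ), N1 ∈ mI ^ (k - 3) ∧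
      N2 ∈ mI ^ (k - 3) ∧ M3 ∈ mI ^ (k - 2) ∧ R' ∈ mI ^ (k + 1) ∧
      R = C α * X 0 ^ k + C β * X 1 ^ k + C γ * X 2 ^ k + C μ * (X 1 * X 2 ^ (k - 1)) +
        C ν * (X 0 * X 2 ^ (k - 1)) + X 1 ^ 2 * X 2 * N1 + X 0 ^ 2 * X 2 * N2 +
        X 0 * X 1 * M3 + R' := by
  classical
  rw [R.as_sum]
  refine Finset.sum_induction _ (fun R : MvPolynomial (Fin 3) ℂ =>
    ∃ (α β γ μ ν : ℂ) (N1 N2 M3 R' : MvPolynomial (Fin 3) ℂ), N1 ∈ mI ^ (k - 3) ∧
      N2 ∈ mI ^ (k - 3) ∧ M3 ∈ mI ^ (k - 2) ∧ R' ∈ mI ^ (k + 1) ∧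
      R = C α * X 0 ^ k + C β * X 1 ^ k + C γ * X 2 ^ k + C μ * (X 1 * X 2 ^ (k - 1)) +
        C ν * (X 0 * X 2 ^ (k - 1)) + X 1 ^ 2 * X 2 * N1 + X 0 ^ 2 * X 2 * N2 +
        X 0 * X 1 * M3 + R') ?_ ?_ ?_
  · rintro R S ⟨α, β, γ, μ, ν, N1, N2, M3, R', h1, h2, h3, h4, rfl⟩
      ⟨α', β', γ', μ', ν', N1', N2', M3', R'', h1', h2', h3', h4', rfl⟩
    refine ⟨α + α', β + β', γ + γ', μ + μ', ν + ν', N1 + N1', N2 + N2', M3 + M3', R' + R'',
      add_mem h1 h1', add_mem h2 h2', add_mem h3 h3', add_mem h4 h4', ?_⟩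
    simp only [C_add]
    ring
  · refine ⟨0, 0, 0, 0, 0, 0, 0, 0, 0, zero_mem _, zero_mem _, zero_mem _, zero_mem _, ?_⟩
    simp
  · intro v hv
    have hvk := mem_mI.1 hR v hv
    have hmon : ∀ c : ℂ, monomial v c = C c * (X 0 ^ v 0 * X 1 ^ v 1 * X 2 ^ v 2) := by
      intro c
      rw [monomial_eq, Finsupp.prod_fintype _ _ (fun i => pow_zero _), Fin.prod_univ_three]
    have hmem : ∀ (a b d m : ℕ) (c : ℂ), m ≤ a + b + d →
        C c * (X 0 ^ a * X 1 ^ b * X 2 ^ d : MvPolynomial (Fin 3) ℂ) ∈ mI ^ m := by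
      intro a b d m c h
      refine Ideal.mul_mem_left _ _ (Ideal.pow_le_pow_right h ?_)
      rw [pow_add, pow_add]
      exact Ideal.mul_mem_mul (Ideal.mul_mem_mul (Ideal.pow_mem_pow (X_mem _) _)
        (Ideal.pow_mem_pow (X_mem _) _)) (Ideal.pow_mem_pow (X_mem _) _)
    set c := coeff v R with hc
    rw [hmon]
    by_cases h5 : k + 1 ≤ v 0 + v 1 + v 2
    · refine ⟨0, 0, 0, 0, 0, 0, 0, 0, _, zero_mem _, zero_mem _, zero_mem _, hmem _ _ _ _ c h5, ?_⟩
      simp
    have h6 : v 0 + v 1 + v 2 = k := by omega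
    rcases Nat.eq_zero_or_pos (v 0) with h0 | h0
    · rcases Nat.eq_zero_or_pos (v 1) with h1 | h1
      · refine ⟨0, 0, c, 0, 0, 0, 0, 0, 0, zero_mem _, zero_mem _, zero_mem _, zero_mem _, ?_⟩
        rw [h0, h1, show v 2 = k by omega]
        simp
      · rcases Nat.eq_zero_or_pos (v 2) with h2 | h2
        · refine ⟨0, c, 0, 0, 0, 0, 0, 0, 0, zero_mem _, zero_mem _, zero_mem _, zero_mem _, ?_⟩
          rw [h0, h2, show v 1 = k by omega]
          simp
        · rcases Nat.lt_or_ge (v 1) 2 with h3 | h3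
          · refine ⟨0, 0, 0, c, 0, 0, 0, 0, 0, zero_mem _, zero_mem _, zero_mem _, zero_mem _, ?_⟩
            rw [h0, show v 1 = 1 by omega, show v 2 = k - 1 by omega]
            simp
          · refine ⟨0, 0, 0, 0, 0, _, 0, 0, 0, hmem 0 (v 1 - 2) (v 2 - 1) _ c (by omega),
              zero_mem _, zero_mem _, zero_mem _, ?_⟩
            rw [h0]
            obtain ⟨b, hb⟩ : ∃ b, v 1 = b + 2 := ⟨v 1 - 2, by omega⟩
            obtain ⟨d, hd⟩ : ∃ d, v 2 = d + 1 := ⟨v 2 - 1, by omega⟩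
            rw [hb, hd]
            simp
            ring
    · rcases Nat.eq_zero_or_pos (v 1) with h1 | h1
      · rcases Nat.eq_zero_or_pos (v 2) with h2 | h2
        · refine ⟨c, 0, 0, 0, 0, 0, 0, 0, 0, zero_mem _, zero_mem _, zero_mem _, zero_mem _, ?_⟩
          rw [h1, h2, show v 0 = k by omega]
          simp
        · rcases Nat.lt_or_ge (v 0) 2 with h3 | h3
          · refine ⟨0, 0, 0, 0, c, 0, 0, 0, 0, zero_mem _, zero_mem _, zero_mem _, zero_mem _, ?_⟩
            rw [h1, show v 0 = 1 by omega, show v 2 = k - 1 by omega]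
            simp
          · refine ⟨0, 0, 0, 0, 0, 0, _, 0, 0, zero_mem _,
              hmem (v 0 - 2) 0 (v 2 - 1) _ c (by omega), zero_mem _, zero_mem _, ?_⟩
            rw [h1]
            obtain ⟨b, hb⟩ : ∃ b, v 0 = b + 2 := ⟨v 0 - 2, by omega⟩
            obtain ⟨d, hd⟩ : ∃ d, v 2 = d + 1 := ⟨v 2 - 1, by omega⟩
            rw [hb, hd]
            simp
            ring
      · refine ⟨0, 0, 0, 0, 0, 0, 0, _, 0, zero_mem _, zero_mem _,
          hmem (v 0 - 1) (v 1 - 1) (v 2) _ c (by omega), zero_mem _, ?_⟩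
        obtain ⟨b, hb⟩ : ∃ b, v 0 = b + 1 := ⟨v 0 - 1, by omega⟩
        obtain ⟨d, hd⟩ : ∃ d, v 1 = d + 1 := ⟨v 1 - 1, by omega⟩
        rw [hb, hd]
        simp
        ring

end QV

end MPb07157
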