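import Pool.Agent.Lib.MP_b07157_agSG3.IsoT1

/-!
# Nodal cubic cones: the normal form modulo powers of the maximal ideal, II
-/

noncomputable section

namespace MPb07157

open MvPolynomial

namespace QV

open CR (cT)

/-- The normal form of order `k`. -/
def NFT (a b : ℂ) (k : ℕ) (F : MvPolynomial (Fin 3) ℂ) : Prop :=
  ∃ (A B D : Polynomial ℂ) (R : MvPolynomial (Fin 3) ℂ), Polynomial.X ^ 4 ∣ A ∧
    Polynomial.X ^ 4 ∣ B ∧ Polynomial.X ^ 4 ∣ D ∧ R ∈ mI ^ k ∧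
    F = cT a b + Polynomial.aeval (X 0) A + Polynomial.aeval (X 1) B + Polynomial.aeval (X 2) D + R

theorem aevalX_mem {A : Polynomial ℂ} {m : ℕ} (hA : Polynomial.X ^ m ∣ A) (i : Fin 3) :
    Polynomial.aeval (X i : MvPolynomial (Fin 3) ℂ) A ∈ mI ^ m := by
  obtain ⟨B, rfl⟩ := hA
  rw [map_mul, map_pow, Polynomial.aeval_X]
  exact Ideal.mul_mem_right _ _ (Ideal.pow_mem_pow (X_mem i) m)

theorem nft_step' {a b : ℂ} {k : ℕ} (hk : 4 ≤ k) {A B D : Polynomial ℂ}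
    {R : MvPolynomial (Fin 3) ℂ} (hA : Polynomial.X ^ 4 ∣ A) (hB : Polynomial.X ^ 4 ∣ B)
    (hD : Polynomial.X ^ 4 ∣ D) (hR : R ∈ mI ^ k) :
    ∃ (p : Fin 3 → MvPolynomial (Fin 3) ℂ) (α β γ : ℂ) (R' : MvPolynomial (Fin 3) ℂ),
      (∀ i, p i - X i ∈ mI ^ (k - 2)) ∧ R' ∈ mI ^ (k + 1) ∧
      aeval p (cT a b + Polynomial.aeval (X 0) A + Polynomial.aeval (X 1) B +
        Polynomial.aeval (X 2) D + R) =
      cT a b + Polynomial.aeval (X 0) (A + Polynomial.C α * Polynomial.X ^ k) +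
      Polynomial.aeval (X 1) (B + Polynomial.C β * Polynomial.X ^ k) +
      Polynomial.aeval (X 2) (D + Polynomial.C γ * Polynomial.X ^ k) + R' := by
  obtain ⟨α, β, γ, μ, ν, N1, N2, M3, R', h1, h2, h3, h4, hdec⟩ := exists_dec hk hR
  obtain ⟨l, rfl⟩ : ∃ l, k = l + 4 := ⟨k - 4, by omega⟩
  have e3 : l + 4 - 3 = l + 1 := by omega
  have e2 : l + 4 - 2 = l + 2 := by omega
  have e1 : l + 4 - 1 = l + 3 := by omega
  rw [e3] at h1 h2
  rw [e2] at h3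
  rw [e1] at hdec
  have hX : ∀ (i : Fin 3) (m : ℕ), (X i ^ m : MvPolynomial (Fin 3) ℂ) ∈ mI ^ m := fun i m =>
    Ideal.pow_mem_pow (X_mem i) m
  have hXm : ∀ (i : Fin 3) (m : ℕ) (y : MvPolynomial (Fin 3) ℂ), y ∈ mI ^ m →
      X i * y ∈ mI ^ (m + 1) := by
    intro i m y hy
    rw [pow_succ, mul_comm (X i)]
    exact Ideal.mul_mem_mul hy (X_mem i)
  obtain ⟨P0, hP0⟩ : ∃ P, P = C μ * X 2 ^ (l + 2) + X 1 * N1 -
      C (3 * b * ν) * (X 1 * X 2 ^ (l + 1) : MvPolynomial (Fin 3) ℂ) := ⟨_, rfl⟩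
  obtain ⟨P1, hP1⟩ : ∃ P, P = C ν * X 2 ^ (l + 2) + X 0 * N2 -
      C (3 * a * μ) * (X 0 * X 2 ^ (l + 1) : MvPolynomial (Fin 3) ℂ) := ⟨_, rfl⟩
  obtain ⟨P2, hP2⟩ : ∃ P, P = M3 - C (3 * a) * (X 0 * (N1 - C (3 * b * ν) * X 2 ^ (l + 1))) -
      C (3 * b) * (X 1 * (N2 - C (3 * a * μ) * (X 2 ^ (l + 1) : MvPolynomial (Fin 3) ℂ))) :=
    ⟨_, rfl⟩
  have m0 : P0 ∈ mI ^ (l + 2) := by
    rw [hP0]
    exact sub_mem (add_mem (Ideal.mul_mem_left _ _ (hX 2 _)) (hXm _ _ _ h1))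
      (Ideal.mul_mem_left _ _ (hXm _ _ _ (hX 2 _)))
  have m1 : P1 ∈ mI ^ (l + 2) := by
    rw [hP1]
    exact sub_mem (add_mem (Ideal.mul_mem_left _ _ (hX 2 _)) (hXm _ _ _ h2))
      (Ideal.mul_mem_left _ _ (hXm _ _ _ (hX 2 _)))
  have m2 : P2 ∈ mI ^ (l + 2) := by
    rw [hP2]
    exact sub_mem (sub_mem h3 (Ideal.mul_mem_left _ _ (hXm _ _ _ (sub_mem h1
      (Ideal.mul_mem_left _ _ (hX 2 _)))))) (Ideal.mul_mem_left _ _ (hXm _ _ _ (sub_mem h2
      (Ideal.mul_mem_left _ _ (hX 2 _)))))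
  have hp : ∀ i, (![X 0 - P0, X 1 - P1, X 2 - P2] : Fin 3 → MvPolynomial (Fin 3) ℂ) i - X i ∈
      mI ^ (l + 1 + 1) := by
    intro i
    fin_cases i
    · show X 0 - P0 - X 0 ∈ mI ^ (l + 2)
      rw [show X 0 - P0 - X 0 = - P0 by ring]
      exact neg_mem m0
    · show X 1 - P1 - X 1 ∈ mI ^ (l + 2)
      rw [show X 1 - P1 - X 1 = - P1 by ring]
      exact neg_mem m1
    · show X 2 - P2 - X 2 ∈ mI ^ (l + 2)
      rw [show X 2 - P2 - X 2 = - P2 by ring]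
      exact neg_mem m2
  rw [e2]
  set p : Fin 3 → MvPolynomial (Fin 3) ℂ := ![X 0 - P0, X 1 - P1, X 2 - P2] with hpdef
  have hs := fun k F hF => aeval_sub_mem' (s := l + 1) (by omega) hp k F hF
  have hq : ∀ x y : MvPolynomial (Fin 3) ℂ, x ∈ mI ^ (l + 2) → y ∈ mI ^ (l + 2) → ∀ i,
      x * y * X i ∈ mI ^ (l + 4 + 1) := by
    intro x y hx hy i
    have h5 : x * y * X i ∈ mI ^ (l + 2 + (l + 2) + 1) := by
      rw [pow_succ, pow_add]
      exact Ideal.mul_mem_mul (Ideal.mul_mem_mul hx hy) (X_mem i)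
    exact Ideal.pow_le_pow_right (by omega) h5
  have hc : ∀ x y z : MvPolynomial (Fin 3) ℂ, x ∈ mI ^ (l + 2) → y ∈ mI ^ (l + 2) →
      z ∈ mI ^ (l + 2) → x * y * z ∈ mI ^ (l + 4 + 1) := by
    intro x y z hx hy hz
    have h5 : x * y * z ∈ mI ^ (l + 2 + (l + 2) + (l + 2)) := by
      rw [pow_add, pow_add]
      exact Ideal.mul_mem_mul (Ideal.mul_mem_mul hx hy) hz
    exact Ideal.pow_le_pow_right (by omega) h5
  have hk4 : ∀ F : MvPolynomial (Fin 3) ℂ, F ∈ mI ^ 4 → aeval p F - F ∈ mI ^ (l + 4 + 1) := by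
    intro F hF
    have := hs 4 F hF
    rwa [show 4 + (l + 1) = l + 4 + 1 by ring] at this
  have hkR : aeval p R - R ∈ mI ^ (l + 4 + 1) := by
    exact Ideal.pow_le_pow_right (by omega) (hs _ R hR)
  have hmain : aeval p (cT a b + Polynomial.aeval (X 0) A + Polynomial.aeval (X 1) B +
      Polynomial.aeval (X 2) D + R) =
      cT a b + Polynomial.aeval (X 0) (A + Polynomial.C α * Polynomial.X ^ (l + 4)) +
      Polynomial.aeval (X 1) (B + Polynomial.C β * Polynomial.X ^ (l + 4)) +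
      Polynomial.aeval (X 2) (D + Polynomial.C γ * Polynomial.X ^ (l + 4)) +
      (P0 * P1 * X 2 + P0 * P2 * X 1 + P1 * P2 * X 0 - P0 * P1 * P2 +
        C a * (C 3 * (P0 * P0 * X 0) - P0 * P0 * P0) +
        C b * (C 3 * (P1 * P1 * X 1) - P1 * P1 * P1) +
        (aeval p (Polynomial.aeval (X 0 : MvPolynomial (Fin 3) ℂ) A) - Polynomial.aeval (X 0) A) +
        (aeval p (Polynomial.aeval (X 1 : MvPolynomial (Fin 3) ℂ) B) - Polynomial.aeval (X 1) B) +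
        (aeval p (Polynomial.aeval (X 2 : MvPolynomial (Fin 3) ℂ) D) - Polynomial.aeval (X 2) D) +
        (aeval p R - R) + R') := by
    have hcT : aeval p (cT a b) = (X 0 - P0) * (X 1 - P1) * (X 2 - P2) + C a * (X 0 - P0) ^ 3 +
        C b * (X 1 - P1) ^ 3 := by
      unfold CR.cT
      simp only [map_add, map_mul, map_pow, aeval_X, algHom_C, algebraMap_eq]
      rfl
    rw [map_add, map_add, map_add, map_add, hcT]
    have hid : (X 1 * X 2 + C (3 * a) * X 0 ^ 2) * P0 + (X 0 * X 2 + C (3 * b) * X 1 ^ 2) * P1 +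
        X 0 * X 1 * P2 + C α * X 0 ^ (l + 4) + C β * X 1 ^ (l + 4) + C γ * X 2 ^ (l + 4) + R' =
        R := by
      rw [hdec, hP0, hP1, hP2]
      simp only [map_mul, pow_add, pow_one]
      ring
    have hpa : ∀ (i : Fin 3) (E : Polynomial ℂ) (c : ℂ),
        Polynomial.aeval (X i : MvPolynomial (Fin 3) ℂ) (E + Polynomial.C c *
          Polynomial.X ^ (l + 4)) = Polynomial.aeval (X i) E + C c * X i ^ (l + 4) := by
      intro i E c
      rw [map_add, map_mul, map_pow, Polynomial.aeval_X, Polynomial.aeval_C]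
      rfl
    rw [hpa, hpa, hpa]
    unfold CR.cT
    have hC3 : (C 3 : MvPolynomial (Fin 3) ℂ) = 3 := map_ofNat C 3
    simp only [map_mul, hC3] at hid ⊢
    linear_combination -hid
  refine ⟨p, α, β, γ, _, hp, ?_, hmain⟩
  exact add_mem (add_mem (add_mem (add_mem (add_mem (add_mem (add_mem (sub_mem (add_mem (add_mem
    (hq _ _ m0 m1 _) (hq _ _ m0 m2 _)) (hq _ _ m1 m2 _)) (hc _ _ _ m0 m1 m2))
    (Ideal.mul_mem_left _ _ (sub_mem (Ideal.mul_mem_left _ _ (hq _ _ m0 m0 _))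
      (hc _ _ _ m0 m0 m0))))
    (Ideal.mul_mem_left _ _ (sub_mem (Ideal.mul_mem_left _ _ (hq _ _ m1 m1 _))
      (hc _ _ _ m1 m1 m1)))) (hk4 _ (aevalX_mem hA 0))) (hk4 _ (aevalX_mem hB 1)))
    (hk4 _ (aevalX_mem hD 2))) hkR) h4

theorem nft_step {a b : ℂ} {k : ℕ} (hk : 4 ≤ k) {F : MvPolynomial (Fin 3) ℂ} (h : NFT a b k F) :
    ∃ p : Fin 3 → MvPolynomial (Fin 3) ℂ, (∀ i, p i - X i ∈ mI ^ 2) ∧
      NFT a b (k + 1) (aeval p F) := by
  obtain ⟨A, B, D, R, hA, hB, hD, hR, rfl⟩ := h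
  obtain ⟨p, α, β, γ, R', hp, hR', he⟩ := nft_step' (a := a) (b := b) hk hA hB hD hR
  refine ⟨p, fun i => Ideal.pow_le_pow_right (by omega) (hp i), ?_⟩
  rw [he]
  have hdv : ∀ (E : Polynomial ℂ) (c : ℂ), Polynomial.X ^ 4 ∣ E →
      Polynomial.X ^ 4 ∣ E + Polynomial.C c * Polynomial.X ^ k := by
    intro E c hE
    refine dvd_add hE (Dvd.dvd.mul_left ?_ _)
    exact pow_dvd_pow _ hk
  exact ⟨_, _, _, _, hdv A α hA, hdv B β hB, hdv D γ hD, hR', rfl⟩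

/-- **The normal form.** -/
theorem exists_nft {a b : ℂ} {R : MvPolynomial (Fin 3) ℂ} (hR : R ∈ mI ^ 4) {k : ℕ} (hk : 4 ≤ k) :
    ∃ p : Fin 3 → MvPolynomial (Fin 3) ℂ, (∀ i, p i - X i ∈ mI ^ 2) ∧
      NFT a b k (aeval p (cT a b + R)) := by
  induction k, hk using Nat.le_induction with
  | base =>
    refine ⟨X, fun i => by rw [sub_self]; exact zero_mem _, 0, 0, 0, R, dvd_zero _, dvd_zero _,
      dvd_zero _, hR, ?_⟩
    rw [aeval_X_left]
    simp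
  | succ k hk ih =>
    obtain ⟨p, hp, h⟩ := ih
    obtain ⟨p', hp', h'⟩ := nft_step hk h
    refine ⟨fun i => aeval p' (p i), fun i => ?_, ?_⟩
    · have h1 : aeval p' (p i) - X i = aeval p' (p i - X i) + (p' i - X i) := by
        rw [map_sub, aeval_X]
        ring
      rw [h1]
      exact add_mem (aeval_sub_mem hp' 2 _ (hp i)).2 (hp' i)
    · have h2 : aeval p' (aeval p (cT a b + R)) =
          aeval (fun i => aeval p' (p i)) (cT a b + R) := by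
        rw [← AlgHom.comp_apply, comp_aeval]
      rwa [← h2]

end QV

end MPb07157
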