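import Pool.Agent.Lib.MP_b07157_agSG3.CovAc
import Pool.Agent.Lib.MP_b07157_agSS.Main

/-!
# Suspensions of quartic surfaces, global version
-/

noncomputable section

namespace MPb07157

open MvPolynomial QH

namespace SG3

/-- The suspension of `h(u)` is trivial. -/
theorem trivAlong_sg {r : ℕ} {g : MvPolynomial (Fin 3) ℂ} {W : Set (Fin 3 → ℂ)} {e : Fin r → ℕ}
    (u : Fin 2 → MvPolynomial (Fin 3) ℂ) {h : MvPolynomial (Fin 2) ℂ} (hg : g = aeval u h)
    (hW : ∀ p ∈ W, (∀ j, eval p (u j) = 0) ∧
      LinearIndependent ℂ fun (j : Fin 2) (l : Fin 3) => eval p (pderiv l (u j))) :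
    TrivAlong (SS.sg g e) (SS.zs r W) (SS.sg h e) := by
  classical
  refine ⟨Fin.append (fun j => rename (Fin.castAdd r) (u j)) (fun i => X (Fin.natAdd 3 i)), 1, 1,
    1, fun x _ => ?_, ?_⟩
  · rw [map_one, one_mul, one_mul, SS.eval_sg, SS.eval_sg, hg, CC.ConeS.eval_aeval]
    simp only [div_one, eval_X, Fin.append_left, Fin.append_right, eval_rename]
    rfl
  · rintro p ⟨hp, hz⟩
    obtain ⟨e2, e3⟩ := hW _ hp
    have hev : ∀ f : MvPolynomial (Fin 3) ℂ, eval p (rename (Fin.castAdd r) f) =
        eval (fun i => p (Fin.castAdd r i)) f := fun f => by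
      rw [eval_rename]
      rfl
    refine ⟨by simp, by simp, by simp, fun j => ?_, ?_⟩
    · induction j using Fin.addCases with
      | left j => rw [Fin.append_left, hev]; exact e2 j
      | right i => rw [Fin.append_right, eval_X]; exact hz i
    · rw [Fintype.linearIndependent_iff]
      intro c hc
      have hc' : ∀ l, ∑ j, c j * eval p (pderiv l ((Fin.append
          (fun j => rename (Fin.castAdd r) (u j))
          (fun i => X (Fin.natAdd 3 i)) : Fin (2 + r) → MvPolynomial (Fin (3 + r)) ℂ) j)) = 0 := by
        intro l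
        have := congrFun hc l
        rw [Finset.sum_apply] at this
        exact this
      have hr : ∀ i, c (Fin.natAdd 2 i) = 0 := by
        intro i
        have h1 := hc' (Fin.natAdd 3 i)
        rw [Fin.sum_univ_add] at h1
        have h2 : ∀ j : Fin 2, c (Fin.castAdd r j) * eval p (pderiv (Fin.natAdd 3 i)
            ((Fin.append (fun j => rename (Fin.castAdd r) (u j)) (fun i => X (Fin.natAdd 3 i)) :
              Fin (2 + r) → MvPolynomial (Fin (3 + r)) ℂ) (Fin.castAdd r j))) = 0 := by
          intro j
          rw [Fin.append_left, SS.pderiv_natAdd_rename, map_zero, mul_zero]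
        rw [Finset.sum_eq_zero (fun j _ => h2 j), zero_add, Finset.sum_eq_single i] at h1
        · rwa [Fin.append_right, pderiv_X_self, map_one, mul_one] at h1
        · intro j _ hj
          rw [Fin.append_right, pderiv_X_of_ne, map_zero, mul_zero]
          intro h
          exact hj (Fin.natAdd_injective r 3 h)
        · intro h
          exact absurd (Finset.mem_univ i) h
      rw [Fintype.linearIndependent_iff] at e3
      have hl := e3 (fun j => c (Fin.castAdd r j)) (by
        funext l
        rw [Finset.sum_apply]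
        have h1 := hc' (Fin.castAdd r l)
        rw [Fin.sum_univ_add] at h1
        rw [Finset.sum_eq_zero (s := Finset.univ) (f := fun i : Fin r => c (Fin.natAdd 2 i) * _)
          (fun i _ => by rw [hr, zero_mul]), add_zero] at h1
        rw [Pi.zero_apply, ← h1]
        refine Finset.sum_congr rfl fun j _ => ?_
        rw [Fin.append_left, SS.pderiv_castAdd_rename, hev]
        rfl)
      intro j
      induction j using Fin.addCases with
      | left j => exact hl j
      | right i => exact hr i

end SG3

/-- **The strong monodromy conjecture, global version**, for `f = g(x, y, z) + ∑ u_i^{e_i}`,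
`e_i ≥ 1`, `g` of degree at most four without points of multiplicity four, if the local version is
known for the suspensions of the germs of `g` at its triple points. -/
theorem SmcGlob.of_suspQ {r : ℕ} {g : MvPolynomial (Fin 3) ℂ} {e : Fin r → ℕ}
    (he : ∀ i, 0 < e i) (hne : SS.sg g e ≠ 0) (hd : g.totalDegree ≤ 4) (hn : QG.NoQ g)
    (hS : ∀ p ∈ QG.Tr g, SmcLoc (SS.sg (translate p g) e)) :
    SmcGlob (SS.sg g e) := by
  by_cases hg : g = 0
  · exfalso
    obtain ⟨i, j, k, h⟩ := hn 0 ⟨by rw [hg, map_zero], fun i => by rw [hg, map_zero, map_zero],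
      fun i j => by rw [hg, map_zero, map_zero, map_zero]⟩
    apply h
    rw [hg, map_zero, map_zero, map_zero, map_zero]
  obtain ⟨T, hTf, hTW, hcov⟩ := SG3.exists_coverS hg hd hn
  refine SmcGlob.of_suspM (by norm_num) he hne (T := SS.zs r '' T) (hTf.image _)
    (fun he2 W' hW' => ?_) fun p hp hpc => ?_
  · obtain ⟨W, hW, rfl⟩ := hW'
    refine ⟨SS.isConstr_zs (hTW W hW).1, ?_⟩
    rcases (hTW W hW).2 with ⟨k, w, N, h⟩ | ⟨x, rfl, hx⟩ | ⟨u, h, hu, hW'⟩
    · exact MonoAlong.of_sqhAlong hne (SS.sqhAlong_susp h he2)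
    · rw [SS.zs_singleton]
      refine MonoAlong.of_point hne fun _ _ => ?_
      rw [SS.translate_sg]
      exact hS x hx
    · refine MonoAlong.of_trivAlong hne (SG3.trivAlong_sg u hu hW') fun h1 h2 => ?_
      refine SU.smcLoc_suspP h1 h2 (E := AlgEquiv.refl) (u := 1)
        (g := (h : MvPowerSeries (Fin 2) ℂ)) ?_ he2 ?_
      · rw [SS.coeff_zero_sg h he] at h2
        rw [← MvPowerSeries.coeff_zero_eq_constantCoeff_apply, MvPolynomial.coeff_coe, h2]
      · rw [Units.val_one, one_mul]
        exact SU.coe_susp _ e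
  · by_cases hH : YG.hessAt g p = 0
    · obtain ⟨W, hW, hpW⟩ := hcov p ⟨hp, hpc, fun i j => congrFun (congrFun hH i) j⟩
      refine Or.inl ⟨SS.zs r W, ⟨W, hW, rfl⟩, ?_, fun i => Fin.append_right _ _ i⟩
      have h1 : (fun i => (Fin.append p 0 : Fin (3 + r) → ℂ) (Fin.castAdd r i)) = p := by
        funext i
        exact Fin.append_left _ _ i
      rw [h1]
      exact hpW
    · right
      have := SE3.one_le_rank hH
      omega

end MPb07157
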