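import Pool.Agent.Lib.MP_b07157_agSG3.NodeS
import Pool.Agent.Lib.MP_b07157_agCR.K3
import Pool.Agent.Lib.MP_b07157_agLC.Mil
import Pool.Agent.Lib.MP_b07157_agLC.T
import Pool.Agent.Lib.MP_b07157_agQV.Susp3

/-!
# Germs of order three whose quartic part does not vanish at the singular points of the cone
-/

noncomputable section

namespace MPb07157

open MvPolynomial

namespace QV

open CR (cT cQ cS cU cV)

theorem eq_three_four (g : MvPolynomial (Fin 3) ℂ) (low : ∀ j < 3, homogeneousComponent j g = 0) :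
    ∃ R ∈ mI ^ 5, g = homogeneousComponent 3 g + homogeneousComponent 4 g + R := by
  classical
  refine ⟨g - homogeneousComponent 3 g - homogeneousComponent 4 g, ?_, by ring⟩
  rw [mem_pow_idealOfVars_iff']
  intro v hv
  rw [coeff_sub, coeff_sub, coeff_homogeneousComponent, coeff_homogeneousComponent]
  by_cases h3 : v.degree = 3
  · rw [if_pos h3, if_neg (by omega)]
    ring
  by_cases h4 : v.degree = 4
  · rw [if_neg h3, if_pos h4]
    ring
  · rw [if_neg h3, if_neg h4]
    have h5 := congrArg (coeff v) (low v.degree (by omega))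
    rw [coeff_homogeneousComponent, if_pos rfl, coeff_zero] at h5
    rw [h5]
    ring

theorem mulVec_toMatrix (e : (Fin 3 → ℂ) ≃ₗ[ℂ] (Fin 3 → ℂ)) :
    ∃ M : Matrix (Fin 3) (Fin 3) ℂ, M.det ≠ 0 ∧ ∀ w, M.mulVec w = e w := by
  refine ⟨LinearMap.toMatrix' (e : (Fin 3 → ℂ) →ₗ[ℂ] (Fin 3 → ℂ)), ?_, fun w => ?_⟩
  · intro h0
    obtain ⟨v, hv, hv0⟩ := Matrix.exists_mulVec_eq_zero_iff.2 h0
    rw [← Matrix.toLin'_apply, Matrix.toLin'_toMatrix'] at hv0
    exact hv (e.map_eq_zero_iff.1 hv0)
  · rw [← Matrix.toLin'_apply, Matrix.toLin'_toMatrix']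
    rfl

/-- A quartic form has a zero on the line `x = 0`. -/
theorem exists_zero_line {q : MvPolynomial (Fin 3) ℂ} (hq : q.IsHomogeneous 4) :
    ∃ x : Fin 3 → ℂ, x ≠ 0 ∧ x 0 = 0 ∧ eval x q = 0 := by
  obtain ⟨b0, b1, b2, b3, b4, a0, a1, a2, a3, e0, e1, e2, l0, l1, k, rfl⟩ := exists_qf hq
  by_cases h4 : b4 = 0
  · refine ⟨![0, 1, 0], fun h => one_ne_zero (congrFun h 1), rfl, ?_⟩
    simp [QU.qf, h4]
  · obtain ⟨y, hy⟩ := IsAlgClosed.exists_root (Polynomial.C b4 * Polynomial.X ^ 4 +
      Polynomial.C b3 * Polynomial.X ^ 3 + Polynomial.C b2 * Polynomial.X ^ 2 +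
      Polynomial.C b1 * Polynomial.X + Polynomial.C b0) (by
        have h1 : (Polynomial.C b4 * Polynomial.X ^ 4 +
          Polynomial.C b3 * Polynomial.X ^ 3 + Polynomial.C b2 * Polynomial.X ^ 2 +
          Polynomial.C b1 * Polynomial.X + Polynomial.C b0).degree = 4 := by
          compute_degree!
        rw [h1]
        decide)
    refine ⟨![0, y, 1], fun h => one_ne_zero (congrFun h 2), rfl, ?_⟩
    simp [Polynomial.IsRoot.def] at hy
    simp [QU.qf]
    linear_combination hy

/-- The change of coordinates. -/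
theorem exists_move {g c' : MvPolynomial (Fin 3) ℂ}
    (h : ∀ x : Fin 3 → ℂ, x ≠ 0 → (∃ i, eval x (pderiv i (homogeneousComponent 3 g)) ≠ 0) ∨
      eval x (homogeneousComponent 4 g) ≠ 0)
    (hc : CS.LinEq (homogeneousComponent 3 g) c') (low : ∀ j < 3, homogeneousComponent j g = 0) :
    ∃ q R : MvPolynomial (Fin 3) ℂ, CS.LinEq g (c' + q + R) ∧ q.IsHomogeneous 4 ∧ R ∈ mI ^ 5 ∧
      ∀ x : Fin 3 → ℂ, x ≠ 0 → (∃ i, eval x (pderiv i c') ≠ 0) ∨ eval x q ≠ 0 := by
  obtain ⟨e, he⟩ := hc
  obtain ⟨M, hM, hMe⟩ := mulVec_toMatrix e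
  have hc' : homogeneousComponent 3 (aeval (LC.subM M) g) = c' := by
    rw [LC.homogeneousComponent_subM]
    refine MvPolynomial.funext fun w => ?_
    rw [LC.eval_subM, hMe, he]
  have low' : ∀ j < 3, homogeneousComponent j (aeval (LC.subM M) g) = 0 := fun j hj => by
    rw [LC.homogeneousComponent_subM, low j hj, map_zero]
  obtain ⟨R, hR, hg⟩ := eq_three_four _ low'
  refine ⟨homogeneousComponent 4 (aeval (LC.subM M) g), R, ⟨e, fun w => ?_⟩,
    homogeneousComponent_isHomogeneous 4 _, hR, fun x hx => ?_⟩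
  · rw [hc'] at hg
    rw [← hg, LC.eval_subM, hMe]
  · have hex : M.mulVec x ≠ 0 := by
      rw [hMe]
      exact e.map_ne_zero_iff.2 hx
    rcases h _ hex with ⟨i, hi⟩ | h4
    · left
      by_contra hcon
      push Not at hcon
      apply hi
      have hder : aeval (LC.subM M) (pderiv i (homogeneousComponent 3 g)) =
          ∑ k, C (M⁻¹ k i) * pderiv k (aeval (LC.subM M) (homogeneousComponent 3 g)) := by
        have h1 : ∀ k l, pderiv k (LC.subM M l) = C (M l k) := by
          intro k l
          show pderiv k (∑ i, C (M l i) * X i) = _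
          rw [map_sum, Finset.sum_eq_single k]
          · rw [pderiv_C_mul, pderiv_X_self, mul_one]
          · intro j _ hj
            rw [pderiv_C_mul, pderiv_X_of_ne hj, mul_zero]
          · intro h
            exact absurd (Finset.mem_univ _) h
        have h2 : ∀ k, pderiv k (aeval (LC.subM M) (homogeneousComponent 3 g)) =
            ∑ l, aeval (LC.subM M) (pderiv l (homogeneousComponent 3 g)) * C (M l k) := by
          intro k
          rw [CC.ConeS.pderiv_aeval]
          exact Finset.sum_congr rfl fun l _ => by rw [h1]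
        have h3 : ∀ k, C (M⁻¹ k i) * pderiv k (aeval (LC.subM M) (homogeneousComponent 3 g)) =
            ∑ l, aeval (LC.subM M) (pderiv l (homogeneousComponent 3 g)) *
              C (M l k * M⁻¹ k i) := by
          intro k
          rw [h2, Finset.mul_sum]
          exact Finset.sum_congr rfl fun l _ => by rw [C_mul]; ring
        rw [Finset.sum_congr rfl fun k _ => h3 k, Finset.sum_comm]
        have h4 : ∀ l, ∑ k, aeval (LC.subM M) (pderiv l (homogeneousComponent 3 g)) *
            C (M l k * M⁻¹ k i) =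
            aeval (LC.subM M) (pderiv l (homogeneousComponent 3 g)) * C ((M * M⁻¹) l i) := by
          intro l
          rw [← Finset.mul_sum, ← map_sum, Matrix.mul_apply]
        rw [Finset.sum_congr rfl fun l _ => h4 l, Matrix.mul_nonsing_inv _ (isUnit_iff_ne_zero.2 hM),
          Finset.sum_eq_single i]
        · rw [Matrix.one_apply_eq, C_1, mul_one]
        · intro j _ hj
          rw [Matrix.one_apply_ne hj, C_0, mul_zero]
        · intro h
          exact absurd (Finset.mem_univ _) h
      rw [← LC.eval_subM, hder, ← LC.homogeneousComponent_subM, hc', map_sum]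
      exact Finset.sum_eq_zero fun k _ => by rw [map_mul, hcon k, mul_zero]
    · right
      rw [LC.homogeneousComponent_subM, LC.eval_subM]
      exact h4

/-- **Germs of order three whose quartic part does not vanish at the singular points of the tangent
cone.** -/
theorem suLoc_ord3 {g : MvPolynomial (Fin 3) ℂ} (low : ∀ j < 3, homogeneousComponent j g = 0)
    (h3 : homogeneousComponent 3 g ≠ 0)
    (h : ∀ x : Fin 3 → ℂ, x ≠ 0 → (∃ i, eval x (pderiv i (homogeneousComponent 3 g)) ≠ 0) ∨
      eval x (homogeneousComponent 4 g) ≠ 0) : SuLoc g := by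
  by_cases hs : ∀ p : Fin 3 → ℂ, p ≠ 0 → ∃ i, eval p (pderiv i (homogeneousComponent 3 g)) ≠ 0
  · exact suLoc_tc (by norm_num) low h3 hs
  push Not at hs
  obtain ⟨p, hp, hs⟩ := hs
  have n1 : (![1, 0, 0] : Fin 3 → ℂ) ≠ 0 := fun h => one_ne_zero (congrFun h 0)
  have n2 : (![0, 1, 0] : Fin 3 → ℂ) ≠ 0 := fun h => one_ne_zero (congrFun h 1)
  have n3 : (![0, 0, 1] : Fin 3 → ℂ) ≠ 0 := fun h => one_ne_zero (congrFun h 2)
  rcases CR.singular_cubic (homogeneousComponent_isHomogeneous 3 g) hp hs with
    ⟨a, b, hc⟩ | hc | hc | hc | hc | hc | hc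
  · obtain ⟨q, R, hl, hq, hR, h'⟩ := exists_move h hc low
    refine suLoc_of_linEq hl (suLoc_T hq hR ?_ ?_ ?_)
    · rcases h' _ n1 with ⟨i, hi⟩ | h'
      · left
        rintro rfl
        apply hi
        unfold CR.cT
        fin_cases i <;> simp [pderiv_X]
      · exact Or.inr h'
    · rcases h' _ n2 with ⟨i, hi⟩ | h'
      · left
        rintro rfl
        apply hi
        unfold CR.cT
        fin_cases i <;> simp [pderiv_X, Derivation.leibniz_pow]
      · exact Or.inr h'
    · rcases h' _ n3 with ⟨i, hi⟩ | h'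
      · exfalso
        apply hi
        unfold CR.cT
        fin_cases i <;> simp [pderiv_X, Derivation.leibniz_pow]
      · exact h'
  · obtain ⟨q, R, hl, hq, hR, h'⟩ := exists_move h hc low
    refine suLoc_of_linEq hl (suLoc_Q4 hq hR ?_)
    rcases h' _ n3 with ⟨i, hi⟩ | h'
    · exfalso
      apply hi
      unfold CR.cQ
      fin_cases i <;> simp [pderiv_X, Derivation.leibniz_pow]
    · exact h'
  · obtain ⟨q, R, hl, hq, hR, h'⟩ := exists_move h hc low
    refine suLoc_of_linEq hl (suLoc_S4 hq hR ?_)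
    rcases h' _ n3 with ⟨i, hi⟩ | h'
    · exfalso
      apply hi
      unfold CR.cS
      fin_cases i <;> simp [pderiv_X, Derivation.leibniz_pow]
    · exact h'
  · exfalso
    obtain ⟨q, R, hl, hq, hR, h'⟩ := exists_move h hc low
    obtain ⟨x, hx, hx0, hqx⟩ := exists_zero_line hq
    rcases h' x hx with ⟨i, hi⟩ | h'
    · apply hi
      unfold CR.cV
      fin_cases i <;> simp [pderiv_X, Derivation.leibniz_pow, hx0]
    · exact h' hqx
  · obtain ⟨q, R, hl, hq, hR, h'⟩ := exists_move h hc low
    refine suLoc_of_linEq hl (suLoc_U4 hq hR ?_)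
    rcases h' _ n3 with ⟨i, hi⟩ | h'
    · exfalso
      apply hi
      unfold CR.cU
      fin_cases i <;> simp [pderiv_X, Derivation.leibniz_pow]
    · exact h'
  · exfalso
    obtain ⟨q, R, hl, hq, hR, h'⟩ := exists_move h hc low
    obtain ⟨x, hx, hx0, hqx⟩ := exists_zero_line hq
    rcases h' x hx with ⟨i, hi⟩ | h'
    · apply hi
      unfold CR.cU
      fin_cases i <;> simp [pderiv_X, Derivation.leibniz_pow, hx0]
    · exact h' hqx
  · exact absurd hc h3

end QV

end MPb07157
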