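import Pool.Agent.Lib.MP_b07157_agSG3.NodeT

/-!
# Germs of order three whose quartic part does not vanish at the singular points of the cone: changes
-/

noncomputable section

namespace MPb07157

open MvPolynomial

namespace QV

open QU
open CR (cT cQ cS cU)

theorem aeval_sub_mem {p : Fin 3 → MvPolynomial (Fin 3) ℂ} (hp : ∀ i, p i - X i ∈ mI ^ 2)
    (k : ℕ) (F : MvPolynomial (Fin 3) ℂ) (hF : F ∈ mI ^ k) :
    aeval p F - F ∈ mI ^ (k + 1) ∧ aeval p F ∈ mI ^ k := by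
  have h1 : ∀ F : MvPolynomial (Fin 3) ℂ, aeval p F - F ∈ mI ^ 1 := by
    intro F
    induction F using MvPolynomial.induction_on with
    | C a =>
      rw [algHom_C, algebraMap_eq, sub_self]
      exact zero_mem _
    | add f g hf hg =>
      rw [map_add, show aeval p f + aeval p g - (f + g) = (aeval p f - f) + (aeval p g - g) by ring]
      exact add_mem hf hg
    | mul_X f i hf =>
      rw [map_mul, aeval_X, show aeval p f * p i - f * X i =
        (aeval p f - f) * p i + f * (p i - X i) by ring]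
      exact add_mem (Ideal.mul_mem_right _ _ hf) (Ideal.mul_mem_left _ _
        (Ideal.pow_le_pow_right (by norm_num) (hp i)))
  have hp1 : ∀ i, p i ∈ mI := by
    intro i
    have h2 : p i = (p i - X i) + X i := by ring
    rw [h2]
    exact add_mem (by
      have := Ideal.pow_le_pow_right (show 1 ≤ 2 by norm_num) (hp i)
      rwa [pow_one] at this) (X_mem i)
  have h2 : ∀ F ∈ (mI : Ideal (MvPolynomial (Fin 3) ℂ)), aeval p F - F ∈ mI ^ 2 ∧
      aeval p F ∈ mI := by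
    intro F hF
    refine Submodule.span_induction ?_ ?_ ?_ ?_ hF
    · rintro _ ⟨i, rfl⟩
      rw [aeval_X]
      exact ⟨hp i, hp1 i⟩
    · rw [map_zero, sub_zero]
      exact ⟨zero_mem _, zero_mem _⟩
    · intro x y _ _ hx hy
      rw [map_add, show aeval p x + aeval p y - (x + y) = (aeval p x - x) + (aeval p y - y) by ring]
      exact ⟨add_mem hx.1 hy.1, add_mem hx.2 hy.2⟩
    · intro a x _ hx
      rw [smul_eq_mul, map_mul, show aeval p a * aeval p x - a * x =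
        (aeval p a - a) * aeval p x + a * (aeval p x - x) by ring]
      refine ⟨add_mem ?_ (Ideal.mul_mem_left _ _ hx.1), Ideal.mul_mem_left _ _ hx.2⟩
      rw [pow_two]
      exact Ideal.mul_mem_mul (by have := h1 a; rwa [pow_one] at this) hx.2
  induction k generalizing F with
  | zero => exact ⟨h1 F, by rw [pow_zero, Ideal.one_eq_top]; exact Submodule.mem_top⟩
  | succ k ih =>
    rw [pow_succ] at hF
    refine Submodule.mul_induction_on hF (fun x hx y hy => ?_) fun x y hx hy => ?_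
    · obtain ⟨h3, h4⟩ := ih x hx
      obtain ⟨h5, h6⟩ := h2 y hy
      refine ⟨?_, ?_⟩
      · rw [map_mul, show aeval p x * aeval p y - x * y =
          (aeval p x - x) * aeval p y + x * (aeval p y - y) by ring]
        refine add_mem ?_ ?_
        · rw [pow_succ]
          exact Ideal.mul_mem_mul h3 h6
        · rw [show k + 1 + 1 = k + 2 by ring, pow_add]
          exact Ideal.mul_mem_mul hx h5
      · rw [map_mul, pow_succ]
        exact Ideal.mul_mem_mul h4 h6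
    · rw [map_add, show aeval p x + aeval p y - (x + y) = (aeval p x - x) + (aeval p y - y) by ring]
      exact ⟨add_mem hx.1 hy.1, add_mem hx.2 hy.2⟩

theorem chg_of {p : Fin 3 → MvPolynomial (Fin 3) ℂ} (hp : ∀ i, p i - X i ∈ mI ^ 2) : Chg p := by
  classical
  have h0 : ∀ i v, v.degree < 2 → coeff v (p i) = coeff v (X i) := by
    intro i v hv
    have h1 := (mem_pow_idealOfVars_iff' 2 _).1 (hp i) v hv
    rwa [coeff_sub, sub_eq_zero] at h1
  refine ⟨fun i => ?_, ?_⟩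
  · rw [h0 i 0 (by simp), coeff_zero_X]
  · have h1 : (Matrix.of fun i j => coeff (Finsupp.single j 1) (p i)) = 1 := by
      ext i j
      rw [Matrix.of_apply, h0 i _ (by simp), coeff_X]
      by_cases hij : i = j
      · rw [hij, if_pos rfl, Matrix.one_apply_eq]
      · rw [Matrix.one_apply_ne hij, if_neg]
        intro h2
        exact hij (Finsupp.single_left_injective one_ne_zero h2)
    rw [h1, Matrix.det_one]
    exact one_ne_zero

/-- **Nodes.** -/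
theorem suLoc_T {a b : ℂ} {q R : MvPolynomial (Fin 3) ℂ} (hq : q.IsHomogeneous 4)
    (hR : R ∈ mI ^ 5) (ha : a ≠ 0 ∨ eval ![1, 0, 0] q ≠ 0) (hb : b ≠ 0 ∨ eval ![0, 1, 0] q ≠ 0)
    (hD : eval ![0, 0, 1] q ≠ 0) : SuLoc (cT a b + q + R) := by
  obtain ⟨b0, b1, b2, b3, b4, a0, a1, a2, a3, e0, e1, e2, l0, l1, k, rfl⟩ := exists_qf hq
  have ha' : a ≠ 0 ∨ k ≠ 0 := by simpa [qf] using ha
  have hb' : b ≠ 0 ∨ b4 ≠ 0 := by simpa [qf] using hb
  have hD' : b0 ≠ 0 := by simpa [qf] using hD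
  obtain ⟨P0, hP0⟩ : ∃ P, P = C b1 * X 2 ^ 2 + C (b2 - 3 * b * a0) * (X 1 * X 2) +
    C b3 * (X 1 ^ 2 : MvPolynomial (Fin 3) ℂ) := ⟨_, rfl⟩
  obtain ⟨P1, hP1⟩ : ∃ P, P = C a0 * X 2 ^ 2 + C (e0 - 3 * a * b1) * (X 0 * X 2) +
    C l0 * (X 0 ^ 2 : MvPolynomial (Fin 3) ℂ) := ⟨_, rfl⟩
  obtain ⟨P2, hP2⟩ : ∃ P, P = C a1 * X 2 ^ 2 + C a2 * (X 1 * X 2) + C a3 * X 1 ^ 2 +
    C e1 * (X 0 * X 2) + C e2 * (X 0 * X 1) + C l1 * X 0 ^ 2 -
    C (3 * a) * (X 0 * (C (b2 - 3 * b * a0) * X 2 + C b3 * X 1)) -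
    C (3 * b) * (X 1 * (C (e0 - 3 * a * b1) * X 2 + C l0 * (X 0 : MvPolynomial (Fin 3) ℂ))) :=
      ⟨_, rfl⟩
  have hX2 : ∀ i j : Fin 3, (X i * X j : MvPolynomial (Fin 3) ℂ) ∈ mI ^ 2 := fun i j => by
    rw [pow_two]
    exact Ideal.mul_mem_mul (X_mem i) (X_mem j)
  have hX2' : ∀ i : Fin 3, (X i ^ 2 : MvPolynomial (Fin 3) ℂ) ∈ mI ^ 2 := fun i =>
    Ideal.pow_mem_pow (X_mem i) 2
  have h0 : P0 ∈ mI ^ 2 := by
    rw [hP0]
    exact add_mem (add_mem (Ideal.mul_mem_left _ _ (hX2' _)) (Ideal.mul_mem_left _ _ (hX2 _ _)))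
      (Ideal.mul_mem_left _ _ (hX2' _))
  have h1 : P1 ∈ mI ^ 2 := by
    rw [hP1]
    exact add_mem (add_mem (Ideal.mul_mem_left _ _ (hX2' _)) (Ideal.mul_mem_left _ _ (hX2 _ _)))
      (Ideal.mul_mem_left _ _ (hX2' _))
  have h2 : P2 ∈ mI ^ 2 := by
    rw [hP2]
    refine sub_mem (sub_mem (add_mem (add_mem (add_mem (add_mem (add_mem
      (Ideal.mul_mem_left _ _ (hX2' _)) (Ideal.mul_mem_left _ _ (hX2 _ _)))
      (Ideal.mul_mem_left _ _ (hX2' _))) (Ideal.mul_mem_left _ _ (hX2 _ _)))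
      (Ideal.mul_mem_left _ _ (hX2 _ _))) (Ideal.mul_mem_left _ _ (hX2' _)))
      (Ideal.mul_mem_left _ _ ?_)) (Ideal.mul_mem_left _ _ ?_)
    · rw [pow_two]
      exact Ideal.mul_mem_mul (X_mem _) (add_mem (Ideal.mul_mem_left _ _ (X_mem _))
        (Ideal.mul_mem_left _ _ (X_mem _)))
    · rw [pow_two]
      exact Ideal.mul_mem_mul (X_mem _) (add_mem (Ideal.mul_mem_left _ _ (X_mem _))
        (Ideal.mul_mem_left _ _ (X_mem _)))
  have hp : ∀ i, (![X 0 - P0, X 1 - P1, X 2 - P2] : Fin 3 → MvPolynomial (Fin 3) ℂ) i - X i ∈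
      mI ^ 2 := by
    intro i
    fin_cases i
    · show X 0 - P0 - X 0 ∈ mI ^ 2
      rw [show X 0 - P0 - X 0 = - P0 by ring]
      exact neg_mem h0
    · show X 1 - P1 - X 1 ∈ mI ^ 2
      rw [show X 1 - P1 - X 1 = - P1 by ring]
      exact neg_mem h1
    · show X 2 - P2 - X 2 ∈ mI ^ 2
      rw [show X 2 - P2 - X 2 = - P2 by ring]
      exact neg_mem h2
  refine SuLoc.of_aeval (chg_of hp) ?_
  set p : Fin 3 → MvPolynomial (Fin 3) ℂ := ![X 0 - P0, X 1 - P1, X 2 - P2] with hpdef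
  have hq4 : qf b0 b1 b2 b3 b4 a0 a1 a2 a3 e0 e1 e2 l0 l1 k ∈ mI ^ 4 := by
    rw [mem_mI]
    intro v hv
    have := hq (mem_support_iff.1 hv)
    rw [Finsupp.weight_apply] at this
    have h3 : (v.sum fun i c => c • (1 : Fin 3 → ℕ) i) = v 0 + v 1 + v 2 := by
      rw [Finsupp.sum_fintype _ _ (fun i => by simp), Fin.sum_univ_three]
      simp
    rw [h3] at this
    omega
  have hR5 := (aeval_sub_mem hp 5 R hR).2
  have hq5 := (aeval_sub_mem hp 4 _ hq4).1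
  have hk4 : ∀ x y : MvPolynomial (Fin 3) ℂ, x ∈ mI ^ 2 → y ∈ mI ^ 2 → ∀ i, x * y * X i ∈ mI ^ 5 := by
    intro x y hx hy i
    rw [show (5 : ℕ) = 2 + 2 + 1 by norm_num, pow_add, pow_add, pow_one]
    exact Ideal.mul_mem_mul (Ideal.mul_mem_mul hx hy) (X_mem i)
  have hk6 : ∀ x y z : MvPolynomial (Fin 3) ℂ, x ∈ mI ^ 2 → y ∈ mI ^ 2 → z ∈ mI ^ 2 →
      x * y * z ∈ mI ^ 5 := by
    intro x y z hx hy hz
    have h3 : x * y * z ∈ mI ^ 6 := by
      rw [show (6 : ℕ) = 2 + 2 + 2 by norm_num, pow_add, pow_add]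
      exact Ideal.mul_mem_mul (Ideal.mul_mem_mul hx hy) hz
    exact Ideal.pow_le_pow_right (by norm_num) h3
  have hmain : aeval p (cT a b + qf b0 b1 b2 b3 b4 a0 a1 a2 a3 e0 e1 e2 l0 l1 k + R) =
      X 0 * X 1 * X 2 + C a * X 0 ^ 3 + C b * X 1 ^ 3 + C k * X 0 ^ 4 + C b4 * X 1 ^ 4 +
      C b0 * X 2 ^ 4 + (P0 * P1 * X 2 + P0 * P2 * X 1 + P1 * P2 * X 0 - P0 * P1 * P2 +
        C a * (C 3 * (P0 * P0 * X 0) - P0 * P0 * P0) +
        C b * (C 3 * (P1 * P1 * X 1) - P1 * P1 * P1) +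
        (aeval p (qf b0 b1 b2 b3 b4 a0 a1 a2 a3 e0 e1 e2 l0 l1 k) -
          qf b0 b1 b2 b3 b4 a0 a1 a2 a3 e0 e1 e2 l0 l1 k) + aeval p R) := by
    have hc : aeval p (cT a b) = (X 0 - P0) * (X 1 - P1) * (X 2 - P2) + C a * (X 0 - P0) ^ 3 +
        C b * (X 1 - P1) ^ 3 := by
      unfold cT
      simp only [map_add, map_mul, map_pow, aeval_X, algHom_C, algebraMap_eq]
      rfl
    rw [map_add, map_add, hc]
    have hid : (X 1 * X 2 + C (3 * a) * X 0 ^ 2) * P0 + (X 0 * X 2 + C (3 * b) * X 1 ^ 2) * P1 +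
        X 0 * X 1 * P2 + C k * X 0 ^ 4 + C b4 * X 1 ^ 4 + C b0 * X 2 ^ 4 =
        qf b0 b1 b2 b3 b4 a0 a1 a2 a3 e0 e1 e2 l0 l1 k := by
      rw [hP0, hP1, hP2]
      unfold qf
      simp only [map_sub, map_mul]
      ring
    rw [← sub_eq_zero]
    have hC3 : (C 3 : MvPolynomial (Fin 3) ℂ) = 3 := map_ofNat C 3
    simp only [map_mul, hC3] at hid ⊢
    linear_combination -hid
  rw [hmain]
  refine suLoc_T0 ?_ ha' hb' hD'
  refine add_mem (add_mem (add_mem (add_mem (sub_mem (add_mem (add_mem (hk4 _ _ h0 h1 _)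
    (hk4 _ _ h0 h2 _)) (hk4 _ _ h1 h2 _)) (hk6 _ _ _ h0 h1 h2)) (Ideal.mul_mem_left _ _
    (sub_mem (Ideal.mul_mem_left _ _ (hk4 _ _ h0 h0 _)) (hk6 _ _ _ h0 h0 h0))))
    (Ideal.mul_mem_left _ _ (sub_mem (Ideal.mul_mem_left _ _ (hk4 _ _ h1 h1 _))
    (hk6 _ _ _ h1 h1 h1)))) hq5) hR5

end QV

end MPb07157
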