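import Pool.Agent.Lib.MP_b07157_agSG3.NodeC
import Pool.Agent.Lib.MP_b07157_agQV.Sq

/-!
# Germs of order three whose quartic part does not vanish at the singular points of the cone:
semi-quasi-homogeneous germs
-/

noncomputable section

namespace MPb07157

open MvPolynomial

namespace QV

open QU
open CR (cT cQ cS cU)

theorem initialPart_split {w : Fin 3 → ℕ} {m : ℕ} {f G S : MvPolynomial (Fin 3) ℂ}
    (hf : f = G + S) (hG : ∀ v ∈ G.support, ∑ j, w j * v j = m)
    (hS : ∀ v ∈ S.support, m < ∑ j, w j * v j) (hG0 : G ≠ 0) :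
    initialPart f w = G ∧ f ≠ 0 := by
  classical
  have hGS : ∀ v ∈ G.support, coeff v f = coeff v G := by
    intro v hv
    have h1 : v ∉ S.support := fun h => by
      have h2 := hS v h
      rw [hG v hv] at h2
      exact absurd h2 (lt_irrefl _)
    rw [hf, coeff_add, notMem_support_iff.1 h1, add_zero]
  obtain ⟨v0, hv0⟩ := support_nonempty.2 hG0
  have hv0f : v0 ∈ f.support := by
    rw [mem_support_iff, hGS v0 hv0]
    exact mem_support_iff.1 hv0
  refine ⟨?_, fun h0 => by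
    rw [h0, support_zero] at hv0f
    exact absurd hv0f (Finset.notMem_empty _)⟩
  rw [initialPart_eq_Pw w (m := m)]
  · ext v
    rw [coeff_Pw]
    by_cases h : ∑ j, w j * v j = m
    · rw [if_pos h]
      have h1 : v ∉ S.support := fun h' => by
        have h2 := hS v h'
        rw [h] at h2
        exact absurd h2 (lt_irrefl _)
      rw [hf, coeff_add, notMem_support_iff.1 h1, add_zero]
    · rw [if_neg h]
      by_contra h1
      exact h (hG v (mem_support_iff.2 (Ne.symm h1)))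
  · intro v hv
    rw [hf] at hv
    rcases Finset.mem_union.1 (support_add hv) with h | h
    · exact (hG v h).ge
    · exact (hS v h).le
  · exact ⟨v0, hv0f, hG v0 hv0⟩

/-- **Semi-quasi-homogeneous germs with a cubic cone.** -/
theorem suLoc_sq {w : Fin 3 → ℕ} {c q R : MvPolynomial (Fin 3) ℂ} (hw2 : 0 < w 2)
    (hw0 : w 2 < w 0) (hw1 : w 2 < w 1) (hc : c.IsWeightedHomogeneous w (4 * w 2))
    (hq : q.IsHomogeneous 4) (hR : R ∈ mI ^ 5)
    (hiso : ∀ p : Fin 3 → ℂ, p ≠ 0 → ∃ i, eval p (pderiv i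
      (c + C (eval ![0, 0, 1] q) * X 2 ^ 4)) ≠ 0) : SuLoc (c + q + R) := by
  classical
  obtain ⟨b0, b1, b2, b3, b4, a0, a1, a2, a3, e0, e1, e2, l0, l1, k, rfl⟩ := exists_qf hq
  have hb0 : eval ![0, 0, 1] (QU.qf b0 b1 b2 b3 b4 a0 a1 a2 a3 e0 e1 e2 l0 l1 k) = b0 := by
    simp [QU.qf]
  rw [hb0] at hiso
  have hwt : ∀ v : Fin 3 →₀ ℕ, ∑ j, w j * v j = w 0 * v 0 + w 1 * v 1 + w 2 * v 2 := fun v =>
    Fin.sum_univ_three _
  have hww : ∀ v : Fin 3 →₀ ℕ, Finsupp.weight w v = ∑ j, w j * v j := by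
    intro v
    rw [Finsupp.weight_apply, Finsupp.sum_fintype _ _ (fun i => by simp)]
    exact Finset.sum_congr rfl fun i _ => by rw [smul_eq_mul, mul_comm]
  obtain ⟨A, hA⟩ : ∃ A : MvPolynomial (Fin 3) ℂ, A = C a0 * X 2 ^ 3 + C a1 * (X 1 * X 2 ^ 2) +
    C a2 * (X 1 ^ 2 * X 2) + C a3 * X 1 ^ 3 + C e0 * (X 0 * X 2 ^ 2) +
    C e1 * (X 0 * (X 1 * X 2)) + C e2 * (X 0 * X 1 ^ 2) + C l0 * (X 0 ^ 2 * X 2) +
    C l1 * (X 0 ^ 2 * X 1) + C k * X 0 ^ 3 := ⟨_, rfl⟩
  obtain ⟨B, hB⟩ : ∃ B : MvPolynomial (Fin 3) ℂ, B = C b1 * X 2 ^ 3 + C b2 * (X 1 * X 2 ^ 2) +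
    C b3 * (X 1 ^ 2 * X 2) + C b4 * X 1 ^ 3 := ⟨_, rfl⟩
  have hqq : QU.qf b0 b1 b2 b3 b4 a0 a1 a2 a3 e0 e1 e2 l0 l1 k =
      C b0 * X 2 ^ 4 + (X 0 * A + X 1 * B) := by
    rw [hA, hB]
    unfold QU.qf
    ring
  have hAB : (X 0 * A + X 1 * B).IsHomogeneous 4 := by
    have h1 : X 0 * A + X 1 * B = QU.qf b0 b1 b2 b3 b4 a0 a1 a2 a3 e0 e1 e2 l0 l1 k -
        C b0 * X 2 ^ 4 := by
      rw [hqq]
      ring
    rw [h1]
    refine hq.sub ?_
    have h2 := (isHomogeneous_C (Fin 3) b0).mul ((isHomogeneous_X ℂ (2 : Fin 3)).pow 4)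
    simpa using h2
  have hsupA : ∀ v ∈ (X 0 * A + X 1 * B).support, v 0 + v 1 + v 2 = 4 ∧ 1 ≤ v 0 + v 1 := by
    intro v hv
    constructor
    · have := hAB (mem_support_iff.1 hv)
      rw [Finsupp.weight_apply] at this
      have h3 : (v.sum fun i c => c • (1 : Fin 3 → ℕ) i) = v 0 + v 1 + v 2 := by
        rw [Finsupp.sum_fintype _ _ (fun i => by simp), Fin.sum_univ_three]
        simp
      rwa [h3] at this
    · by_contra hcon
      have h0 : v 0 = 0 := by omega
      have h1 : v 1 = 0 := by omega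
      rw [mem_support_iff, coeff_add, coeff_X_mul', coeff_X_mul', if_neg, if_neg, add_zero] at hv
      · exact hv rfl
      · simp [h1]
      · simp [h0]
  have hf : c + QU.qf b0 b1 b2 b3 b4 a0 a1 a2 a3 e0 e1 e2 l0 l1 k + R =
      (c + C b0 * X 2 ^ 4) + ((X 0 * A + X 1 * B) + R) := by
    rw [hqq]
    ring
  have hG : ∀ v ∈ (c + C b0 * X 2 ^ 4).support, ∑ j, w j * v j = 4 * w 2 := by
    intro v hv
    rw [← hww]
    have h2 : (C b0 * X 2 ^ 4 : MvPolynomial (Fin 3) ℂ).IsWeightedHomogeneous w (4 * w 2) := by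
      have h3 := (isWeightedHomogeneous_C w b0).mul
        ((isWeightedHomogeneous_X ℂ w (2 : Fin 3)).pow 4)
      rwa [zero_add, smul_eq_mul] at h3
    exact (hc.add h2) (mem_support_iff.1 hv)
  have hS : ∀ v ∈ ((X 0 * A + X 1 * B) + R).support, 4 * w 2 < ∑ j, w j * v j := by
    intro v hv
    rw [hwt]
    rcases Finset.mem_union.1 (support_add hv) with h | h
    · obtain ⟨h1, h2⟩ := hsupA v h
      have h3 : (w 2 + 1) * v 0 ≤ w 0 * v 0 := Nat.mul_le_mul_right _ hw0
      have h4 : (w 2 + 1) * v 1 ≤ w 1 * v 1 := Nat.mul_le_mul_right _ hw1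
      have h5 : w 2 * (v 0 + v 1 + v 2) = 4 * w 2 := by rw [h1, mul_comm]
      nlinarith
    · have h1 := mem_mI.1 hR v h
      have h3 : w 2 * v 0 ≤ w 0 * v 0 := Nat.mul_le_mul_right _ hw0.le
      have h4 : w 2 * v 1 ≤ w 1 * v 1 := Nat.mul_le_mul_right _ hw1.le
      have h5 : w 2 * 5 ≤ w 2 * (v 0 + v 1 + v 2) := Nat.mul_le_mul_left _ h1
      nlinarith
  have hG0 : (c + C b0 * X 2 ^ 4) ≠ 0 := by
    intro h0
    obtain ⟨i, hi⟩ := hiso ![1, 0, 0] (fun h => one_ne_zero (congrFun h 0))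
    apply hi
    rw [h0, map_zero, map_zero]
  obtain ⟨h1, h2⟩ := initialPart_split hf hG hS hG0
  refine SuLoc.of_sqh (w := w) (fun i => ?_) ?_ h2 ?_
  · fin_cases i
    · exact hw2.trans hw0
    · exact hw2.trans hw1
    · exact hw2
  · rw [h1]
    exact hiso
  · by_contra h0
    rw [hf] at h0
    rcases Finset.mem_union.1 (support_add (mem_support_iff.2 h0)) with h | h
    · have := hG 0 h
      simp at this
      omega
    · have := hS 0 h
      simp at this

theorem suLoc_Q4 {q R : MvPolynomial (Fin 3) ℂ} (hq : q.IsHomogeneous 4) (hR : R ∈ mI ^ 5)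
    (hD : eval ![0, 0, 1] q ≠ 0) : SuLoc (cQ + q + R) := by
  refine suLoc_sq (w := ![9, 8, 6]) (by decide) (by decide) (by decide) ?_ hq hR ?_
  · have h1 := ((isWeightedHomogeneous_X ℂ ![9, 8, 6] (0 : Fin 3)).pow 2).mul
      (isWeightedHomogeneous_X ℂ ![9, 8, 6] (2 : Fin 3))
    have h2 := (isWeightedHomogeneous_X ℂ ![9, 8, 6] (1 : Fin 3)).pow 3
    exact h1.add h2
  · intro p hp
    by_contra hcon
    push Not at hcon
    have g0 := hcon 0
    have g1 := hcon 1
    have g2 := hcon 2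
    set D := eval ![0, 0, 1] q with hDdef
    unfold CR.cQ at g0 g1 g2
    simp [pderiv_X, Derivation.leibniz_pow] at g0 g1 g2
    have hy : p 1 = 0 := g1
    apply hp
    rcases g0 with h | h
    · rw [h] at g2
      have hx : p 0 = 0 := by
        simpa using g2
      funext i
      fin_cases i
      · exact hx
      · exact hy
      · exact h
    · rw [h] at g2
      have hz : p 2 = 0 := by
        simpa [hD] using g2
      funext i
      fin_cases i
      · exact h
      · exact hy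
      · exact hz

theorem suLoc_S4 {q R : MvPolynomial (Fin 3) ℂ} (hq : q.IsHomogeneous 4) (hR : R ∈ mI ^ 5)
    (hD : eval ![0, 0, 1] q ≠ 0) : SuLoc (cS + q + R) := by
  refine suLoc_sq (w := ![6, 5, 4]) (by decide) (by decide) (by decide) ?_ hq hR ?_
  · have h1 := ((isWeightedHomogeneous_X ℂ ![6, 5, 4] (0 : Fin 3)).pow 2).mul
      (isWeightedHomogeneous_X ℂ ![6, 5, 4] (2 : Fin 3))
    have h2 := (isWeightedHomogeneous_X ℂ ![6, 5, 4] (0 : Fin 3)).mul
      ((isWeightedHomogeneous_X ℂ ![6, 5, 4] (1 : Fin 3)).pow 2)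
    exact h1.add h2
  · intro p hp
    by_contra hcon
    push Not at hcon
    have g0 := hcon 0
    have g1 := hcon 1
    have g2 := hcon 2
    set D := eval ![0, 0, 1] q with hDdef
    unfold CR.cS at g0 g1 g2
    simp [pderiv_X, Derivation.leibniz_pow] at g0 g1 g2
    apply hp
    rcases g1 with h | h
    · rw [h] at g0 g2
      have hy : p 1 = 0 := by
        simpa using g0
      have hz : p 2 = 0 := by
        simpa [hD] using g2
      funext i
      fin_cases i
      · exact h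
      · exact hy
      · exact hz
    · rw [h] at g0
      have h1 : p 2 = 0 ∨ p 0 = 0 := by
        simpa using g0
      have h2 : p 2 = 0 ∧ p 0 = 0 := by
        rcases h1 with h1 | h1
        · rw [h1] at g2
          exact ⟨h1, by simpa using g2⟩
        · rw [h1] at g2
          exact ⟨by simpa [hD] using g2, h1⟩
      funext i
      fin_cases i
      · exact h2.2
      · exact h
      · exact h2.1

theorem suLoc_U4 {q R : MvPolynomial (Fin 3) ℂ} (hq : q.IsHomogeneous 4) (hR : R ∈ mI ^ 5)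
    (hD : eval ![0, 0, 1] q ≠ 0) : SuLoc (cU ![1, 0, 0, 1] + q + R) := by
  have hU : cU ![1, 0, 0, 1] = X 0 ^ 3 + X 1 ^ 3 := by
    unfold CR.cU
    simp
  rw [hU]
  refine suLoc_sq (w := ![4, 4, 3]) (by decide) (by decide) (by decide) ?_ hq hR ?_
  · have h1 := (isWeightedHomogeneous_X ℂ ![4, 4, 3] (0 : Fin 3)).pow 3
    have h2 := (isWeightedHomogeneous_X ℂ ![4, 4, 3] (1 : Fin 3)).pow 3
    exact h1.add h2
  · intro p hp
    by_contra hcon
    push Not at hcon
    have g0 := hcon 0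
    have g1 := hcon 1
    have g2 := hcon 2
    set D := eval ![0, 0, 1] q with hDdef
    simp [pderiv_X, Derivation.leibniz_pow, hD] at g0 g1 g2
    apply hp
    funext i
    fin_cases i
    · exact g0
    · exact g1
    · exact g2

end QV

end MPb07157
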