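import Pool.Agent.Lib.MP_b07157_agSG3.NdR
import Pool.Agent.Lib.MP_b07157_agQV.CQ
import Pool.Agent.Lib.MP_b07157_agCR.Defs

/-!
# Germs of order three whose quartic part does not vanish at the singular points of the cone: nodes
-/

noncomputable section

namespace MPb07157

open MvPolynomial

namespace QV

/-- The maximal ideal of the origin. -/
abbrev mI : Ideal (MvPolynomial (Fin 3) ℂ) := idealOfVars (Fin 3) ℂ

theorem X_mem (i : Fin 3) : (X i : MvPolynomial (Fin 3) ℂ) ∈ mI :=
  Ideal.subset_span ⟨i, rfl⟩

theorem mem_mI {k : ℕ} {R : MvPolynomial (Fin 3) ℂ} :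
    R ∈ mI ^ k ↔ ∀ v ∈ R.support, k ≤ v 0 + v 1 + v 2 := by
  rw [mem_pow_idealOfVars_iff]
  refine forall₂_congr fun v _ => ?_
  rw [Finsupp.degree_eq_sum, Fin.sum_univ_three]

theorem suLoc_T0 {a b A B D : ℂ} {R : MvPolynomial (Fin 3) ℂ} (hR : R ∈ mI ^ 5)
    (ha : a ≠ 0 ∨ A ≠ 0) (hb : b ≠ 0 ∨ B ≠ 0) (hD : D ≠ 0) :
    SuLoc (X 0 * X 1 * X 2 + C a * X 0 ^ 3 + C b * X 1 ^ 3 + C A * X 0 ^ 4 + C B * X 1 ^ 4 +
      C D * X 2 ^ 4 + R) := by
  refine (nd_famR ![![1, 1, 1], ![3, 0, 0], ![0, 3, 0], ![4, 0, 0], ![0, 4, 0], ![0, 0, 4]]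
    (by decide) ![1, a, b, A, B, D] (R := R) ?_ ⟨0, one_ne_zero⟩ (by decide) ?_ ?_).suLoc
  · congr 1
    simp [Fin.sum_univ_succ, Fin.prod_univ_three]
    ring
  · intro v hv w hw
    have h5 := mem_mI.1 hR v hv
    have w0 := hw 0
    have w1 := hw 1
    have w2 := hw 2
    have hs : ∑ i, w i * v i = w 0 * v 0 + w 1 * v 1 + w 2 * v 2 := Fin.sum_univ_three _
    rw [hs]
    have key : ∀ t : ℕ, t ≤ w 0 → t ≤ w 1 → t ≤ w 2 → t * 5 ≤ w 0 * v 0 + w 1 * v 1 + w 2 * v 2 := by
      intro t h0 h1 h2
      calc t * 5 ≤ t * (v 0 + v 1 + v 2) := Nat.mul_le_mul_left _ h5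
        _ = t * v 0 + t * v 1 + t * v 2 := by ring
        _ ≤ _ := Nat.add_le_add (Nat.add_le_add (Nat.mul_le_mul_right _ h0)
            (Nat.mul_le_mul_right _ h1)) (Nat.mul_le_mul_right _ h2)
    by_cases h2 : w 2 ≤ w 0 ∧ w 2 ≤ w 1
    · refine ⟨5, hD, ?_⟩
      have := key (w 2) h2.1 h2.2 le_rfl
      simp [Fin.sum_univ_three]
      omega
    by_cases h1 : w 1 ≤ w 0 ∧ w 1 ≤ w 2
    · have := key (w 1) h1.1 le_rfl h1.2
      rcases hb with hb | hb
      · refine ⟨2, hb, ?_⟩
        simp [Fin.sum_univ_three]
        omega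
      · refine ⟨4, hb, ?_⟩
        simp [Fin.sum_univ_three]
        omega
    · have := key (w 0) le_rfl (by omega) (by omega)
      rcases ha with ha | ha
      · refine ⟨1, ha, ?_⟩
        simp [Fin.sum_univ_three]
        omega
      · refine ⟨3, ha, ?_⟩
        simp [Fin.sum_univ_three]
        omega
  · intro w m u T hw hu hm hT hne hs
    have w0 := hw 0
    have w1 := hw 1
    have w2 := hw 2
    have m1 : a ≠ 0 → m ≤ w 0 * 3 := fun h => by
      have := hm 1 h
      simpa [Fin.sum_univ_three] using this
    have m2 : b ≠ 0 → m ≤ w 1 * 3 := fun h => by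
      have := hm 2 h
      simpa [Fin.sum_univ_three] using this
    have t0 : T 0 = 0 ∨ w 0 + w 1 + w 2 = m := by
      have := hT 0
      simp [Fin.sum_univ_three] at this
      by_cases h : w 0 + w 1 + w 2 = m
      · exact Or.inr h
      · rw [if_neg h] at this
        exact Or.inl this
    have t1 : T 1 = 0 ∨ (a ≠ 0 ∧ w 0 * 3 = m) := by
      have := hT 1
      simp [Fin.sum_univ_three] at this
      by_cases h : w 0 * 3 = m
      · by_cases h' : a = 0
        · left
          rw [this, if_pos h, h', zero_mul]
        · exact Or.inr ⟨h', h⟩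
      · rw [if_neg h] at this
        exact Or.inl this
    have t2 : T 2 = 0 ∨ (b ≠ 0 ∧ w 1 * 3 = m) := by
      have := hT 2
      simp [Fin.sum_univ_three] at this
      by_cases h : w 1 * 3 = m
      · by_cases h' : b = 0
        · left
          rw [this, if_pos h, h', zero_mul]
        · exact Or.inr ⟨h', h⟩
      · rw [if_neg h] at this
        exact Or.inl this
    have t3 : T 3 = 0 ∨ (w 0 * 4 = m) := by
      have := hT 3
      simp [Fin.sum_univ_three] at this
      by_cases h : w 0 * 4 = m
      · exact Or.inr h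
      · rw [if_neg h] at this
        exact Or.inl this
    have t4 : T 4 = 0 ∨ (w 1 * 4 = m) := by
      have := hT 4
      simp [Fin.sum_univ_three] at this
      by_cases h : w 1 * 4 = m
      · exact Or.inr h
      · rw [if_neg h] at this
        exact Or.inl this
    have t5 : T 5 = 0 ∨ (w 2 * 4 = m) := by
      have := hT 5
      simp [Fin.sum_univ_three] at this
      by_cases h : w 2 * 4 = m
      · exact Or.inr h
      · rw [if_neg h] at this
        exact Or.inl this
    have f0 : T 0 + 3 * T 1 + 4 * T 3 = 0 := by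
      simpa [Fin.sum_univ_succ, add_assoc] using hs 0
    have f1 : T 0 + 3 * T 2 + 4 * T 4 = 0 := by
      simpa [Fin.sum_univ_succ, add_assoc] using hs 1
    have f2 : T 0 + 4 * T 5 = 0 := by
      simpa [Fin.sum_univ_succ, add_assoc] using hs 2
    have e1 : T 1 = 0 ∨ T 3 = 0 := by
      rcases t1 with h | ⟨h, h'⟩
      · exact Or.inl h
      · rcases t3 with h3 | h3
        · exact Or.inr h3
        · exfalso
          omega
    have e2 : T 2 = 0 ∨ T 4 = 0 := by
      rcases t2 with h | ⟨h, h'⟩
      · exact Or.inl h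
      · rcases t4 with h3 | h3
        · exact Or.inr h3
        · exfalso
          omega
    have z0 : T 0 = 0 := by
      rcases t0 with h | h
      · exact h
      · exfalso
        have n0 : T 0 ≠ 0 := by
          intro h0
          rw [h0] at f0 f1 f2
          obtain ⟨k, hk⟩ := hne
          apply hk
          have z5 : T 5 = 0 := by linear_combination f2 / 4
          have z1 : T 1 = 0 ∧ T 3 = 0 := by
            rcases e1 with h | h
            · exact ⟨h, by rw [h] at f0; linear_combination f0 / 4⟩
            · exact ⟨by rw [h] at f0; linear_combination f0 / 3, h⟩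
          have z2 : T 2 = 0 ∧ T 4 = 0 := by
            rcases e2 with h | h
            · exact ⟨h, by rw [h] at f1; linear_combination f1 / 4⟩
            · exact ⟨by rw [h] at f1; linear_combination f1 / 3, h⟩
          fin_cases k
          · exact h0
          · exact z1.1
          · exact z2.1
          · exact z1.2
          · exact z2.2
          · exact z5
        have c5 : w 2 * 4 = m := by
          rcases t5 with h5 | h5
          · exfalso
            rw [h5, mul_zero, add_zero] at f2
            exact n0 f2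
          · exact h5
        have c1 : w 0 * 3 = m ∨ w 0 * 4 = m := by
          rcases t1 with h1 | ⟨_, h1⟩
          · rcases t3 with h3 | h3
            · exfalso
              rw [h1, h3, mul_zero, mul_zero, add_zero, add_zero] at f0
              exact n0 f0
            · exact Or.inr h3
          · exact Or.inl h1
        have c2 : w 1 * 3 = m ∨ w 1 * 4 = m := by
          rcases t2 with h1 | ⟨_, h1⟩
          · rcases t4 with h3 | h3
            · exfalso
              rw [h1, h3, mul_zero, mul_zero, add_zero, add_zero] at f1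
              exact n0 f1
            · exact Or.inr h3
          · exact Or.inl h1
        omega
    rw [z0] at f0 f1 f2
    obtain ⟨k, hk⟩ := hne
    apply hk
    have z5 : T 5 = 0 := by linear_combination f2 / 4
    have z1 : T 1 = 0 ∧ T 3 = 0 := by
      rcases e1 with h | h
      · exact ⟨h, by rw [h] at f0; linear_combination f0 / 4⟩
      · exact ⟨by rw [h] at f0; linear_combination f0 / 3, h⟩
    have z2 : T 2 = 0 ∧ T 4 = 0 := by
      rcases e2 with h | h
      · exact ⟨h, by rw [h] at f1; linear_combination f1 / 4⟩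
      · exact ⟨by rw [h] at f1; linear_combination f1 / 3, h⟩
    fin_cases k
    · exact z0
    · exact z1.1
    · exact z2.1
    · exact z1.2
    · exact z2.2
    · exact z5

end QV

end MPb07157
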