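import Pool.Agent.Lib.MP_b07157_agSG3.Susp

/-!
# Suspensions of semi-quasi-homogeneous strata, II
-/

noncomputable section

namespace MPb07157

open MvPolynomial

namespace SG3

variable {n k r : ℕ}

/-- The product of the exponents. -/
def pe (e : Fin r → ℕ) : ℕ := ∏ i, e i

/-- The product of the other exponents. -/
def pi' (e : Fin r → ℕ) (i : Fin r) : ℕ := ∏ l ∈ Finset.univ.erase i, e l

theorem mul_pi' (e : Fin r → ℕ) (i : Fin r) : e i * pi' e i = pe e :=
  Finset.mul_prod_erase _ _ (Finset.mem_univ i)

theorem pe_pos {e : Fin r → ℕ} (he : ∀ i, 2 ≤ e i) : 0 < pe e :=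
  Finset.prod_pos fun i _ => by have := he i; omega

theorem pi'_pos {e : Fin r → ℕ} (he : ∀ i, 2 ≤ e i) (i : Fin r) : 0 < pi' e i :=
  Finset.prod_pos fun i _ => by have := he i; omega

/-- The weights of the suspension. -/
def ws (w : Fin k → ℕ) (N : ℕ) (e : Fin r → ℕ) : Fin (k + r) → ℕ :=
  Fin.append (fun j => w j * pe e) (fun i => N * pi' e i)

theorem ws_castAdd (w : Fin k → ℕ) (N : ℕ) (e : Fin r → ℕ) (j : Fin k) :
    ws w N e (Fin.castAdd r j) = w j * pe e := by
  rw [ws, Fin.append_left]

theorem ws_natAdd (w : Fin k → ℕ) (N : ℕ) (e : Fin r → ℕ) (i : Fin r) :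
    ws w N e (Fin.natAdd k i) = N * pi' e i := by
  rw [ws, Fin.append_right]

theorem whc_rename {w : Fin k → ℕ} {N : ℕ} {e : Fin r → ℕ} (he : ∀ i, 2 ≤ e i)
    (H : MvPolynomial (Fin k) ℂ) :
    weightedHomogeneousComponent (ws w N e) (N * pe e) (rename (Fin.castAdd r) H) =
      rename (Fin.castAdd r) (weightedHomogeneousComponent w N H) := by
  induction H using MvPolynomial.induction_on' with
  | monomial v c =>
    have h1 : Finsupp.weight (ws w N e) (Finsupp.mapDomain (Fin.castAdd r) v) =
        Finsupp.weight w v * pe e := by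
      rw [Finsupp.weight_apply, Finsupp.weight_apply, Finsupp.sum_mapDomain_index_inj castAdd_inj,
        Finsupp.sum, Finsupp.sum, Finset.sum_mul]
      refine Finset.sum_congr rfl fun j _ => ?_
      rw [ws_castAdd, smul_eq_mul, smul_eq_mul, mul_assoc]
    rw [rename_monomial]
    rw [weightedHomogeneousComponent_of_mem ((mem_weightedHomogeneousSubmodule ℂ w _ _).2
      (isWeightedHomogeneous_monomial w v c rfl)),
      weightedHomogeneousComponent_of_mem ((mem_weightedHomogeneousSubmodule ℂ (ws w N e) _ _).2
      (isWeightedHomogeneous_monomial (ws w N e) _ c h1))]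
    by_cases h : N = Finsupp.weight w v
    · rw [if_pos h, if_pos (by rw [h]), rename_monomial]
    · rw [if_neg h, if_neg, map_zero]
      intro h2
      exact h (Nat.eq_of_mul_eq_mul_right (pe_pos he) h2)
  | add p q hp hq => rw [map_add, map_add, map_add, map_add, hp, hq]

/-- **The suspension of a semi-quasi-homogeneous stratum.** -/
theorem sqhAlong_susp {g : MvPolynomial (Fin n) ℂ} {W : Set (Fin n → ℂ)} {w : Fin k → ℕ} {N : ℕ}
    (h : SqhAlong g W w N) {e : Fin r → ℕ} (he : ∀ i, 2 ≤ e i) :
    SqhAlong (sus g e) (lft r W) (ws w N e) (N * pe e) := by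
  classical
  obtain ⟨hN, hw, a, u, G, hG, hs, hW⟩ := h
  let ρ : MvPolynomial (Fin n) ℂ →+* MvPolynomial (Fin (n + r)) ℂ :=
    (rename (Fin.castAdd r) : MvPolynomial (Fin n) ℂ →ₐ[ℂ] MvPolynomial (Fin (n + r)) ℂ).toRingHom
  have hρ : ∀ f, ρ f = rename (Fin.castAdd r) f := fun f => rfl
  refine ⟨Nat.mul_pos hN (pe_pos he), fun j => ?_, ρ a,
    Fin.append (fun j => ρ (u j)) (fun i => X (Fin.natAdd n i)),
    rename (Fin.castAdd r) (map ρ G) + ∑ i, C (ρ a) * X (Fin.natAdd k i) ^ e i, ?_, ?_, ?_⟩
  · induction j using Fin.addCases with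
    | left j =>
      rw [ws_castAdd]
      exact ⟨Nat.mul_pos (hw j).1 (pe_pos he), Nat.mul_lt_mul_of_pos_right (hw j).2 (pe_pos he)⟩
    | right i =>
      rw [ws_natAdd]
      refine ⟨Nat.mul_pos hN (pi'_pos he i), Nat.mul_lt_mul_of_pos_left ?_ hN⟩
      rw [← mul_pi' e i]
      have := he i
      have := pi'_pos he i
      nlinarith
  · rw [sus, mul_add, ← hρ, ← map_mul, hG, map_add, eval_rename]
    have h1 := eval₂_comp_left ρ (RingHom.id (MvPolynomial (Fin n) ℂ)) u G
    rw [RingHom.comp_id] at h1
    have h2 : (Fin.append (fun j => ρ (u j)) (fun i => X (Fin.natAdd n i)) :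
        Fin (k + r) → MvPolynomial (Fin (n + r)) ℂ) ∘ Fin.castAdd r = ρ ∘ u := by
      funext j
      show Fin.append _ _ (Fin.castAdd r j) = ρ (u j)
      rw [Fin.append_left]
    rw [h2, eval_map]
    have h3 : ρ (eval u G) = eval₂ ρ (ρ ∘ u) G := h1
    rw [h3, map_sum, Finset.mul_sum]
    congr 1
    refine Finset.sum_congr rfl fun i _ => ?_
    rw [map_mul, map_pow, eval_C, eval_X, Fin.append_right]
  · intro v hv
    rcases Finset.mem_union.1 (support_add hv) with hv | hv
    · rw [support_rename_of_injective castAdd_inj, Finset.mem_image] at hv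
      obtain ⟨v₀, hv₀, rfl⟩ := hv
      have h1 := hs v₀ (support_map_subset _ _ hv₀)
      rw [Fin.sum_univ_add]
      have h2 : ∀ j, Finsupp.mapDomain (Fin.castAdd r) v₀ (Fin.castAdd r j) = v₀ j := fun j =>
        Finsupp.mapDomain_apply castAdd_inj v₀ j
      have h3 : ∑ j, ws w N e (Fin.castAdd r j) *
          Finsupp.mapDomain (Fin.castAdd r) v₀ (Fin.castAdd r j) = (∑ j, w j * v₀ j) * pe e := by
        rw [Finset.sum_mul]
        refine Finset.sum_congr rfl fun j _ => ?_
        rw [ws_castAdd, h2]
        ring
      rw [h3]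
      exact le_trans (Nat.mul_le_mul_right _ h1) (Nat.le_add_right _ _)
    · obtain ⟨i, -, hi⟩ := Finset.mem_biUnion.1 (support_sum hv)
      rw [X_pow_eq_monomial, C_mul_monomial, mul_one] at hi
      have h1 := support_monomial_subset hi
      rw [Finset.mem_singleton] at h1
      rw [h1, Finset.sum_eq_single (Fin.natAdd k i)]
      · rw [ws_natAdd, Finsupp.single_eq_same, mul_assoc, mul_comm (pi' e i), mul_pi']
      · intro j _ hj
        rw [Finsupp.single_eq_of_ne hj, mul_zero]
      · intro h
        exact absurd (Finset.mem_univ _) h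
  · rintro p ⟨hp, hz⟩
    obtain ⟨e1, e2, e3, e4⟩ := hW _ hp
    have hev : ∀ f, eval p (ρ f) = eval (fst p) f := fun f => eval_rename_castAdd p f
    refine ⟨by rw [hev]; exact e1, fun j => ?_, ?_, fun y hy => ?_⟩
    · induction j using Fin.addCases with
      | left j => rw [Fin.append_left, hev]; exact e2 j
      | right i => rw [Fin.append_right, eval_X]; exact hz i
    · rw [Fintype.linearIndependent_iff]
      intro c hc
      have hc' : ∀ l, ∑ j, c j * eval p (pderiv l ((Fin.append (fun j => ρ (u j))
          (fun i => X (Fin.natAdd n i)) : Fin (k + r) → MvPolynomial (Fin (n + r)) ℂ) j)) = 0 := by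
        intro l
        have := congrFun hc l
        rw [Finset.sum_apply] at this
        exact this
      have hr : ∀ i, c (Fin.natAdd k i) = 0 := by
        intro i
        have h1 := hc' (Fin.natAdd n i)
        rw [Fin.sum_univ_add] at h1
        have h2 : ∀ j : Fin k, c (Fin.castAdd r j) * eval p (pderiv (Fin.natAdd n i)
            ((Fin.append (fun j => ρ (u j)) (fun i => X (Fin.natAdd n i)) :
              Fin (k + r) → MvPolynomial (Fin (n + r)) ℂ) (Fin.castAdd r j))) = 0 := by
          intro j
          rw [Fin.append_left, hρ, pderiv_natAdd_rename, map_zero, mul_zero]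
        rw [Finset.sum_eq_zero (fun j _ => h2 j), zero_add, Finset.sum_eq_single i] at h1
        · rwa [Fin.append_right, pderiv_X_self, map_one, mul_one] at h1
        · intro j _ hj
          rw [Fin.append_right, pderiv_X_of_ne, map_zero, mul_zero]
          intro h
          exact hj (Fin.natAdd_injective r n h)
        · intro h
          exact absurd (Finset.mem_univ i) h
      rw [Fintype.linearIndependent_iff] at e3
      have hl := e3 (fun j => c (Fin.castAdd r j)) (by
        funext l
        rw [Finset.sum_apply]
        have h1 := hc' (Fin.castAdd r l)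
        rw [Fin.sum_univ_add] at h1
        rw [Finset.sum_eq_zero (s := Finset.univ) (f := fun i : Fin r => c (Fin.natAdd k i) * _)
          (fun i _ => by rw [hr, zero_mul]), add_zero] at h1
        rw [Pi.zero_apply, ← h1]
        refine Finset.sum_congr rfl fun j _ => ?_
        rw [Fin.append_left, hρ, pderiv_castAdd_rename, eval_rename_castAdd]
        rfl)
      intro j
      induction j using Fin.addCases with
      | left j => exact hl j
      | right i => exact hr i
    · have hlead : weightedHomogeneousComponent (ws w N e) (N * pe e)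
          (map (eval p) (rename (Fin.castAdd r) (map ρ G) +
            ∑ i, C (ρ a) * X (Fin.natAdd k i) ^ e i)) =
          rename (Fin.castAdd r) (weightedHomogeneousComponent w N (map (eval (fst p)) G)) +
            ∑ i, C (eval (fst p) a) * X (Fin.natAdd k i) ^ e i := by
        rw [map_add, map_add, map_rename, map_map]
        have h5 : ((eval p).comp ρ) = eval (fst p) := RingHom.ext fun f => hev f
        rw [h5, whc_rename he, map_sum, map_sum]
        congr 1
        refine Finset.sum_congr rfl fun i _ => ?_
        rw [map_mul, map_C, map_pow, map_X, hev]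
        have h6 : IsWeightedHomogeneous (ws w N e) (C (eval (fst p) a) *
            X (Fin.natAdd k i) ^ e i : MvPolynomial (Fin (k + r)) ℂ) (N * pe e) := by
          have h7 := (isWeightedHomogeneous_C (ws w N e) (eval (fst p) a)).mul
            ((isWeightedHomogeneous_X ℂ (ws w N e) (Fin.natAdd k i)).pow (e i))
          have h8 : 0 + e i • ws w N e (Fin.natAdd k i) = N * pe e := by
            rw [ws_natAdd, zero_add, smul_eq_mul, ← mul_pi' e i]
            ring
          rwa [h8] at h7
        rw [weightedHomogeneousComponent_of_mem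
          ((mem_weightedHomogeneousSubmodule ℂ (ws w N e) _ _).2 h6), if_pos rfl]
      rw [hlead]
      by_cases hy0 : ∀ i, y (Fin.natAdd k i) = 0
      · have hfy : fst y ≠ 0 := by
          intro h0
          apply hy
          funext j
          induction j using Fin.addCases with
          | left j => exact congrFun h0 j
          | right i => exact hy0 i
        obtain ⟨j, hj⟩ := e4 _ hfy
        refine ⟨Fin.castAdd r j, ?_⟩
        rw [map_add, pderiv_castAdd_rename, map_add, eval_rename_castAdd, map_sum,
          Finset.sum_eq_zero, map_zero, add_zero]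
        · exact hj
        · intro i _
          rw [Derivation.leibniz, pderiv_C, smul_zero, add_zero, Derivation.leibniz_pow,
            pderiv_castAdd_X, smul_zero, smul_zero, smul_zero]
      · push Not at hy0
        obtain ⟨i, hi⟩ := hy0
        refine ⟨Fin.natAdd k i, ?_⟩
        rw [map_add, pderiv_natAdd_rename, zero_add, map_sum, Finset.sum_eq_single i]
        · rw [Derivation.leibniz, pderiv_C, smul_zero, add_zero, Derivation.leibniz_pow,
            pderiv_X_self, smul_eq_mul, smul_eq_mul, mul_one, nsmul_eq_mul, map_mul, eval_C,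
            map_mul, map_natCast, map_pow, eval_X]
          have := he i
          exact mul_ne_zero e1 (mul_ne_zero (by exact_mod_cast (show e i ≠ 0 by omega))
            (pow_ne_zero _ hi))
        · intro j _ hj
          rw [Derivation.leibniz, pderiv_C, smul_zero, add_zero, Derivation.leibniz_pow,
            pderiv_X_of_ne (fun h => hj (Fin.natAdd_injective r k h)), smul_zero, smul_zero,
            smul_zero]
        · intro h
          exact absurd (Finset.mem_univ i) h

end SG3

end MPb07157
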