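import Pool.Agent.Lib.MP_b07157_agSG3.Main
import Pool.Agent.Lib.MP_b07157_agSY.Main

/-!
# Sums of quartic polynomials in three variables and polynomials in one variable, global version
-/

noncomputable section

namespace MPb07157

open MvPolynomial QH

namespace SG3

/-- `h(u) + ∑ h_i(z_i)` is trivial along `u = 0`, `z = z⁰`. -/
theorem trivAlong_sh {r : ℕ} {g : MvPolynomial (Fin 3) ℂ} {W : Set (Fin 3 → ℂ)} {c : ℂ}
    (h : Fin r → Polynomial ℂ) (z : Fin r → ℂ)
    (u : Fin 2 → MvPolynomial (Fin 3) ℂ) {k : MvPolynomial (Fin 2) ℂ} (hg : g + C c = aeval u k)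
    (hW : ∀ p ∈ W, (∀ j, eval p (u j) = 0) ∧
      LinearIndependent ℂ fun (j : Fin 2) (l : Fin 3) => eval p (pderiv l (u j))) :
    TrivAlong (SS.sh g h) (SS.zt W z)
      (SS.sh (k + C (- c)) fun i => (h i).comp (Polynomial.X + Polynomial.C (z i))) := by
  classical
  refine ⟨Fin.append (fun j => rename (Fin.castAdd r) (u j))
    (fun i => X (Fin.natAdd 3 i) - C (z i)), 1, 1, 1, fun x _ => ?_, ?_⟩
  · have hg' : g = aeval u k - C c := by rw [← hg, add_sub_cancel_right]
    rw [map_one, one_mul, one_mul, SS.eval_sh, SS.eval_sh, hg', map_sub, CC.ConeS.eval_aeval,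
      map_add, eval_C, eval_C, ← sub_eq_add_neg]
    refine congrArg₂ _ (congrArg₂ _ ?_ rfl) (Finset.sum_congr rfl fun i _ => ?_)
    · simp only [div_one, Fin.append_left, eval_rename]
      rfl
    · simp only [div_one, Fin.append_right, map_sub, eval_X, eval_C, Polynomial.eval_comp,
        Polynomial.eval_add, Polynomial.eval_X, Polynomial.eval_C, sub_add_cancel]
  · rintro p ⟨hp, hz⟩
    obtain ⟨e2, e3⟩ := hW _ hp
    have hev : ∀ f : MvPolynomial (Fin 3) ℂ, eval p (rename (Fin.castAdd r) f) =
        eval (fun i => p (Fin.castAdd r i)) f := fun f => by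
      rw [eval_rename]
      rfl
    refine ⟨by simp, by simp, by simp, fun j => ?_, ?_⟩
    · induction j using Fin.addCases with
      | left j => rw [Fin.append_left, hev]; exact e2 j
      | right i => rw [Fin.append_right, map_sub, eval_X, eval_C, hz i, sub_self]
    · rw [Fintype.linearIndependent_iff]
      intro c hc
      have hc' : ∀ l, ∑ j, c j * eval p (pderiv l ((Fin.append
          (fun j => rename (Fin.castAdd r) (u j))
          (fun i => X (Fin.natAdd 3 i) - C (z i)) :
            Fin (2 + r) → MvPolynomial (Fin (3 + r)) ℂ) j)) = 0 := by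
        intro l
        have := congrFun hc l
        rw [Finset.sum_apply] at this
        exact this
      have hr : ∀ i, c (Fin.natAdd 2 i) = 0 := by
        intro i
        have h1 := hc' (Fin.natAdd 3 i)
        rw [Fin.sum_univ_add] at h1
        have h2 : ∀ j : Fin 2, c (Fin.castAdd r j) * eval p (pderiv (Fin.natAdd 3 i)
            ((Fin.append (fun j => rename (Fin.castAdd r) (u j))
              (fun i => X (Fin.natAdd 3 i) - C (z i)) :
              Fin (2 + r) → MvPolynomial (Fin (3 + r)) ℂ) (Fin.castAdd r j))) = 0 := by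
          intro j
          rw [Fin.append_left, SS.pderiv_natAdd_rename, map_zero, mul_zero]
        rw [Finset.sum_eq_zero (fun j _ => h2 j), zero_add, Finset.sum_eq_single i] at h1
        · rwa [Fin.append_right, map_sub, pderiv_C, sub_zero, pderiv_X_self, map_one,
            mul_one] at h1
        · intro j _ hj
          rw [Fin.append_right, map_sub, pderiv_C, sub_zero, pderiv_X_of_ne, map_zero, mul_zero]
          intro h
          exact hj (Fin.natAdd_injective r 3 h)
        · intro h
          exact absurd (Finset.mem_univ i) h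
      rw [Fintype.linearIndependent_iff] at e3
      have hl := e3 (fun j => c (Fin.castAdd r j)) (by
        funext l
        rw [Finset.sum_apply]
        have h1 := hc' (Fin.castAdd r l)
        rw [Fin.sum_univ_add] at h1
        rw [Finset.sum_eq_zero (s := Finset.univ) (f := fun i : Fin r => c (Fin.natAdd 2 i) * _)
          (fun i _ => by rw [hr, zero_mul]), add_zero] at h1
        rw [Pi.zero_apply, ← h1]
        refine Finset.sum_congr rfl fun j _ => ?_
        rw [Fin.append_left, SS.pderiv_castAdd_rename, hev]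
        rfl)
      intro j
      induction j using Fin.addCases with
      | left j => exact hl j
      | right i => exact hr i

theorem natDegree_comp_pos {h : Polynomial ℂ} (hh : 0 < h.natDegree) (z : ℂ) :
    0 < (h.comp (Polynomial.X + Polynomial.C z)).natDegree := by
  rw [Polynomial.natDegree_comp, Polynomial.natDegree_X_add_C, mul_one]
  exact hh

end SG3

open SS in
/-- **The strong monodromy conjecture, global version**, for `f = g(x, y, z) + ∑ h_i(u_i)`, `h_i`
nonconstant polynomials in one variable, if the triple points of the corresponding fibres of `g` are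
covered by strata which survive suspension and the local version is known for the suspensions of the
germs at these points. -/
theorem SmcGlob.of_sumCov {r : ℕ} {g : MvPolynomial (Fin 3) ℂ} {h : Fin r → Polynomial ℂ}
    (hh : ∀ i, 0 < (h i).natDegree) (hne : SS.sh g h ≠ 0)
    (hn : ∀ z : Fin r → ℂ, (∀ i, (Polynomial.derivative (h i)).eval (z i) = 0) →
      SG3.CovS (g + C (∑ i, (h i).eval (z i))) (QG.Tr (g + C (∑ i, (h i).eval (z i)))))
    (hS : ∀ z : Fin r → ℂ, (∀ i, (Polynomial.derivative (h i)).eval (z i) = 0) →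
      ∀ p ∈ QG.Tr (g + C (∑ i, (h i).eval (z i))), ∀ m : Fin r → ℕ, (∀ i, 2 ≤ m i) →
        SmcLoc (SS.sg (translate p (g + C (∑ i, (h i).eval (z i)))) m)) :
    SmcGlob (SS.sh g h) := by
  classical
  have key : ∀ z ∈ {z : Fin r → ℂ | ∀ i, (Polynomial.derivative (h i)).eval (z i) = 0},
      ∃ T₁ : Set (Set (Fin (3 + r) → ℂ)), T₁.Finite ∧
      (∀ W ∈ T₁, IsConstr W ∧ MonoAlong (sh g h) W) ∧
      ∀ p, eval p g + ∑ i, (h i).eval (z i) = 0 → (∀ i, eval p (pderiv i g) = 0) →
        YG.hessAt g p = 0 → ∃ W ∈ T₁, (Fin.append p z : Fin (3 + r) → ℂ) ∈ W := by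
    intro z hz
    choose m q hm hq he hm2 using fun i => exists_factor (hh i) (z i)
    have hm2' : ∀ i, 2 ≤ m i := fun i => hm2 i (hz i)
    have hsu := sh_eq_su g he
    obtain ⟨T₂, hT₂, hTW₂, hcov⟩ := hn z hz
    refine ⟨(fun W => zt W z) '' T₂, hT₂.image _, ?_, fun p h1 h2 h3 => ?_⟩
    · rintro _ ⟨W, hW, rfl⟩
      refine ⟨isConstr_zt (hTW₂ W hW).1 z, ?_⟩
      rcases (hTW₂ W hW).2 with ⟨k, w, N, hs⟩ | ⟨x, rfl, hx⟩ | ⟨u, k, hu, hW'⟩
      · rw [hsu]
        refine MonoAlong.of_sqhAlong (by rw [← hsu]; exact hne) (sqhAlong_sum hs hm2' ?_)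
        rintro x ⟨-, hx⟩ i
        rw [eval_aevalX, hx i]
        exact hq i
      · have hzt : (fun W => zt W z) {x} = {(Fin.append x z : Fin (3 + r) → ℂ)} :=
          zt_singleton x z
        rw [hzt]
        exact MonoAlong.of_point hne fun _ _ => smcLoc_sh hh hne hz fun m' hm' _ =>
          hS z hz x hx m' hm'
      · exact MonoAlong.of_trivAlong hne (SG3.trivAlong_sh h z u hu hW') fun h1 h2 =>
          SmcLoc.of_sumG le_rfl (fun i => SG3.natDegree_comp_pos (hh i) (z i)) h1 h2
            fun _ => by omega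
    · have h4 : p ∈ QG.Tr (g + C (∑ i, (h i).eval (z i))) :=
        ⟨by rw [map_add, eval_C, h1], fun i => by rw [pderiv_add_C, h2 i], fun i j => by
          rw [pderiv_add_C]; exact congrFun (congrFun h3 i) j⟩
      obtain ⟨W, hW, hpW⟩ := hcov p h4
      exact ⟨_, ⟨W, hW, rfl⟩, mem_zt hpW z⟩
  choose! T₁ hT₁f hT₁W hT₁c using key
  refine SmcGlob.of_sumM (by norm_num) hh hne (T := ⋃ z ∈ {z : Fin r → ℂ |
    ∀ i, (Polynomial.derivative (h i)).eval (z i) = 0}, T₁ z)
    ((finite_crit hh).biUnion fun z hz => hT₁f z hz) ?_ fun p z h1 h2 hz => ?_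
  · intro W hW
    obtain ⟨z, hz, hWz⟩ := Set.mem_iUnion₂.1 hW
    exact hT₁W z hz W hWz
  · by_cases hH : YG.hessAt g p = 0
    · left
      obtain ⟨W, hW, h3⟩ := hT₁c z hz p h1 h2 hH
      exact ⟨W, Set.mem_iUnion₂.2 ⟨z, hz, hW⟩, h3⟩
    · right
      have := SE3.one_le_rank hH
      omega

theorem SG3.ne_zero_of_noQ {g : MvPolynomial (Fin 3) ℂ} (hn : QG.NoQ g) : g ≠ 0 := by
  intro h0
  obtain ⟨i, j, k, h1⟩ := hn 0 ⟨by rw [h0, map_zero], fun i => by rw [h0, map_zero, map_zero],
    fun i j => by rw [h0, map_zero, map_zero, map_zero]⟩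
  apply h1
  rw [h0, map_zero, map_zero, map_zero, map_zero]

/-- **The strong monodromy conjecture, global version**, for `f = g(x, y, z) + ∑ h_i(u_i)`, `h_i`
nonconstant polynomials in one variable, `g` of degree at most four, if the corresponding fibres of
`g` have no points of multiplicity four and the local version is known for the suspensions of their
germs at the triple points. -/
theorem SmcGlob.of_sumQ {r : ℕ} {g : MvPolynomial (Fin 3) ℂ} {h : Fin r → Polynomial ℂ}
    (hh : ∀ i, 0 < (h i).natDegree) (hne : SS.sh g h ≠ 0) (hd : g.totalDegree ≤ 4)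
    (hn : ∀ z : Fin r → ℂ, (∀ i, (Polynomial.derivative (h i)).eval (z i) = 0) →
      QG.NoQ (g + C (∑ i, (h i).eval (z i))))
    (hS : ∀ z : Fin r → ℂ, (∀ i, (Polynomial.derivative (h i)).eval (z i) = 0) →
      ∀ p ∈ QG.Tr (g + C (∑ i, (h i).eval (z i))), ∀ m : Fin r → ℕ, (∀ i, 2 ≤ m i) →
        SmcLoc (SS.sg (translate p (g + C (∑ i, (h i).eval (z i)))) m)) :
    SmcGlob (SS.sh g h) :=
  SmcGlob.of_sumCov hh hne (fun z hz => SG3.exists_coverS (SG3.ne_zero_of_noQ (hn z hz))
    ((totalDegree_add _ _).trans (max_le hd (by rw [totalDegree_C]; omega))) (hn z hz)) hS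

end MPb07157
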