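import Pool.Agent.Lib.MP_b07157_agSG.ConeG

/-!
# Suspensions of semi-quasi-homogeneous strata
-/

noncomputable section

namespace MPb07157

open MvPolynomial

namespace SG3

variable {n k r : ℕ}

/-- The suspension `g + ∑ z_i^{e_i}`. -/
def sus (g : MvPolynomial (Fin n) ℂ) (e : Fin r → ℕ) : MvPolynomial (Fin (n + r)) ℂ :=
  rename (Fin.castAdd r) g + ∑ i, X (Fin.natAdd n i) ^ e i

/-- The first coordinates of a point. -/
def fst (p : Fin (n + r) → ℂ) : Fin n → ℂ := fun i => p (Fin.castAdd r i)

/-- The set in the subspace in which the new coordinates are zero. -/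
def lft (r : ℕ) (W : Set (Fin n → ℂ)) : Set (Fin (n + r) → ℂ) :=
  {p | fst p ∈ W ∧ ∀ i, p (Fin.natAdd n i) = 0}

theorem castAdd_inj : Function.Injective (Fin.castAdd r : Fin n → Fin (n + r)) :=
  Fin.castAdd_injective n r

theorem eval_rename_castAdd (p : Fin (n + r) → ℂ) (g : MvPolynomial (Fin n) ℂ) :
    eval p (rename (Fin.castAdd r) g) = eval (fst p) g := by
  rw [eval_rename]
  rfl

theorem eval_sus (p : Fin (n + r) → ℂ) (g : MvPolynomial (Fin n) ℂ) (e : Fin r → ℕ) :
    eval p (sus g e) = eval (fst p) g + ∑ i, p (Fin.natAdd n i) ^ e i := by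
  rw [sus, map_add, eval_rename_castAdd, map_sum]
  simp only [map_pow, eval_X]

theorem pderiv_natAdd_rename (i : Fin r) (g : MvPolynomial (Fin n) ℂ) :
    pderiv (Fin.natAdd n i) (rename (Fin.castAdd r) g) = 0 := by
  induction g using MvPolynomial.induction_on with
  | C a => rw [rename_C, pderiv_C]
  | add p q hp hq => rw [map_add, map_add, hp, hq, add_zero]
  | mul_X p j hp =>
    rw [map_mul, rename_X, Derivation.leibniz, hp, smul_zero, add_zero, pderiv_X_of_ne, smul_zero]
    intro h
    have := congrArg Fin.val h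
    simp only [Fin.val_castAdd, Fin.val_natAdd] at this
    omega

theorem pderiv_castAdd_rename (i : Fin n) (g : MvPolynomial (Fin n) ℂ) :
    pderiv (Fin.castAdd r i) (rename (Fin.castAdd r) g) =
      rename (Fin.castAdd r) (pderiv i g) :=
  pderiv_rename castAdd_inj i g

theorem pderiv_castAdd_X (i : Fin n) (j : Fin r) :
    pderiv (Fin.castAdd r i) (X (Fin.natAdd n j) : MvPolynomial (Fin (n + r)) ℂ) = 0 := by
  rw [pderiv_X_of_ne]
  intro h
  have := congrArg Fin.val h
  simp only [Fin.val_castAdd, Fin.val_natAdd] at this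
  omega

theorem pderiv_castAdd_sus (i : Fin n) (g : MvPolynomial (Fin n) ℂ) (e : Fin r → ℕ) :
    pderiv (Fin.castAdd r i) (sus g e) = rename (Fin.castAdd r) (pderiv i g) := by
  rw [sus, map_add, pderiv_castAdd_rename, map_sum, Finset.sum_eq_zero, add_zero]
  intro j _
  rw [Derivation.leibniz_pow, pderiv_castAdd_X, smul_zero, smul_zero]

theorem pderiv_natAdd_sus (i : Fin r) (g : MvPolynomial (Fin n) ℂ) (e : Fin r → ℕ) :
    pderiv (Fin.natAdd n i) (sus g e) = (e i : MvPolynomial (Fin (n + r)) ℂ) *
      X (Fin.natAdd n i) ^ (e i - 1) := by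
  rw [sus, map_add, pderiv_natAdd_rename, zero_add, map_sum, Finset.sum_eq_single i]
  · rw [Derivation.leibniz_pow, pderiv_X_self, smul_eq_mul, mul_one, nsmul_eq_mul]
  · intro j _ hj
    rw [Derivation.leibniz_pow, pderiv_X_of_ne, smul_zero, smul_zero]
    intro h
    apply hj
    exact (Fin.natAdd_injective r n h)
  · intro h
    exact absurd (Finset.mem_univ i) h

/-- The critical zeros of the suspension. -/
theorem crit_sus {g : MvPolynomial (Fin n) ℂ} {e : Fin r → ℕ} (he : ∀ i, 2 ≤ e i)
    {p : Fin (n + r) → ℂ} (h0 : eval p (sus g e) = 0)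
    (h1 : ∀ i, eval p (pderiv i (sus g e)) = 0) :
    eval (fst p) g = 0 ∧ (∀ i, eval (fst p) (pderiv i g) = 0) ∧
      ∀ i, p (Fin.natAdd n i) = 0 := by
  have hz : ∀ i, p (Fin.natAdd n i) = 0 := by
    intro i
    have h := h1 (Fin.natAdd n i)
    rw [pderiv_natAdd_sus, map_mul, map_natCast, map_pow, eval_X] at h
    have hne : (e i : ℂ) ≠ 0 := by
      have := he i
      exact_mod_cast (show e i ≠ 0 by omega)
    exact (pow_eq_zero_iff (by have := he i; omega)).1 ((mul_eq_zero.1 h).resolve_left hne)
  refine ⟨?_, fun i => ?_, hz⟩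
  · rw [eval_sus, Finset.sum_eq_zero, add_zero] at h0
    · exact h0
    · intro i _
      rw [hz, zero_pow (by have := he i; omega)]
  · have h := h1 (Fin.castAdd r i)
    rwa [pderiv_castAdd_sus, eval_rename_castAdd] at h

theorem isConstr_lft {W : Set (Fin n → ℂ)} (hW : IsConstr W) : IsConstr (lft r W) := by
  have h1 := hW.preimage (fun i : Fin n => (X (Fin.castAdd r i) :
    MvPolynomial (Fin (n + r)) ℂ))
  have h2 : ∀ s : Finset (Fin r), IsConstr {p : Fin (n + r) → ℂ | ∀ i ∈ s,
      p (Fin.natAdd n i) = 0} := by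
    intro s
    induction s using Finset.induction_on with
    | empty =>
      have : {p : Fin (n + r) → ℂ | ∀ i ∈ (∅ : Finset (Fin r)), p (Fin.natAdd n i) = 0} =
          Set.univ := by
        ext p
        simp
      rw [this]
      exact IsConstr.univ
    | insert a s _ ih =>
      have h3 := isConstr_setOf_and (isConstr_eq_zero (X (Fin.natAdd n a) :
        MvPolynomial (Fin (n + r)) ℂ)) ih
      convert h3 using 1
      ext p
      simp [Finset.mem_insert]
  have h3 := isConstr_setOf_and (P := fun p => fst p ∈ W) (by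
    convert h1 using 1
    ext p
    show _ ↔ (fun i => eval p (X (Fin.castAdd r i))) ∈ W
    simp only [eval_X]
    rfl) (h2 Finset.univ)
  convert h3 using 1
  ext p
  simp [lft]

end SG3

end MPb07157
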