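import Pool.Agent.Lib.MP_b07157_agSG3.Main
import Pool.Agent.Lib.MP_b07157_agQV.Susp3

/-!
# Suspensions of quartic surfaces, global version, II
-/

noncomputable section

namespace MPb07157

open MvPolynomial QH

/-- **The strong monodromy conjecture, global version**, for `f = g(x, y, z) + ∑ u_i^{e_i}`,
`e_i ≥ 1`, `g` of degree at most four without points of multiplicity four, whose tangent cones at the
points of multiplicity three are not reduced or have no singular point outside the vertex. -/
theorem SmcGlob.of_susp3 {r : ℕ} {g : MvPolynomial (Fin 3) ℂ} {e : Fin r → ℕ}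
    (he : ∀ i, 0 < e i) (hne : SS.sg g e ≠ 0) (hd : g.totalDegree ≤ 4)
    (h3 : ∀ p, (∀ j < 3, homogeneousComponent j (translate p g) = 0) →
      homogeneousComponent 3 (translate p g) ≠ 0 ∧
        (¬ Squarefree (homogeneousComponent 3 (translate p g)) ∨
          ∀ x : Fin 3 → ℂ, x ≠ 0 → ∃ i, eval x (pderiv i
            (homogeneousComponent 3 (translate p g))) ≠ 0)) : SmcGlob (SS.sg g e) := by
  refine SmcGlob.of_suspQ he hne hd (fun p hp => ?_) fun p hp => ?_
  · rw [third_iff]
    exact (h3 p (t3_iff.1 hp)).1
  · exact SmcLoc.of_susp3 ((D5.totalDegree_translate_le p g).trans hd)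
      (Or.inr (h3 p (t3_iff.1 hp))) he

end MPb07157
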