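import Pool.Agent.Lib.MP_b07157_agSG3.TriDef
import Pool.Agent.Lib.MP_b07157_agSG3.Node
import Pool.Agent.Lib.MP_b07157_agSG3.Sum3
import Pool.Agent.Lib.MP_b07157_agQV.Susp3U
import Pool.Agent.Lib.MP_b07157_agSY.Loc

/-!
# Sums of polynomials in three variables and polynomials in one variable
-/

noncomputable section

namespace MPb07157

open MvPolynomial

namespace SG3

theorem TriGerm.ne {g : MvPolynomial (Fin 3) ℂ} (h : TriGerm g) : homogeneousComponent 3 g ≠ 0 := by
  rcases h with h | h
  · exact h.2.1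
  · exact h.1

theorem suLoc_triGerm {g : MvPolynomial (Fin 3) ℂ} (low : ∀ j < 3, homogeneousComponent j g = 0)
    (h : TriGerm g) : QV.SuLoc g := by
  rcases h with ⟨hd, h⟩ | ⟨h3, h⟩
  · exact QV.suLoc_tri hd low h
  · exact QV.suLoc_ord3 low h3 h

theorem TriGerm.add_C {g : MvPolynomial (Fin 3) ℂ} (h : TriGerm g) (c : ℂ) : TriGerm (g + C c) := by
  rcases h with ⟨hd, h⟩ | ⟨h3, h⟩
  · refine Or.inl ⟨(totalDegree_add _ _).trans (max_le hd (by rw [totalDegree_C]; omega)), ?_⟩
    rw [homogeneousComponent_add_C _ _ (by norm_num)]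
    exact h
  · refine Or.inr ?_
    rw [homogeneousComponent_add_C _ _ (by norm_num), homogeneousComponent_add_C _ _ (by norm_num)]
    exact ⟨h3, h⟩

end SG3

open CV QV SG3

/-- **The strong monodromy conjecture, local version**, for `g(x, y, z) + ∑ u_i^{e_i}`, `e_i ≥ 1`,
where `g` has multiplicity at most two, or satisfies `TriGerm`. -/
theorem SmcLoc.of_suspTri {r : ℕ} {g : MvPolynomial (Fin 3) ℂ}
    (hm : (∃ j < 3, homogeneousComponent j g ≠ 0) ∨ TriGerm g)
    {e : Fin r → ℕ} (he : ∀ i, 0 < e i) : SmcLoc (SS.sg g e) := by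
  classical
  have hg : g ≠ 0 := by
    rintro rfl
    rcases hm with ⟨j, _, hj⟩ | h
    · exact hj (map_zero _)
    · exact TriGerm.ne h (map_zero _)
  by_cases h0 : coeff 0 g = 0
  swap
  · exact smcLoc_of_coeff_ne (by rw [SS.coeff_zero_sg g he]; exact h0)
  by_cases hl : (∃ i, coeff (Finsupp.single i 1) g ≠ 0) ∨ ∃ i, e i = 1
  · exact smcLoc_sg_smooth he h0 hl
  push Not at hl
  obtain ⟨hl1, hl2⟩ := hl
  have he2 : ∀ i, 2 ≤ e i := fun i => by
    have h1 := he i
    have h2 := hl2 i
    omega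
  have hcr : ∀ i, eval 0 (pderiv i g) = 0 := fun i => by rw [← coeff_single_eq_eval, hl1]
  by_cases hH : YG.hessAt g 0 = 0
  · have low : ∀ j < 3, homogeneousComponent j g = 0 := by
      intro j hj
      refine SE4.low_of_derivatives h0 (fun i => ?_) (fun i k => ?_) j hj
      · rw [coeff_zero_eq_eval, hcr]
      · rw [coeff_zero_eq_eval]
        exact congrFun (congrFun hH i) k
    rcases hm with ⟨j, hj, hj'⟩ | h3
    · exact absurd (low j hj) hj'
    · exact (suLoc_triGerm low h3).smcLoc_sg he2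
  · refine SS.smcLoc_susp (by omega) h0 hl1 ?_ he2 (sg_ne_zero he hg)
    have h2 := CK.hess_translate g 0
    rw [translate_zero'] at h2
    have h3 := SE3.one_le_rank hH
    rw [h2]
    omega

/-- **The strong monodromy conjecture, local version**, for `f = g(x, y, z) + ∑ h_i(u_i)`, `h_i`
nonconstant polynomials in one variable, where `g - g(0)` has multiplicity at most two, or satisfies
`TriGerm`. -/
theorem SmcLoc.of_sumTri {r : ℕ} {g : MvPolynomial (Fin 3) ℂ}
    (hm : homogeneousComponent 1 g ≠ 0 ∨ homogeneousComponent 2 g ≠ 0 ∨ TriGerm g)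
    {h : Fin r → Polynomial ℂ} (hh : ∀ i, 0 < (h i).natDegree) : SmcLoc (SS.sh g h) := by
  have hne : SS.sh g h ≠ 0 := by
    rcases hm with hm | hm | hm
    · exact SS.sh_ne_zero h (by norm_num) hm
    · exact SS.sh_ne_zero h (by norm_num) hm
    · exact SS.sh_ne_zero h (by norm_num) (TriGerm.ne hm)
  by_cases h0 : coeff 0 (SS.sh g h) = 0
  swap
  · exact smcLoc_of_coeff_ne h0
  refine SmcLoc.of_sumL hh hne h0 fun m hm2 _ _ => SmcLoc.of_suspTri ?_ fun i => by
    have := hm2 i
    omega
  rcases hm with hm | hm | hm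
  · exact Or.inl ⟨1, by norm_num, by
      rw [SS.homogeneousComponent_sub_C' _ _ (by norm_num)]; exact hm⟩
  · exact Or.inl ⟨2, by norm_num, by
      rw [SS.homogeneousComponent_sub_C' _ _ (by norm_num)]; exact hm⟩
  · refine Or.inr ?_
    rw [sub_eq_add_neg, ← C_neg]
    exact TriGerm.add_C hm _

theorem SG3.squarefree_of_quartic {c q : MvPolynomial (Fin 3) ℂ} (hc : c.IsHomogeneous 3)
    (hq : q.IsHomogeneous 4) (h0 : c ≠ 0)
    (h : ∀ x : Fin 3 → ℂ, x ≠ 0 → (∃ i, eval x (pderiv i c) ≠ 0) ∨ eval x q ≠ 0) :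
    Squarefree c := by
  by_contra hns
  rcases LC.exists_square hc hns with h1 | ⟨l, m, hl, hl0, -, rfl⟩
  · exact h0 h1
  · obtain ⟨M, hM, hMl⟩ := LC.exists_coordM hl hl0
    have hqM : (aeval (LC.subM M) q).IsHomogeneous 4 := by
      have h2 := hq.aeval (LC.subM M) (n := 1) (fun i => IsHomogeneous.sum _ _ _ fun j _ => by
        have := (isHomogeneous_C (Fin 3) (M i j)).mul (isHomogeneous_X ℂ j)
        simpa using this)
      simpa using h2
    obtain ⟨x, hx, hx0, hqx⟩ := exists_zero_line hqM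
    rw [LC.eval_subM] at hqx
    have hl' : eval (M.mulVec x) l = 0 := by
      rw [← LC.eval_subM, hMl, eval_X, hx0]
    have hMx : M.mulVec x ≠ 0 := by
      intro h3
      apply hM
      exact Matrix.exists_mulVec_eq_zero_iff.1 ⟨x, hx, h3⟩
    rcases h _ hMx with ⟨i, hi⟩ | h4
    · apply hi
      rw [Derivation.leibniz, Derivation.leibniz_pow]
      simp [hl']
    · exact h4 hqx

/-- **The strong monodromy conjecture, global version**, for `f = g(x, y, z) + ∑ h_i(u_i)`, `h_i`
nonconstant polynomials in one variable, such that, at the critical zeros `(p, z)` of `f`, `g - g(p)`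
has multiplicity at most two at `p` or satisfies `TriGerm`. -/
theorem SmcGlob.of_sumTri {r : ℕ} {g : MvPolynomial (Fin 3) ℂ} {h : Fin r → Polynomial ℂ}
    (hh : ∀ i, 0 < (h i).natDegree) (hne : SS.sh g h ≠ 0)
    (h3 : ∀ (p : Fin 3 → ℂ) (z : Fin r → ℂ), eval p g + ∑ i, (h i).eval (z i) = 0 →
      (∀ i, (Polynomial.derivative (h i)).eval (z i) = 0) →
      homogeneousComponent 1 (translate p g) = 0 → homogeneousComponent 2 (translate p g) = 0 →
      TriGerm (translate p g)) : SmcGlob (SS.sh g h) := by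
  have key : ∀ z : Fin r → ℂ, (∀ i, (Polynomial.derivative (h i)).eval (z i) = 0) →
      ∀ p ∈ QG.Tr (g + C (∑ i, (h i).eval (z i))),
        TriGerm (translate p (g + C (∑ i, (h i).eval (z i)))) := by
    intro z hz p hp
    have h1 := QH.t3_iff.1 hp
    rw [SG3.translate_add_C]
    refine TriGerm.add_C (h3 p z ?_ hz ?_ ?_) _
    · have h2 := hp.1
      rw [map_add, eval_C] at h2
      exact h2
    · rw [← SG3.homogeneousComponent_add_C _ (∑ i, (h i).eval (z i)) (by norm_num),
        ← SG3.translate_add_C]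
      exact h1 1 (by norm_num)
    · rw [← SG3.homogeneousComponent_add_C _ (∑ i, (h i).eval (z i)) (by norm_num),
        ← SG3.translate_add_C]
      exact h1 2 (by norm_num)
  have hnq : ∀ z : Fin r → ℂ, (∀ i, (Polynomial.derivative (h i)).eval (z i) = 0) →
      QG.NoQ (g + C (∑ i, (h i).eval (z i))) := by
    intro z hz p hp
    rw [QH.third_iff]
    exact TriGerm.ne (key z hz p hp)
  have hS : ∀ z : Fin r → ℂ, (∀ i, (Polynomial.derivative (h i)).eval (z i) = 0) →
      ∀ p ∈ QG.Tr (g + C (∑ i, (h i).eval (z i))), ∀ m : Fin r → ℕ, (∀ i, 2 ≤ m i) →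
        SmcLoc (SS.sg (translate p (g + C (∑ i, (h i).eval (z i)))) m) := fun z hz p hp m hm =>
    SmcLoc.of_suspTri (Or.inr (key z hz p hp)) fun i => by have := hm i; omega
  by_cases hd : g.totalDegree ≤ 4
  · exact SmcGlob.of_sumQ hh hne hd hnq hS
  · refine SmcGlob.of_sumCov hh hne (fun z hz => ?_) hS
    refine (SG3.covS_sqf (SG3.ne_zero_of_noQ (hnq z hz))).mono fun p hp => ⟨hp, ?_⟩
    rcases key z hz p hp with ⟨h4, -⟩ | ⟨h4, h5⟩
    · exfalso
      apply hd
      have h6 : g = translate (-p) (translate p (g + C (∑ i, (h i).eval (z i)))) -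
          C (∑ i, (h i).eval (z i)) := by
        refine MvPolynomial.funext fun x => ?_
        rw [map_sub, D5.eval_translate', D5.eval_translate', map_add, eval_C]
        have h7 : x + -p + p = x := by
          funext i
          simp
        rw [h7, eval_C, add_sub_cancel_right]
      rw [h6]
      exact (totalDegree_sub _ _).trans (max_le ((D5.totalDegree_translate_le _ _).trans h4)
        (by rw [totalDegree_C]; omega))
    · exact SG3.squarefree_of_quartic (homogeneousComponent_isHomogeneous 3 _)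
        (homogeneousComponent_isHomogeneous 4 _) h4 h5

end MPb07157
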