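import Pool.Agent.Lib.MP_b07157_agSG3.TriDef2
import Pool.Agent.Lib.MP_b07157_agSG3.Tri
import Pool.Agent.Lib.MP_b07157_agQV.TnG

/-!
# Sums of polynomials in three variables and polynomials in one variable, II
-/

noncomputable section

namespace MPb07157

open MvPolynomial

namespace SG3

theorem NodCond.ne {c : MvPolynomial (Fin 3) ℂ} (h : NodCond c) : c ≠ 0 := by
  rintro rfl
  obtain ⟨M, a, b, -, h⟩ := h
  have h1 := h ![1, 1, 1]
  have h2 := h ![0, 1, 0]
  have h3 := h ![1, 0, 0]
  simp at h1 h2 h3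
  rw [← h2, ← h3] at h1
  simp at h1

theorem NodCond.squarefree {c : MvPolynomial (Fin 3) ℂ} (hc : c.IsHomogeneous 3)
    (h : NodCond c) : Squarefree c := by
  by_contra hns
  rcases LC.exists_square hc hns with h0 | ⟨l, m, hl, hl0, hm, rfl⟩
  · exact NodCond.ne h h0
  obtain ⟨M, a, b, hM, h⟩ := h
  have hL : ∀ f : MvPolynomial (Fin 3) ℂ, f.IsHomogeneous 1 → ∃ c0 c1 c2 : ℂ,
      ∀ x y z : ℂ, eval (M.mulVec ![x, y, z]) f = c0 * x + c1 * y + c2 * z := by
    intro f hf
    refine ⟨coeff (Finsupp.single 0 1) (aeval (LC.subM M) f),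
      coeff (Finsupp.single 1 1) (aeval (LC.subM M) f),
      coeff (Finsupp.single 2 1) (aeval (LC.subM M) f), fun x y z => ?_⟩
    have h1 : (aeval (LC.subM M) f).IsHomogeneous 1 := QH.isHomogeneous_subM M hf
    rw [← LC.eval_subM, OR.eval_of_isHomogeneous_one h1, Fin.sum_univ_three]
    rfl
  obtain ⟨l0, l1, l2, hL1⟩ := hL l hl
  obtain ⟨m0, m1, m2, hM1⟩ := hL m hm
  have key : ∀ x y z : ℂ, (l0 * x + l1 * y + l2 * z) ^ 2 * (m0 * x + m1 * y + m2 * z) =
      x * y * z + a * x ^ 3 + b * y ^ 3 := by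
    intro x y z
    have h1 := h ![x, y, z]
    rw [map_mul, map_pow, hL1, hM1] at h1
    exact h1
  -- `z ^ 3` and `z ^ 2`
  have k001 := key 0 0 1
  have k101 := key 1 0 1
  have k201 := key 2 0 1
  have k011 := key 0 1 1
  have k021 := key 0 2 1
  have k111 := key 1 1 1
  have k11n := key 1 1 (-1)
  have k100 := key 1 0 0
  have k010 := key 0 1 0
  have kn01 := key (-1) 0 1
  have k0n1 := key 0 (-1) 1
  have k1n1 := key 1 (-1) 1
  have k110 := key 1 1 0
  have k1n0 := key 1 (-1) 0
  have c1 : l2 ^ 2 * m2 = 0 := by linear_combination k001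
  have c2 : l2 ^ 2 * m0 + 2 * l0 * l2 * m2 = 0 := by
    linear_combination (k101 - kn01) / 2 - k100
  have c3 : l2 ^ 2 * m1 + 2 * l1 * l2 * m2 = 0 := by
    linear_combination (k011 - k0n1) / 2 - k010
  have c4 : l0 ^ 2 * m2 + 2 * l0 * l2 * m0 = 0 := by
    linear_combination (k101 + kn01) / 2 - k001
  have c5 : l1 ^ 2 * m2 + 2 * l1 * l2 * m1 = 0 := by
    linear_combination (k011 + k0n1) / 2 - k001
  have c6 : 2 * l0 * l1 * m2 + 2 * l0 * l2 * m1 + 2 * l1 * l2 * m0 = 1 := by
    linear_combination (k111 - k11n) / 2 - k001 - c4 - c5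
  have c7 : l0 ^ 2 * m1 + 2 * l0 * l1 * m0 = 0 := by
    linear_combination (k110 - k1n0) / 2 - k010
  have c8 : l1 ^ 2 * m0 + 2 * l0 * l1 * m1 = 0 := by
    linear_combination (k110 + k1n0) / 2 - k100
  by_cases h2 : l2 = 0
  · rw [h2] at c4 c5 c6
    have d1 : l0 ^ 2 * m2 = 0 := by linear_combination c4
    have d2 : l1 ^ 2 * m2 = 0 := by linear_combination c5
    have d3 : 2 * l0 * l1 * m2 = 1 := by linear_combination c6
    rcases mul_eq_zero.1 d1 with d | d
    · have : l0 = 0 := by simpa using d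
      rw [this] at d3
      simp at d3
    · rw [d] at d3
      simp at d3
  · have e2 : m2 = 0 := (mul_eq_zero.1 c1).resolve_left (pow_ne_zero 2 h2)
    rw [e2] at c2 c3 c6
    have e0 : m0 = 0 := by
      have : l2 ^ 2 * m0 = 0 := by linear_combination c2
      exact (mul_eq_zero.1 this).resolve_left (pow_ne_zero 2 h2)
    have e1 : m1 = 0 := by
      have : l2 ^ 2 * m1 = 0 := by linear_combination c3
      exact (mul_eq_zero.1 this).resolve_left (pow_ne_zero 2 h2)
    rw [e0, e1] at c6
    simp at c6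

theorem TriGerm2.ne {g : MvPolynomial (Fin 3) ℂ} (h : TriGerm2 g) :
    homogeneousComponent 3 g ≠ 0 := by
  rcases h with h | h
  · exact TriGerm.ne h
  · exact NodCond.ne h

theorem TriGerm2.add_C {g : MvPolynomial (Fin 3) ℂ} (h : TriGerm2 g) (c : ℂ) :
    TriGerm2 (g + C c) := by
  rcases h with h | h
  · exact Or.inl (TriGerm.add_C h c)
  · refine Or.inr ?_
    rw [homogeneousComponent_add_C _ _ (by norm_num)]
    exact h

theorem smcLoc_triGerm2 {r : ℕ} {g : MvPolynomial (Fin 3) ℂ}
    (low : ∀ j < 3, homogeneousComponent j g = 0) (h : TriGerm2 g) {e : Fin r → ℕ}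
    (he : ∀ i, 2 ≤ e i) : SmcLoc (SS.sg g e) := by
  rcases h with h | ⟨M, a, b, hM, h⟩
  · exact (suLoc_triGerm low h).smcLoc_sg he
  · exact SmcLoc.of_suspNod low ⟨M, a, b, hM, h⟩ fun i => by have := he i; omega

end SG3

open CV QV SG3

/-- **The strong monodromy conjecture, local version**, for `g(x, y, z) + ∑ u_i^{e_i}`, `e_i ≥ 1`,
where `g` has multiplicity at most two, or satisfies `TriGerm2`. -/
theorem SmcLoc.of_suspTri2 {r : ℕ} {g : MvPolynomial (Fin 3) ℂ}
    (hm : (∃ j < 3, homogeneousComponent j g ≠ 0) ∨ TriGerm2 g)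
    {e : Fin r → ℕ} (he : ∀ i, 0 < e i) : SmcLoc (SS.sg g e) := by
  classical
  have hg : g ≠ 0 := by
    rintro rfl
    rcases hm with ⟨j, _, hj⟩ | h
    · exact hj (map_zero _)
    · exact TriGerm2.ne h (map_zero _)
  by_cases h0 : coeff 0 g = 0
  swap
  · exact smcLoc_of_coeff_ne (by rw [SS.coeff_zero_sg g he]; exact h0)
  by_cases hl : (∃ i, coeff (Finsupp.single i 1) g ≠ 0) ∨ ∃ i, e i = 1
  · exact smcLoc_sg_smooth he h0 hl
  push Not at hl
  obtain ⟨hl1, hl2⟩ := hl
  have he2 : ∀ i, 2 ≤ e i := fun i => by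
    have h1 := he i
    have h2 := hl2 i
    omega
  have hcr : ∀ i, eval 0 (pderiv i g) = 0 := fun i => by rw [← coeff_single_eq_eval, hl1]
  by_cases hH : YG.hessAt g 0 = 0
  · have low : ∀ j < 3, homogeneousComponent j g = 0 := by
      intro j hj
      refine SE4.low_of_derivatives h0 (fun i => ?_) (fun i k => ?_) j hj
      · rw [coeff_zero_eq_eval, hcr]
      · rw [coeff_zero_eq_eval]
        exact congrFun (congrFun hH i) k
    rcases hm with ⟨j, hj, hj'⟩ | h3
    · exact absurd (low j hj) hj'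
    · exact smcLoc_triGerm2 low h3 he2
  · refine SS.smcLoc_susp (by omega) h0 hl1 ?_ he2 (sg_ne_zero he hg)
    have h2 := CK.hess_translate g 0
    rw [translate_zero'] at h2
    have h3 := SE3.one_le_rank hH
    rw [h2]
    omega

/-- **The strong monodromy conjecture, local version**, for `f = g(x, y, z) + ∑ h_i(u_i)`, `h_i`
nonconstant polynomials in one variable, where `g - g(0)` has multiplicity at most two, or satisfies
`TriGerm2`. -/
theorem SmcLoc.of_sumTri2 {r : ℕ} {g : MvPolynomial (Fin 3) ℂ}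
    (hm : homogeneousComponent 1 g ≠ 0 ∨ homogeneousComponent 2 g ≠ 0 ∨ TriGerm2 g)
    {h : Fin r → Polynomial ℂ} (hh : ∀ i, 0 < (h i).natDegree) : SmcLoc (SS.sh g h) := by
  have hne : SS.sh g h ≠ 0 := by
    rcases hm with hm | hm | hm
    · exact SS.sh_ne_zero h (by norm_num) hm
    · exact SS.sh_ne_zero h (by norm_num) hm
    · exact SS.sh_ne_zero h (by norm_num) (TriGerm2.ne hm)
  by_cases h0 : coeff 0 (SS.sh g h) = 0
  swap
  · exact smcLoc_of_coeff_ne h0
  refine SmcLoc.of_sumL hh hne h0 fun m hm2 _ _ => SmcLoc.of_suspTri2 ?_ fun i => by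
    have := hm2 i
    omega
  rcases hm with hm | hm | hm
  · exact Or.inl ⟨1, by norm_num, by
      rw [SS.homogeneousComponent_sub_C' _ _ (by norm_num)]; exact hm⟩
  · exact Or.inl ⟨2, by norm_num, by
      rw [SS.homogeneousComponent_sub_C' _ _ (by norm_num)]; exact hm⟩
  · refine Or.inr ?_
    rw [sub_eq_add_neg, ← C_neg]
    exact TriGerm2.add_C hm _

/-- **The strong monodromy conjecture, global version**, for `f = g(x, y, z) + ∑ h_i(u_i)`, `h_i`
nonconstant polynomials in one variable, such that, at the critical zeros `(p, z)` of `f`, `g - g(p)`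
has multiplicity at most two at `p` or satisfies `TriGerm2`. -/
theorem SmcGlob.of_sumTri2 {r : ℕ} {g : MvPolynomial (Fin 3) ℂ}
    {h : Fin r → Polynomial ℂ}
    (hh : ∀ i, 0 < (h i).natDegree) (hne : SS.sh g h ≠ 0)
    (h3 : ∀ (p : Fin 3 → ℂ) (z : Fin r → ℂ), eval p g + ∑ i, (h i).eval (z i) = 0 →
      (∀ i, (Polynomial.derivative (h i)).eval (z i) = 0) →
      homogeneousComponent 1 (translate p g) = 0 → homogeneousComponent 2 (translate p g) = 0 →
      TriGerm2 (translate p g)) : SmcGlob (SS.sh g h) := by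
  have key : ∀ z : Fin r → ℂ, (∀ i, (Polynomial.derivative (h i)).eval (z i) = 0) →
      ∀ p ∈ QG.Tr (g + C (∑ i, (h i).eval (z i))),
        TriGerm2 (translate p (g + C (∑ i, (h i).eval (z i)))) := by
    intro z hz p hp
    have h1 := QH.t3_iff.1 hp
    rw [SG3.translate_add_C]
    refine TriGerm2.add_C (h3 p z ?_ hz ?_ ?_) _
    · have h2 := hp.1
      rw [map_add, eval_C] at h2
      exact h2
    · rw [← SG3.homogeneousComponent_add_C _ (∑ i, (h i).eval (z i)) (by norm_num),
        ← SG3.translate_add_C]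
      exact h1 1 (by norm_num)
    · rw [← SG3.homogeneousComponent_add_C _ (∑ i, (h i).eval (z i)) (by norm_num),
        ← SG3.translate_add_C]
      exact h1 2 (by norm_num)
  have hnq : ∀ z : Fin r → ℂ, (∀ i, (Polynomial.derivative (h i)).eval (z i) = 0) →
      QG.NoQ (g + C (∑ i, (h i).eval (z i))) := by
    intro z hz p hp
    rw [QH.third_iff]
    exact TriGerm2.ne (key z hz p hp)
  have hS : ∀ z : Fin r → ℂ, (∀ i, (Polynomial.derivative (h i)).eval (z i) = 0) →
      ∀ p ∈ QG.Tr (g + C (∑ i, (h i).eval (z i))), ∀ m : Fin r → ℕ, (∀ i, 2 ≤ m i) →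
        SmcLoc (SS.sg (translate p (g + C (∑ i, (h i).eval (z i)))) m) := fun z hz p hp m hm =>
    SmcLoc.of_suspTri2 (Or.inr (key z hz p hp)) fun i => by have := hm i; omega
  by_cases hd : g.totalDegree ≤ 4
  · exact SmcGlob.of_sumQ hh hne hd hnq hS
  · refine SmcGlob.of_sumCov hh hne (fun z hz => ?_) hS
    refine (SG3.covS_sqf (SG3.ne_zero_of_noQ (hnq z hz))).mono fun p hp => ⟨hp, ?_⟩
    rcases key z hz p hp with (⟨h4, -⟩ | ⟨h4, h5⟩) | h4
    · exfalso
      apply hd
      have h6 : g = translate (-p) (translate p (g + C (∑ i, (h i).eval (z i)))) -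
          C (∑ i, (h i).eval (z i)) := by
        refine MvPolynomial.funext fun x => ?_
        rw [map_sub, D5.eval_translate', D5.eval_translate', map_add, eval_C]
        have h7 : x + -p + p = x := by
          funext i
          simp
        rw [h7, eval_C, add_sub_cancel_right]
      rw [h6]
      exact (totalDegree_sub _ _).trans (max_le ((D5.totalDegree_translate_le _ _).trans h4)
        (by rw [totalDegree_C]; omega))
    · exact SG3.squarefree_of_quartic (homogeneousComponent_isHomogeneous 3 _)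
        (homogeneousComponent_isHomogeneous 4 _) h4 h5
    · exact NodCond.squarefree (homogeneousComponent_isHomogeneous 3 _) h4

end MPb07157
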