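import Pool.Agent.Lib.MP_b07157_agSG3.TriDef3
import Pool.Agent.Lib.MP_b07157_agSG3.Tri2

/-!
# Sums of polynomials in three variables and polynomials in one variable, III
-/

noncomputable section

namespace MPb07157

open MvPolynomial

namespace SG3

/-- The theorem on the tangent cones `x (x z + y^2)`. -/
def TangentThm : Prop :=
  ∀ (r : ℕ) (g : MvPolynomial (Fin 3) ℂ) (M : Matrix (Fin 3) (Fin 3) ℂ), M.det ≠ 0 →
    (∀ w : Fin 3 → ℂ, eval (M.mulVec w) (homogeneousComponent 3 g) =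
      w 0 * (w 0 * w 2 + w 1 ^ 2)) → g.totalDegree ≤ 4 →
    (∀ j < 3, homogeneousComponent j g = 0) → ∀ e : Fin r → ℕ, (∀ i, 2 ≤ e i) →
      SmcLoc (SS.sg g e)

theorem exists_mat {c c' : MvPolynomial (Fin 3) ℂ} (h : CS.LinEq c c') :
    ∃ M : Matrix (Fin 3) (Fin 3) ℂ, M.det ≠ 0 ∧ ∀ w, eval (M.mulVec w) c = eval w c' := by
  obtain ⟨e, he⟩ := h
  obtain ⟨M, hM, hMe⟩ := QV.mulVec_toMatrix e
  exact ⟨M, hM, fun w => by rw [hMe, he]⟩

theorem subM_inv {M : Matrix (Fin 3) (Fin 3) ℂ} (hM : M.det ≠ 0) (c : MvPolynomial (Fin 3) ℂ) :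
    c = aeval (LC.subM M⁻¹) (aeval (LC.subM M) c) := by
  refine MvPolynomial.funext fun w => ?_
  rw [LC.eval_subM, LC.eval_subM, Matrix.mulVec_mulVec,
    Matrix.mul_nonsing_inv _ (isUnit_iff_ne_zero.2 hM), Matrix.one_mulVec]

theorem not_squarefree_of {M : Matrix (Fin 3) (Fin 3) ℂ} (hM : M.det ≠ 0)
    {c f : MvPolynomial (Fin 3) ℂ} (h : ∀ w, eval (M.mulVec w) c = w 0 ^ 2 * eval w f) :
    ¬ Squarefree c := by
  intro hs
  have h1 : aeval (LC.subM M) c = X 0 ^ 2 * f := by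
    refine MvPolynomial.funext fun w => ?_
    rw [LC.eval_subM, h, map_mul, map_pow, eval_X]
  have h2 := subM_inv hM c
  rw [h1, map_mul, map_pow] at h2
  have h3 := hs (aeval (LC.subM M⁻¹) (X 0)) (by
    rw [h2, pow_two]
    exact dvd_mul_right _ _)
  have h4 := (h3.map (eval (0 : Fin 3 → ℂ))).ne_zero
  apply h4
  rw [LC.eval_subM, Matrix.mulVec_zero, eval_X]
  rfl

theorem hess_zero_of {M : Matrix (Fin 3) (Fin 3) ℂ} (hM : M.det ≠ 0)
    {c : MvPolynomial (Fin 3) ℂ} (h : ∀ w, eval (M.mulVec w) c = w 0 ^ 3 + w 1 ^ 3) :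
    ∃ q : Fin 3 → ℂ, q ≠ 0 ∧ YG.hessAt c q = 0 := by
  have h1 : aeval (LC.subM M) c = X 0 ^ 3 + X 1 ^ 3 := by
    refine MvPolynomial.funext fun w => ?_
    rw [LC.eval_subM, h, map_add, map_pow, map_pow, eval_X, eval_X]
  have h2 := subM_inv hM c
  rw [h1, map_add, map_pow, map_pow] at h2
  refine ⟨M.mulVec ![0, 0, 1], ?_, ?_⟩
  · intro h3
    apply hM
    exact Matrix.exists_mulVec_eq_zero_iff.1 ⟨_, fun h => one_ne_zero (congrFun h 2), h3⟩
  · have hL : ∀ i : Fin 3, i ≠ 2 → eval (M.mulVec ![0, 0, 1]) (aeval (LC.subM M⁻¹)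
        (X i : MvPolynomial (Fin 3) ℂ)) = 0 := by
      intro i hi
      rw [LC.eval_subM, Matrix.mulVec_mulVec,
        Matrix.nonsing_inv_mul _ (isUnit_iff_ne_zero.2 hM), Matrix.one_mulVec, eval_X]
      fin_cases i
      · rfl
      · rfl
      · exact absurd rfl hi
    have h0 := hL 0 (by decide)
    have h1 := hL 1 (by decide)
    generalize aeval (LC.subM M⁻¹) (X 0 : MvPolynomial (Fin 3) ℂ) = L0 at h0 h2
    generalize aeval (LC.subM M⁻¹) (X 1 : MvPolynomial (Fin 3) ℂ) = L1 at h1 h2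
    rw [h2]
    funext i j
    unfold YG.hessAt
    simp [Derivation.leibniz_pow, Derivation.leibniz, h0, h1]

/-- The cubic forms. -/
theorem cases3 {c : MvPolynomial (Fin 3) ℂ} (hc : c.IsHomogeneous 3) (h0 : c ≠ 0) :
    TriCond c ∨ NodCond c ∨ TangentCubic c := by
  by_cases hs : ∀ p : Fin 3 → ℂ, p ≠ 0 → ∃ i, eval p (pderiv i c) ≠ 0
  · exact Or.inl ⟨h0, Or.inr (Or.inl hs)⟩
  push Not at hs
  obtain ⟨p, hp, hs⟩ := hs
  rcases CR.singular_cubic hc hp hs with ⟨a, b, h⟩ | h | h | h | h | h | h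
  · right
    left
    obtain ⟨M, hM, h⟩ := exists_mat h
    refine ⟨M, a, b, hM, fun w => ?_⟩
    rw [h]
    unfold CR.cT
    simp
  · left
    obtain ⟨M, hM, h⟩ := exists_mat h
    refine ⟨h0, Or.inr (Or.inr (Or.inl ⟨M * !![0, 0, 1; 1, 0, 0; 0, 1, 0], ?_, fun w => ?_⟩))⟩
    · rw [Matrix.det_mul]
      refine mul_ne_zero hM ?_
      simp [Matrix.det_fin_three]
    · rw [← Matrix.mulVec_mulVec, h]
      unfold CR.cQ
      simp [dotProduct, Fin.sum_univ_three]
      ring
  · right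
    right
    obtain ⟨M, hM, h⟩ := exists_mat h
    refine ⟨M, hM, fun w => ?_⟩
    rw [h]
    unfold CR.cS
    simp
    ring
  · left
    obtain ⟨M, hM, h⟩ := exists_mat h
    refine ⟨h0, Or.inl (not_squarefree_of hM (f := X 2) fun w => ?_)⟩
    rw [h]
    unfold CR.cV
    simp
  · left
    obtain ⟨M, hM, h⟩ := exists_mat h
    refine ⟨h0, Or.inr (Or.inr (Or.inr (hess_zero_of hM fun w => ?_)))⟩
    rw [h]
    unfold CR.cU
    simp
  · left
    obtain ⟨M, hM, h⟩ := exists_mat h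
    refine ⟨h0, Or.inl (not_squarefree_of hM (f := X 0) fun w => ?_)⟩
    rw [h]
    unfold CR.cU
    simp
    ring
  · exact absurd h h0

theorem TriGerm3.ne {g : MvPolynomial (Fin 3) ℂ} (h : TriGerm3 g) :
    homogeneousComponent 3 g ≠ 0 := h.1

theorem TriGerm3.add_C {g : MvPolynomial (Fin 3) ℂ} (h : TriGerm3 g) (c : ℂ) :
    TriGerm3 (g + C c) := by
  obtain ⟨h0, h⟩ := h
  unfold TriGerm3
  rw [homogeneousComponent_add_C _ _ (by norm_num), homogeneousComponent_add_C _ _ (by norm_num)]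
  refine ⟨h0, ?_⟩
  rcases h with h | h
  · exact Or.inl ((totalDegree_add _ _).trans (max_le h (by rw [totalDegree_C]; omega)))
  · exact Or.inr h

theorem smcLoc_triGerm3 (H' : TangentThm) {r : ℕ} {g : MvPolynomial (Fin 3) ℂ}
    (low : ∀ j < 3, homogeneousComponent j g = 0) (h : TriGerm3 g) {e : Fin r → ℕ}
    (he : ∀ i, 2 ≤ e i) : SmcLoc (SS.sg g e) := by
  obtain ⟨h0, hd | ⟨M, a, b, hM, h⟩ | h⟩ := h
  · rcases cases3 (homogeneousComponent_isHomogeneous 3 g) h0 with h | ⟨M, a, b, hM, h⟩ |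
      ⟨M, hM, h⟩
    · exact (QV.suLoc_tri hd low h).smcLoc_sg he
    · exact SmcLoc.of_suspNod low ⟨M, a, b, hM, h⟩ fun i => by have := he i; omega
    · exact H' r g M hM h hd low e he
  · exact SmcLoc.of_suspNod low ⟨M, a, b, hM, h⟩ fun i => by have := he i; omega
  · exact (QV.suLoc_ord3 low h0 h).smcLoc_sg he

end SG3

open CV QV SG3

/-- The suspensions of germs of multiplicity at most three, local version. -/
theorem SmcLoc.of_suspP {P : MvPolynomial (Fin 3) ℂ → Prop}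
    (Pne : ∀ g, P g → homogeneousComponent 3 g ≠ 0)
    (Ploc : ∀ (r : ℕ) (g : MvPolynomial (Fin 3) ℂ), (∀ j < 3, homogeneousComponent j g = 0) →
      P g → ∀ e : Fin r → ℕ, (∀ i, 2 ≤ e i) → SmcLoc (SS.sg g e))
    {r : ℕ} {g : MvPolynomial (Fin 3) ℂ} (hm : (∃ j < 3, homogeneousComponent j g ≠ 0) ∨ P g)
    {e : Fin r → ℕ} (he : ∀ i, 0 < e i) : SmcLoc (SS.sg g e) := by
  classical
  have hg : g ≠ 0 := by
    rintro rfl
    rcases hm with ⟨j, _, hj⟩ | h
    · exact hj (map_zero _)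
    · exact Pne _ h (map_zero _)
  by_cases h0 : coeff 0 g = 0
  swap
  · exact smcLoc_of_coeff_ne (by rw [SS.coeff_zero_sg g he]; exact h0)
  by_cases hl : (∃ i, coeff (Finsupp.single i 1) g ≠ 0) ∨ ∃ i, e i = 1
  · exact smcLoc_sg_smooth he h0 hl
  push Not at hl
  obtain ⟨hl1, hl2⟩ := hl
  have he2 : ∀ i, 2 ≤ e i := fun i => by
    have h1 := he i
    have h2 := hl2 i
    omega
  have hcr : ∀ i, eval 0 (pderiv i g) = 0 := fun i => by rw [← coeff_single_eq_eval, hl1]
  by_cases hH : YG.hessAt g 0 = 0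
  · have low : ∀ j < 3, homogeneousComponent j g = 0 := by
      intro j hj
      refine SE4.low_of_derivatives h0 (fun i => ?_) (fun i k => ?_) j hj
      · rw [coeff_zero_eq_eval, hcr]
      · rw [coeff_zero_eq_eval]
        exact congrFun (congrFun hH i) k
    rcases hm with ⟨j, hj, hj'⟩ | h3
    · exact absurd (low j hj) hj'
    · exact Ploc r g low h3 e he2
  · refine SS.smcLoc_susp (by omega) h0 hl1 ?_ he2 (sg_ne_zero he hg)
    have h2 := CK.hess_translate g 0
    rw [translate_zero'] at h2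
    have h3 := SE3.one_le_rank hH
    rw [h2]
    omega

/-- The sums with one-variable polynomials, local version. -/
theorem SmcLoc.of_sumP {P : MvPolynomial (Fin 3) ℂ → Prop}
    (Pne : ∀ g, P g → homogeneousComponent 3 g ≠ 0) (PC : ∀ g c, P g → P (g + C c))
    (Ploc : ∀ (r : ℕ) (g : MvPolynomial (Fin 3) ℂ), (∀ j < 3, homogeneousComponent j g = 0) →
      P g → ∀ e : Fin r → ℕ, (∀ i, 2 ≤ e i) → SmcLoc (SS.sg g e))
    {r : ℕ} {g : MvPolynomial (Fin 3) ℂ}
    (hm : homogeneousComponent 1 g ≠ 0 ∨ homogeneousComponent 2 g ≠ 0 ∨ P g)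
    {h : Fin r → Polynomial ℂ} (hh : ∀ i, 0 < (h i).natDegree) : SmcLoc (SS.sh g h) := by
  have hne : SS.sh g h ≠ 0 := by
    rcases hm with hm | hm | hm
    · exact SS.sh_ne_zero h (by norm_num) hm
    · exact SS.sh_ne_zero h (by norm_num) hm
    · exact SS.sh_ne_zero h (by norm_num) (Pne _ hm)
  by_cases h0 : coeff 0 (SS.sh g h) = 0
  swap
  · exact smcLoc_of_coeff_ne h0
  refine SmcLoc.of_sumL hh hne h0 fun m hm2 _ _ => SmcLoc.of_suspP Pne Ploc ?_ fun i => by
    have := hm2 i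
    omega
  rcases hm with hm | hm | hm
  · exact Or.inl ⟨1, by norm_num, by
      rw [SS.homogeneousComponent_sub_C' _ _ (by norm_num)]; exact hm⟩
  · exact Or.inl ⟨2, by norm_num, by
      rw [SS.homogeneousComponent_sub_C' _ _ (by norm_num)]; exact hm⟩
  · refine Or.inr ?_
    rw [sub_eq_add_neg, ← C_neg]
    exact PC _ _ hm

/-- The sums with one-variable polynomials, global version. -/
theorem SmcGlob.of_sumP {P : MvPolynomial (Fin 3) ℂ → Prop}
    (Pne : ∀ g, P g → homogeneousComponent 3 g ≠ 0) (PC : ∀ g c, P g → P (g + C c))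
    (Ploc : ∀ (r : ℕ) (g : MvPolynomial (Fin 3) ℂ), (∀ j < 3, homogeneousComponent j g = 0) →
      P g → ∀ e : Fin r → ℕ, (∀ i, 2 ≤ e i) → SmcLoc (SS.sg g e))
    (Psq : ∀ g, P g → ¬ g.totalDegree ≤ 4 → Squarefree (homogeneousComponent 3 g))
    {r : ℕ} {g : MvPolynomial (Fin 3) ℂ} {h : Fin r → Polynomial ℂ}
    (hh : ∀ i, 0 < (h i).natDegree) (hne : SS.sh g h ≠ 0)
    (h3 : ∀ (p : Fin 3 → ℂ) (z : Fin r → ℂ), eval p g + ∑ i, (h i).eval (z i) = 0 →
      (∀ i, (Polynomial.derivative (h i)).eval (z i) = 0) →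
      homogeneousComponent 1 (translate p g) = 0 → homogeneousComponent 2 (translate p g) = 0 →
      P (translate p g)) : SmcGlob (SS.sh g h) := by
  have key : ∀ z : Fin r → ℂ, (∀ i, (Polynomial.derivative (h i)).eval (z i) = 0) →
      ∀ p ∈ QG.Tr (g + C (∑ i, (h i).eval (z i))),
        P (translate p (g + C (∑ i, (h i).eval (z i)))) := by
    intro z hz p hp
    have h1 := QH.t3_iff.1 hp
    rw [SG3.translate_add_C]
    refine PC _ _ (h3 p z ?_ hz ?_ ?_)
    · have h2 := hp.1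
      rw [map_add, eval_C] at h2
      exact h2
    · rw [← SG3.homogeneousComponent_add_C _ (∑ i, (h i).eval (z i)) (by norm_num),
        ← SG3.translate_add_C]
      exact h1 1 (by norm_num)
    · rw [← SG3.homogeneousComponent_add_C _ (∑ i, (h i).eval (z i)) (by norm_num),
        ← SG3.translate_add_C]
      exact h1 2 (by norm_num)
  have hnq : ∀ z : Fin r → ℂ, (∀ i, (Polynomial.derivative (h i)).eval (z i) = 0) →
      QG.NoQ (g + C (∑ i, (h i).eval (z i))) := by
    intro z hz p hp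
    rw [QH.third_iff]
    exact Pne _ (key z hz p hp)
  have hS : ∀ z : Fin r → ℂ, (∀ i, (Polynomial.derivative (h i)).eval (z i) = 0) →
      ∀ p ∈ QG.Tr (g + C (∑ i, (h i).eval (z i))), ∀ m : Fin r → ℕ, (∀ i, 2 ≤ m i) →
        SmcLoc (SS.sg (translate p (g + C (∑ i, (h i).eval (z i)))) m) := fun z hz p hp m hm =>
    SmcLoc.of_suspP Pne Ploc (Or.inr (key z hz p hp)) fun i => by have := hm i; omega
  by_cases hd : g.totalDegree ≤ 4
  · exact SmcGlob.of_sumQ hh hne hd hnq hS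
  · refine SmcGlob.of_sumCov hh hne (fun z hz => ?_) hS
    refine (SG3.covS_sqf (SG3.ne_zero_of_noQ (hnq z hz))).mono fun p hp => ⟨hp, ?_⟩
    refine Psq _ (key z hz p hp) fun h4 => hd ?_
    have h6 : g = translate (-p) (translate p (g + C (∑ i, (h i).eval (z i)))) -
        C (∑ i, (h i).eval (z i)) := by
      refine MvPolynomial.funext fun x => ?_
      rw [map_sub, D5.eval_translate', D5.eval_translate', map_add, eval_C]
      have h7 : x + -p + p = x := by
        funext i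
        simp
      rw [h7, eval_C, add_sub_cancel_right]
    rw [h6]
    exact (totalDegree_sub _ _).trans (max_le ((D5.totalDegree_translate_le _ _).trans h4)
      (by rw [totalDegree_C]; omega))

theorem SG3.TriGerm3.squarefree {g : MvPolynomial (Fin 3) ℂ} (h : TriGerm3 g)
    (hd : ¬ g.totalDegree ≤ 4) : Squarefree (homogeneousComponent 3 g) := by
  obtain ⟨h0, h | h | h⟩ := h
  · exact absurd h hd
  · exact NodCond.squarefree (homogeneousComponent_isHomogeneous 3 _) h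
  · exact SG3.squarefree_of_quartic (homogeneousComponent_isHomogeneous 3 _)
      (homogeneousComponent_isHomogeneous 4 _) h0 h

/-- **The strong monodromy conjecture, local version**, for `f = g(x, y, z) + ∑ h_i(u_i)`, `h_i`
nonconstant polynomials in one variable, where `g - g(0)` has multiplicity at most two, or satisfies
`TriGerm3`. -/
theorem SmcLoc.of_sumTri3 (H' : TangentThm) {r : ℕ} {g : MvPolynomial (Fin 3) ℂ}
    (hm : homogeneousComponent 1 g ≠ 0 ∨ homogeneousComponent 2 g ≠ 0 ∨ TriGerm3 g)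
    {h : Fin r → Polynomial ℂ} (hh : ∀ i, 0 < (h i).natDegree) : SmcLoc (SS.sh g h) :=
  SmcLoc.of_sumP (P := TriGerm3) (fun _ h => TriGerm3.ne h) (fun _ c h => TriGerm3.add_C h c)
    (fun _ _ low h _ he => smcLoc_triGerm3 H' low h he) hm hh

/-- **The strong monodromy conjecture, global version**, for `f = g(x, y, z) + ∑ h_i(u_i)`, `h_i`
nonconstant polynomials in one variable, such that, at the critical zeros `(p, z)` of `f`, `g - g(p)`
has multiplicity at most two at `p` or satisfies `TriGerm3`. -/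
theorem SmcGlob.of_sumTri3 (H' : TangentThm) {r : ℕ} {g : MvPolynomial (Fin 3) ℂ}
    {h : Fin r → Polynomial ℂ}
    (hh : ∀ i, 0 < (h i).natDegree) (hne : SS.sh g h ≠ 0)
    (h3 : ∀ (p : Fin 3 → ℂ) (z : Fin r → ℂ), eval p g + ∑ i, (h i).eval (z i) = 0 →
      (∀ i, (Polynomial.derivative (h i)).eval (z i) = 0) →
      homogeneousComponent 1 (translate p g) = 0 → homogeneousComponent 2 (translate p g) = 0 →
      TriGerm3 (translate p g)) : SmcGlob (SS.sh g h) :=
  SmcGlob.of_sumP (P := TriGerm3) (fun _ h => TriGerm3.ne h) (fun _ c h => TriGerm3.add_C h c)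
    (fun _ _ low h _ he => smcLoc_triGerm3 H' low h he)
    (fun _ h hd => SG3.TriGerm3.squarefree h hd) hh hne h3

end MPb07157
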