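import Pool.Agent.Lib.MP_b07157_agSG3.Tri3

/-!
# Sums of polynomials in three variables and polynomials in one variable, IV
-/

noncomputable section

namespace MPb07157

open MvPolynomial

open CV QV SG3

namespace SG3

theorem crit_of_comp {g : MvPolynomial (Fin 3) ℂ} {p : Fin 3 → ℂ}
    (h1 : homogeneousComponent 1 (translate p g) = 0)
    (h2 : homogeneousComponent 2 (translate p g) = 0) :
    (∀ i, eval p (pderiv i g) = 0) ∧ YG.hessAt g p = 0 := by
  have h : QH.T3 (g + C (- eval p g)) p := by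
    rw [QH.t3_iff]
    intro j hj
    rw [translate_add_C]
    rcases Nat.eq_zero_or_pos j with rfl | hj0
    · rw [homogeneousComponent_zero, coeff_add, coeff_C, if_pos rfl, SE3.coeff_zero_tr,
        add_neg_cancel, C_0]
    · rw [homogeneousComponent_add_C _ _ hj0]
      have : j = 1 ∨ j = 2 := by omega
      rcases this with rfl | rfl
      · exact h1
      · exact h2
  obtain ⟨-, h3, h4⟩ := h
  refine ⟨fun i => ?_, ?_⟩
  · have := h3 i
    rwa [SS.pderiv_add_C] at this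
  · funext i j
    have := h4 i j
    rwa [SS.pderiv_add_C] at this

theorem crit_of_comp0 {g : MvPolynomial (Fin 3) ℂ}
    (h1 : homogeneousComponent 1 g = 0) (h2 : homogeneousComponent 2 g = 0) :
    (∀ i, coeff 0 (pderiv i g) = 0) ∧ YG.hessAt g 0 = 0 := by
  have h := crit_of_comp (p := 0) (g := g) (by rw [translate_zero]; exact h1)
    (by rw [translate_zero]; exact h2)
  exact ⟨fun i => by rw [coeff_zero_eq_eval]; exact h.1 i, h.2⟩

theorem hm_of {P : MvPolynomial (Fin 3) ℂ → Prop} {g : MvPolynomial (Fin 3) ℂ}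
    (hc : (∀ i, coeff 0 (pderiv i g) = 0) → YG.hessAt g 0 ≠ 0 ∨ P g) :
    homogeneousComponent 1 g ≠ 0 ∨ homogeneousComponent 2 g ≠ 0 ∨ P g := by
  by_cases h1 : homogeneousComponent 1 g = 0
  swap
  · exact Or.inl h1
  by_cases h2 : homogeneousComponent 2 g = 0
  swap
  · exact Or.inr (Or.inl h2)
  obtain ⟨h3, h4⟩ := crit_of_comp0 h1 h2
  exact Or.inr (Or.inr ((hc h3).resolve_left fun h => h h4))

end SG3

/-- `SmcLoc.of_sumTri` with the hypothesis in another form. -/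
theorem SmcLoc.of_sum3T {r : ℕ} {g : MvPolynomial (Fin 3) ℂ}
    (hc : (∀ i, coeff 0 (pderiv i g) = 0) → YG.hessAt g 0 ≠ 0 ∨ TriGerm g)
    {h : Fin r → Polynomial ℂ} (hh : ∀ i, 0 < (h i).natDegree) : SmcLoc (SS.sh g h) :=
  SmcLoc.of_sumTri (hm_of hc) hh

/-- `SmcGlob.of_sumTri` with the hypothesis in another form. -/
theorem SmcGlob.of_sum3T {r : ℕ} {g : MvPolynomial (Fin 3) ℂ} {h : Fin r → Polynomial ℂ}
    (hh : ∀ i, 0 < (h i).natDegree) (hne : SS.sh g h ≠ 0)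
    (hc : ∀ (p : Fin 3 → ℂ) (z : Fin r → ℂ), eval p g + ∑ i, (h i).eval (z i) = 0 →
      (∀ i, eval p (pderiv i g) = 0) → (∀ i, (Polynomial.derivative (h i)).eval (z i) = 0) →
      YG.hessAt g p ≠ 0 ∨ TriGerm (translate p g)) : SmcGlob (SS.sh g h) :=
  SmcGlob.of_sumTri hh hne fun p z h0 hz h1 h2 =>
    (hc p z h0 (crit_of_comp h1 h2).1 hz).resolve_left fun h => h (crit_of_comp h1 h2).2

/-- `SmcLoc.of_sumTri2` with the hypothesis in another form. -/
theorem SmcLoc.of_sum3T2 {r : ℕ} {g : MvPolynomial (Fin 3) ℂ}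
    (hc : (∀ i, coeff 0 (pderiv i g) = 0) → YG.hessAt g 0 ≠ 0 ∨ TriGerm2 g)
    {h : Fin r → Polynomial ℂ} (hh : ∀ i, 0 < (h i).natDegree) : SmcLoc (SS.sh g h) :=
  SmcLoc.of_sumTri2 (hm_of hc) hh

/-- `SmcGlob.of_sumTri2` with the hypothesis in another form. -/
theorem SmcGlob.of_sum3T2 {r : ℕ} {g : MvPolynomial (Fin 3) ℂ}
    {h : Fin r → Polynomial ℂ}
    (hh : ∀ i, 0 < (h i).natDegree) (hne : SS.sh g h ≠ 0)
    (hc : ∀ (p : Fin 3 → ℂ) (z : Fin r → ℂ), eval p g + ∑ i, (h i).eval (z i) = 0 →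
      (∀ i, eval p (pderiv i g) = 0) → (∀ i, (Polynomial.derivative (h i)).eval (z i) = 0) →
      YG.hessAt g p ≠ 0 ∨ TriGerm2 (translate p g)) : SmcGlob (SS.sh g h) :=
  SmcGlob.of_sumTri2 hh hne fun p z h0 hz h1 h2 =>
    (hc p z h0 (crit_of_comp h1 h2).1 hz).resolve_left fun h => h (crit_of_comp h1 h2).2

/-- `SmcLoc.of_sumTri3` with the hypothesis in another form. -/
theorem SmcLoc.of_sum3T3 (H' : TangentThm) {r : ℕ} {g : MvPolynomial (Fin 3) ℂ}
    (hc : (∀ i, coeff 0 (pderiv i g) = 0) → YG.hessAt g 0 ≠ 0 ∨ TriGerm3 g)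
    {h : Fin r → Polynomial ℂ} (hh : ∀ i, 0 < (h i).natDegree) : SmcLoc (SS.sh g h) :=
  SmcLoc.of_sumTri3 H' (hm_of hc) hh

/-- `SmcGlob.of_sumTri3` with the hypothesis in another form. -/
theorem SmcGlob.of_sum3T3 (H' : TangentThm) {r : ℕ} {g : MvPolynomial (Fin 3) ℂ}
    {h : Fin r → Polynomial ℂ}
    (hh : ∀ i, 0 < (h i).natDegree) (hne : SS.sh g h ≠ 0)
    (hc : ∀ (p : Fin 3 → ℂ) (z : Fin r → ℂ), eval p g + ∑ i, (h i).eval (z i) = 0 →
      (∀ i, eval p (pderiv i g) = 0) → (∀ i, (Polynomial.derivative (h i)).eval (z i) = 0) →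
      YG.hessAt g p ≠ 0 ∨ TriGerm3 (translate p g)) : SmcGlob (SS.sh g h) :=
  SmcGlob.of_sumTri3 H' hh hne fun p z h0 hz h1 h2 =>
    (hc p z h0 (crit_of_comp h1 h2).1 hz).resolve_left fun h => h (crit_of_comp h1 h2).2

end MPb07157
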