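import Pool.Agent.Lib.MP_b07157_agQV.TriDefs

/-!
# A condition on germs of multiplicity three in three variables
-/

noncomputable section

namespace MPb07157

open MvPolynomial

/-- The homogeneous parts `c`, `q` of degrees three and four of `g`: `c ≠ 0`, and `q` does not vanish
at the critical points of `c` outside the origin (e.g. there are none); or `g` has degree at most four
and `c` satisfies `TriCond`. -/
def TriGerm (g : MvPolynomial (Fin 3) ℂ) : Prop :=
  (g.totalDegree ≤ 4 ∧ TriCond (homogeneousComponent 3 g)) ∨
    (homogeneousComponent 3 g ≠ 0 ∧ ∀ x : Fin 3 → ℂ, x ≠ 0 →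
      (∃ i, eval x (pderiv i (homogeneousComponent 3 g)) ≠ 0) ∨
        eval x (homogeneousComponent 4 g) ≠ 0)

end MPb07157
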