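import Pool.Agent.Lib.MP_b07157_agSG3.TriDef
import Pool.Agent.Lib.MP_b07157_agQV.NodDefs

/-!
# A condition on germs of multiplicity three in three variables, II
-/

noncomputable section

namespace MPb07157

open MvPolynomial

/-- `TriGerm`, or a nodal tangent cone. -/
def TriGerm2 (g : MvPolynomial (Fin 3) ℂ) : Prop :=
  TriGerm g ∨ NodCond (homogeneousComponent 3 g)

end MPb07157
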