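import Pool.Agent.Lib.MP_b07157_agSG3.Tri4
import Pool.Agent.Lib.MP_b07157_agQV.SDefs

/-!
# Sums of polynomials in three variables and polynomials in one variable: all tangent cones
-/

noncomputable section

namespace MPb07157

open MvPolynomial

open CV QV SG3

namespace SG3

/-- The theorem on the tangent cones `x (x z + y^2)` from the normal form. -/
theorem tangentThm_of (H : ∀ b0 b1 b2 b3 b4 a0 a1 a2 a3 e0 e1 e2 l0 l1 k : ℂ,
    SuLoc (QV.cS + QU.qf b0 b1 b2 b3 b4 a0 a1 a2 a3 e0 e1 e2 l0 l1 k)) : TangentThm := by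
  intro r g M hM hc hd low e he
  refine (suLoc_of_cubic (M := M * !![0, 0, 1; 1, 0, 0; 0, 1, 0]) (c := QV.cS) hd low ?_
    (fun w => ?_) H).smcLoc_sg he
  · rw [Matrix.det_mul]
    refine mul_ne_zero hM ?_
    simp [Matrix.det_fin_three]
  · rw [← Matrix.mulVec_mulVec, hc]
    unfold QV.cS
    simp [dotProduct, Fin.sum_univ_three]
    ring

end SG3

end MPb07157
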